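import Pool.Agent.AE15.Step

/-!
# Two-sided cuts of tournaments: definitions
-/

namespace SPD

open Finset AE15
open scoped Classical

variable {V : Type*} {R : V → V → Prop}

/-- the reversed relation -/
def rv (R : V → V → Prop) : V → V → Prop := fun a b => R b a

theorem rv_tour (hT : AE32.Tour R) : AE32.Tour (rv R) :=
  ⟨hT.irr, fun a b h => (hT.tot a b h).symm, fun a b h => hT.asym b a h⟩

theorem nO_rv {X : Finset V} {v : V} : nO (rv R) X v = nI R X v := rfl

theorem nI_rv {X : Finset V} {v : V} : nI (rv R) X v = nO R X v := rfl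

/-- the vertices outside `U` or with few out-neighbours in `U` -/
noncomputable def bad (R : V → V → Prop) (κ₀ : ℝ) (X U : Finset V) : Finset V :=
  X.filter (fun u => u ∉ U ∨ ((nO R U u).card : ℝ) < 2 * κ₀ * X.card)

/-- number of arcs from `A` to `B` -/
noncomputable def arcs (R : V → V → Prop) (A B : Finset V) : ℕ := ∑ a ∈ A, (nO R B a).card

/-- number of forward arcs of the ordered partition `Z₁, {y}, Z₂` -/
noncomputable def val (R : V → V → Prop) (Z₁ : Finset V) (y : V) (Z₂ : Finset V) : ℕ :=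
  (nI R Z₁ y).card + (nO R Z₂ y).card + arcs R Z₁ Z₂

/-- `P₁, {y}, P₂` is a partition of `X` -/
structure Part (X P₁ P₂ : Finset V) (y : V) : Prop where
  ymem : y ∈ X
  sub1 : P₁ ⊆ X
  sub2 : P₂ ⊆ X
  y1 : y ∉ P₁
  y2 : y ∉ P₂
  disj : Disjoint P₁ P₂
  card : P₁.card + P₂.card + 1 = X.card

/-- the partition `Z₁, {y}, Z₂` of `Z` with `Z₁.card = m` has the maximal number of forward arcs -/
structure Opt (R : V → V → Prop) (Z : Finset V) (m : ℕ) (Z₁ : Finset V) (y : V) (Z₂ : Finset V) : Prop where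
  part : Part Z Z₁ Z₂ y
  card1 : Z₁.card = m
  opt : ∀ Z₁' y' Z₂', Part Z Z₁' Z₂' y' → Z₁'.card = m → val R Z₁' y' Z₂' ≤ val R Z₁ y Z₂

/-- `w` reaches robustly, inside `X`, all but at most `t` vertices of `P` -/
def Rea (R : V → V → Prop) (X P : Finset V) (k t : ℝ) (w : V) : Prop :=
  ∃ W, Rch R X k w W ∧ ((P \ W).card : ℝ) ≤ t

/-- one side of a cut: `y` reaches robustly almost all of `P`, and every vertex of `P` is an out-neighbour of `y` or is
dominated by an out-neighbour of `y` in `P` which reaches robustly almost all of `P` -/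
def Sd (R : V → V → Prop) (X P : Finset V) (k t : ℝ) (y : V) : Prop :=
  Rea R X P k t y ∧ ∀ u ∈ P, R y u ∨ ∃ w ∈ P, R y w ∧ R w u ∧ Rea R X P k t w

theorem Part.symm {X P₁ P₂ : Finset V} {y : V} (h : Part X P₁ P₂ y) : Part X P₂ P₁ y :=
  ⟨h.ymem, h.sub2, h.sub1, h.y2, h.y1, h.disj.symm, by have := h.card; omega⟩

theorem Part.eq {X P₁ P₂ : Finset V} {y : V} (h : Part X P₁ P₂ y) : insert y (P₁ ∪ P₂) = X := by
  apply eq_of_subset_of_card_le
  · exact insert_subset h.ymem (union_subset h.sub1 h.sub2)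
  · rw [card_insert_of_notMem (by rw [mem_union, not_or]; exact ⟨h.y1, h.y2⟩), card_union_of_disjoint h.disj]
    have := h.card
    omega

end SPD
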