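import Pool.Agent.SPD.Defs

/-!
# The constants of the step lemma, explicitly, and the class version of the arborescence theorem
-/

namespace SPD

open Finset AE15
open scoped Classical

/-- the constants of `AE15.step`, explicitly -/
noncomputable def om (b : ℕ) : ℝ := 1 / (6 * (b : ℝ) ^ 2)
noncomputable def cc (b : ℕ) : ℝ := om b / 8
noncomputable def et (b : ℕ) : ℝ := om b / 40
noncomputable def et1 (b : ℕ) : ℝ := cc b * et b / 4
noncomputable def ka0 (b : ℕ) : ℝ := et1 b / 20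
noncomputable def ka1 (b : ℕ) : ℝ := ka0 b ^ 2 / 4
noncomputable def ka (b : ℕ) : ℝ := cc b * ka1 b / 4
noncomputable def sg2 (b : ℕ) : ℝ := ka1 b / 20
noncomputable def mu (b : ℕ) : ℝ := sg2 b / 4

theorem om_pos {b : ℕ} (hb : 1 ≤ b) : 0 < om b := by
  have hb0 : (1 : ℝ) ≤ b := by exact_mod_cast hb
  unfold om
  positivity

theorem om_le {b : ℕ} (hb : 1 ≤ b) : om b ≤ 1 / 6 := by
  have hb0 : (1 : ℝ) ≤ b := by exact_mod_cast hb
  have hb2 : (1 : ℝ) ≤ b ^ 2 := by nlinarith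
  exact one_div_le_one_div_of_le (by norm_num) (by linarith)

theorem cc_pos {b : ℕ} (hb : 1 ≤ b) : 0 < cc b := by
  have := om_pos hb
  unfold cc
  positivity

theorem cc_le {b : ℕ} (hb : 1 ≤ b) : cc b ≤ 1 / 48 := by
  have := om_le hb
  unfold cc
  linarith

theorem et_pos {b : ℕ} (hb : 1 ≤ b) : 0 < et b := by
  have := om_pos hb
  unfold et
  positivity

theorem et_le {b : ℕ} (hb : 1 ≤ b) : et b ≤ 1 / 240 := by
  have := om_le hb
  unfold et
  linarith

theorem et1_pos {b : ℕ} (hb : 1 ≤ b) : 0 < et1 b := by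
  have h1 := cc_pos hb
  have h2 := et_pos hb
  unfold et1
  positivity

theorem et1_le {b : ℕ} (hb : 1 ≤ b) : et1 b ≤ et b / 192 := by
  have h1 := cc_le hb
  have h2 := et_pos hb
  have h3 : cc b * et b ≤ 1 / 48 * et b := mul_le_mul_of_nonneg_right h1 h2.le
  unfold et1
  linarith

theorem ka0_pos {b : ℕ} (hb : 1 ≤ b) : 0 < ka0 b := by
  have := et1_pos hb
  unfold ka0
  positivity

theorem ka0_le {b : ℕ} (hb : 1 ≤ b) : ka0 b ≤ 1 := by
  have h1 := et1_le hb
  have h2 := et_le hb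
  unfold ka0
  linarith

theorem ka1_pos {b : ℕ} (hb : 1 ≤ b) : 0 < ka1 b := by
  have := ka0_pos hb
  unfold ka1
  positivity

theorem ka1_le {b : ℕ} (hb : 1 ≤ b) : ka1 b ≤ ka0 b := by
  have h0 := ka0_pos hb
  have h1 := ka0_le hb
  have h2 : ka0 b ^ 2 ≤ ka0 b * 1 := by
    rw [sq]
    exact mul_le_mul_of_nonneg_left h1 h0.le
  unfold ka1
  linarith

theorem ka_pos {b : ℕ} (hb : 1 ≤ b) : 0 < ka b := by
  have h1 := cc_pos hb
  have h2 := ka1_pos hb
  unfold ka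
  positivity

theorem ka_le {b : ℕ} (hb : 1 ≤ b) : ka b ≤ ka1 b / 192 := by
  have h1 := cc_le hb
  have h2 := ka1_pos hb
  have h3 : cc b * ka1 b ≤ 1 / 48 * ka1 b := mul_le_mul_of_nonneg_right h1 h2.le
  unfold ka
  linarith

theorem sg2_pos {b : ℕ} (hb : 1 ≤ b) : 0 < sg2 b := by
  have := ka1_pos hb
  unfold sg2
  positivity

theorem mu_pos {b : ℕ} (hb : 1 ≤ b) : 0 < mu b := by
  have := sg2_pos hb
  unfold mu
  positivity

/-- all constants for one step with prescribed small `ρ`, `σ` -/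
theorem cst_of (b : ℕ) (hb : 1 ≤ b) {n ρ σ : ℝ} (hρ : 0 < ρ) (hρκ : ρ ≤ ka b / 8) (hσ : 0 < σ)
    (hσρ : σ ≤ ρ * ka b / 32) (hn : 100 ≤ cc b * σ / 4 * n) :
    Cst n (om b) (cc b) (et b) (et1 b) (ka1 b) (ka b) (et1 b / 8) (sg2 b) (mu b) ρ σ (cc b * σ / 4) (cc b * σ / 4) := by
  have h1 := ka1_pos hb
  have h2 := ka1_le hb
  have h3 := ka0_le hb
  have h4 := ka_le hb
  have h5 := et1_pos hb
  have h6 := et1_le hb
  have h7 := et_pos hb
  have h8 := et_le hb
  have h9 := cc_pos hb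
  have e1 : et1 b = cc b * et b / 4 := rfl
  have e2 : ka0 b = et1 b / 20 := rfl
  have e3 : ka b = cc b * ka1 b / 4 := rfl
  have e4 : sg2 b = ka1 b / 20 := rfl
  have e5 : mu b = sg2 b / 4 := rfl
  have hδ : 0 < cc b * σ / 4 := by positivity
  exact {
    hω := om_pos hb
    hω1 := om_le hb
    hc := rfl
    hη := rfl
    hη₁ := h5
    hη₁' := by linarith
    hκ₁ := h1
    hκ₁' := by linarith
    hκ₁η := by linarith
    hκ := ka_pos hb
    hκ' := by linarith
    hσ₂ := sg2_pos hb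
    hσ₂τ := by linarith
    hσ₂κ := by linarith
    hσ₂η := by linarith
    hμ := mu_pos hb
    hμσ := by linarith
    hρ := hρ
    hρμ := by linarith
    hρκ := hρκ
    hσ := hσ
    hσρ := hσρ
    hε := hδ
    hε' := le_rfl
    hδ := hδ
    hδ' := le_rfl
    hn := hn }

/-- the step lemma with the explicit constants -/
theorem step_e (b : ℕ) (hb : 1 ≤ b) : ∃ (n₀ A : ℕ),
    ∀ {V : Type} {R : V → V → Prop}, AE32.Tour R → ∀ (K C K' C' : ℝ), 0 ≤ K → 1 ≤ K' → K ≤ (1 + om b) * K' →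
      0 ≤ C → 0 ≤ C' → ∀ c : Fo, c.len ≤ b → c.Deg b →
        (∀ c' : Fo, c'.len ≤ b → c'.Deg b → c'.size < c.size →
          EE R K C (ka b) (et b) c' ∧ EE R K' C' (ka b) (et b) c') →
        ∀ (X : Finset V) (N : V → Prop), K' * (c.size + 1) + C' ≤ X.card → n₀ ≤ X.card → A * C ≤ X.card →
          Cls R X (ka b) (et b) N → In R c N X := by
  have hb0 : (1 : ℝ) ≤ b := by exact_mod_cast hb
  have hω0 := om_pos hb
  have hκ0 := ka_pos hb
  have hc0 := cc_pos hb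
  obtain ⟨ρ, hρ⟩ : ∃ ρ : ℝ, ρ = ka b / 8 := ⟨_, rfl⟩
  obtain ⟨σ, hσ⟩ : ∃ σ : ℝ, σ = ρ * ka b / 32 := ⟨_, rfl⟩
  obtain ⟨δ, hδ⟩ : ∃ δ : ℝ, δ = cc b * σ / 4 := ⟨_, rfl⟩
  have hρ0 : 0 < ρ := by rw [hρ]; positivity
  have hσ0 : 0 < σ := by rw [hσ]; positivity
  have hδ0 : 0 < δ := by rw [hδ]; positivity
  have hκ1 : ka b ≤ 1 := by
    have h1 := ka_le hb
    have h2 := ka1_le hb
    have h3 := ka0_le hb
    have h4 := ka1_pos hb
    linarith
  have hρ1 : ρ ≤ 1 / 8 := by rw [hρ]; linarith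
  have hρκ : ρ * ka b ≤ ρ * 1 := mul_le_mul_of_nonneg_left hκ1 hρ0.le
  have hσ1 : σ ≤ 1 := by rw [hσ]; linarith
  have hcσ : cc b * σ ≤ 1 / 48 * σ := mul_le_mul_of_nonneg_right (cc_le hb) hσ0.le
  have hδ1 : δ ≤ 1 := by rw [hδ]; linarith
  obtain ⟨M, hM⟩ : ∃ M : ℕ, M = ⌈8 / ka b⌉₊ + 1 := ⟨_, rfl⟩
  obtain ⟨m, hm⟩ : ∃ m : ℕ, m = b + b ^ (M + 1) := ⟨_, rfl⟩
  obtain ⟨n₁, hn₁⟩ := host_items hδ0 hδ1 hc0 m
  obtain ⟨n₂, hn₂⟩ := exists_nat_ge ((100 + (cnt b M : ℝ) + b) / δ)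
  refine ⟨2 * n₁ + n₂, 24 * b ^ 2 * m, ?_⟩
  intro V R hT K C K' C' hK hK' hKK hC hC' c₀ hlen hdeg ih X N hn hn₀ hAC hcls
  have hbig : 100 + (cnt b M : ℝ) + b ≤ δ * X.card := by
    have h1 : (n₂ : ℝ) ≤ X.card := by exact_mod_cast (by omega : n₂ ≤ X.card)
    rw [div_le_iff₀ hδ0] at hn₂
    have h2 : (n₂ : ℝ) * δ ≤ X.card * δ := mul_le_mul_of_nonneg_right h1 hδ0.le
    linarith
  have hcnt0 : (0 : ℝ) ≤ cnt b M := by positivity
  have hP := cst_of b hb (n := (X.card : ℝ)) hρ0 hρ.le hσ0 hσ.le (by rw [← hδ]; linarith)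
  rw [← hδ] at hP
  refine step_aux hT hb hP rfl (ka0_pos hb) (le_of_eq (by unfold ka0; ring)) (ka1_le hb) rfl rfl hM hm hbig
    (by omega) hn₁ hK hC hK' hC' hKK ?_ c₀ hlen hdeg ih N hn hcls
  have h1 : om b * (b : ℝ) ^ 2 = 1 / 6 := by
    unfold om
    field_simp
  push_cast at hAC
  have h2 : om b / 4 * (24 * b ^ 2 * m * C) ≤ om b / 4 * X.card := mul_le_mul_of_nonneg_left hAC (by positivity)
  have h3 : om b / 4 * (24 * b ^ 2 * m * C) = 6 * (om b * b ^ 2) * (m * C) := by ring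
  rw [h3, h1] at h2
  linarith

/-- the class version of the arborescence theorem with slack constant -/
theorem ee_one (b : ℕ) (hb : 1 ≤ b) : ∃ C : ℕ, ∀ {V : Type} {R : V → V → Prop}, AE32.Tour R →
    ∀ c : Fo, c.len ≤ b → c.Deg b → EE R 1 C (ka b) (et b) c := by
  obtain ⟨n₀, A, hst⟩ := step_e b hb
  have hγ := om_pos hb
  have hnext : ∀ K C K' C' : ℝ, 0 ≤ K → 1 ≤ K' → K ≤ (1 + om b) * K' → 0 ≤ C → 0 ≤ C' →
      (∀ {V : Type} {R : V → V → Prop}, AE32.Tour R → ∀ (c : Fo), c.len ≤ b → c.Deg b →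
        ∀ X : Finset V, K' * (c.size + 1) + C' ≤ X.card → (n₀ : ℝ) ≤ X.card ∧ A * C ≤ X.card) →
      (∀ {V : Type} {R : V → V → Prop}, AE32.Tour R → ∀ n : ℕ, (∀ c : Fo, c.len ≤ b → c.Deg b → c.size < n →
        EE R K' C' (ka b) (et b) c) → ∀ c : Fo, c.len ≤ b → c.Deg b → c.size < n → EE R K C (ka b) (et b) c) →
      ∀ {V : Type} {R : V → V → Prop}, AE32.Tour R → ∀ c : Fo, c.len ≤ b → c.Deg b → EE R K' C' (ka b) (et b) c := by
    intro K C K' C' hK hK' hKK hC hC' hsz hprev V R hT c hlen hdeg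
    have key : ∀ n : ℕ, ∀ c : Fo, c.len ≤ b → c.Deg b → c.size = n → EE R K' C' (ka b) (et b) c := by
      intro n
      induction n using Nat.strong_induction_on with
      | _ n ih =>
        intro c hlen hdeg hn X N hX hcls
        have hsz' := hsz hT c hlen hdeg X hX
        refine hst hT K C K' C' hK hK' hKK hC hC' c hlen hdeg ?_ X N hX
          (by exact_mod_cast hsz'.1) hsz'.2 hcls
        have h1 : ∀ c' : Fo, c'.len ≤ b → c'.Deg b → c'.size < c.size → EE R K' C' (ka b) (et b) c' := by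
          intro c' h2 h3 h4
          exact ih c'.size (by omega) c' h2 h3 rfl
        intro c' h2 h3 h4
        exact ⟨hprev hT c.size h1 c' h2 h3 h4, h1 c' h2 h3 h4⟩
    exact key c.size c hlen hdeg rfl
  set K0 : ℝ := max 1 n₀ with hK0
  have hK01 : 1 ≤ K0 := le_max_left _ _
  have hK0n : (n₀ : ℝ) ≤ K0 := le_max_right _ _
  have hall : ∀ i : ℕ, ∃ C : ℝ, 0 ≤ C ∧ ∀ {V : Type} {R : V → V → Prop}, AE32.Tour R →
      ∀ c : Fo, c.len ≤ b → c.Deg b → EE R (max 1 (K0 / (1 + om b) ^ i)) C (ka b) (et b) c := by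
    intro i
    induction i with
    | zero =>
      refine ⟨0, le_rfl, ?_⟩
      have h0 : max 1 (K0 / (1 + om b) ^ 0) = K0 := by
        rw [pow_zero, div_one]
        exact max_eq_right hK01
      rw [h0]
      intro V R hT c hlen hdeg
      refine hnext K0 0 K0 0 (by linarith) hK01 (by nlinarith) le_rfl le_rfl ?_ ?_ hT c hlen hdeg
      · intro V R _ c _ _ X hX
        have h1 : (0 : ℝ) ≤ c.size := by positivity
        constructor
        · nlinarith
        · rw [mul_zero]; positivity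
      · intro V R _ n h c h1 h2 h3
        exact h c h1 h2 h3
    | succ i ih =>
      obtain ⟨C, hC, hE⟩ := ih
      refine ⟨max n₀ (A * C), le_max_of_le_left (by positivity), ?_⟩
      intro V R hT c hlen hdeg
      have hpos : 0 < (1 + om b) ^ i := by positivity
      refine hnext (max 1 (K0 / (1 + om b) ^ i)) C (max 1 (K0 / (1 + om b) ^ (i + 1))) (max n₀ (A * C))
        (le_trans zero_le_one (le_max_left _ _)) (le_max_left _ _) ?_ hC
        (le_max_of_le_left (by positivity)) ?_ ?_ hT c hlen hdeg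
      · apply max_le
        · have := le_max_left (1 : ℝ) (K0 / (1 + om b) ^ (i + 1))
          nlinarith
        · have h1 : K0 / (1 + om b) ^ i = (1 + om b) * (K0 / (1 + om b) ^ (i + 1)) := by
            rw [pow_succ]
            field_simp
          rw [h1]
          exact mul_le_mul_of_nonneg_left (le_max_right _ _) (by linarith)
      · intro V R _ c _ _ X hX
        have h1 : (0 : ℝ) ≤ max 1 (K0 / (1 + om b) ^ (i + 1)) * (c.size + 1) := by
          have : (0 : ℝ) ≤ max 1 (K0 / (1 + om b) ^ (i + 1)) := le_trans zero_le_one (le_max_left _ _)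
          positivity
        have h2 : max (n₀ : ℝ) (A * C) ≤ X.card := by linarith
        exact ⟨(le_max_left _ _).trans h2, (le_max_right _ _).trans h2⟩
      · intro V R hT n _ c h1 h2 _
        exact hE hT c h1 h2
  obtain ⟨i, hi⟩ := pow_unbounded_of_one_lt K0 (show (1 : ℝ) < 1 + om b by linarith)
  obtain ⟨C, hC, hE⟩ := hall i
  have h1 : max 1 (K0 / (1 + om b) ^ i) = 1 := by
    apply max_eq_left
    rw [div_le_one (by positivity)]
    exact hi.le
  rw [h1] at hE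
  refine ⟨⌈C⌉₊, ?_⟩
  intro V R hT c hlen hdeg X N hX hcls
  refine hE hT c hlen hdeg X N ?_ hcls
  have h2 := Nat.le_ceil C
  linarith

end SPD
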