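import Pool.Agent.SPD.Defs
import Pool.Agent.AE15.FinalL

/-!
# The final lemma with a set which is kept

As `AE15.final_lemma`, but a set `D` is kept out of the pieces (up to a bounded set `B` of used vertices), so that only
boundedly many vertices of `D` have to be protected.
-/

namespace SPD

open Finset AE15
open scoped Classical

variable {V : Type} {R : V → V → Prop}

/-- **Final lemma**, version with a kept set `D` -/
theorem final_lemma' (hT : AE32.Tour R) {X : Finset V} {x : V} {κ₁ η₁ τ κ η σ δ ε c : ℝ} (hS : Super R κ₁ η₁ τ X x)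
    (hX : X.Nonempty) (hκ : 0 < κ) (hη : 0 < η) (hκ₁ : 0 < κ₁) (hη₁ : 0 < η₁) (hσ : 0 < σ) (hδ : 0 ≤ δ)
    (hε : 0 < ε) (hc : 0 < c) (h1 : σ ≤ τ) (h2 : 2 * (δ + ε) ≤ c * σ) (h3 : σ ≤ κ₁) (h4 : κ ≤ c * κ₁ / 2)
    (h5 : 2 * η₁ ≤ c * η) (D : Finset V) (J : ℕ) (hJ : (J : ℝ) ≤ σ * X.card) :
    ∃ (𝓕 : Finset (Finset V)) (H : Finset V), 𝓕.card ≤ 6 * X.card ^ 2 ∧ H ⊆ X ∧ (H.card : ℝ) ≤ 2 * σ * X.card ∧
      (∀ h ∈ H, R x h) ∧ (H ∩ D).card ≤ 2 * J ∧ ∀ A Q P B : Finset V, A ⊆ X → (X.card : ℝ) ≤ 2 * A.card → Q ⊆ A →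
        Rep A 𝓕 ε Q → c * A.card ≤ Q.card → P ⊆ X → x ∉ P → Q ⊆ P → B.card ≤ J → Disjoint B H →
        (H ∪ (D ∩ X)) \ B ⊆ P → (((X \ A) \ P).card : ℝ) ≤ δ * X.card → Cls R P κ η (R x) := by
  have hn : (0 : ℝ) < X.card := by exact_mod_cast hX.card_pos
  have hn1 : 1 ≤ X.card := hX.card_pos
  obtain ⟨FF, hF1, hF2, hF3⟩ := exists_family R κ₁ η₁ X
  set j : ℕ := ⌊σ * X.card⌋₊ with hj
  have hj1 : (j : ℝ) ≤ σ * X.card := Nat.floor_le (by positivity)
  have hj2 : σ * X.card < j + 1 := Nat.lt_floor_add_one _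
  set dm : V → Finset V := fun u => dom R κ₁ η₁ X x u with hdm
  set Low := (nI R X x).filter (fun u => (dm u).card ≤ j ∧ ¬ (dm u ⊆ D ∧ J < (dm u).card)) with hLow
  have hLow1 : Low.card ≤ 2 * j := by
    refine le_trans (card_le_card ?_) (hS.2 j (hj1.trans (mul_le_mul_of_nonneg_right h1 hn.le)))
    intro u hu
    rw [hLow, mem_filter] at hu
    rw [mem_filter]
    exact ⟨hu.1, hu.2.1⟩
  have hne : ∀ u : V, u ∈ X → R u x → (dm u).Nonempty :=
    fun u hu hux => hS.dom_nonempty (hσ.le.trans h1) hu hux
  set d : V → V := fun u => if h : (dm u \ D).Nonempty then h.choose else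
    (if h' : (dm u).Nonempty then h'.choose else u) with hd
  have hd1 : ∀ u : V, (dm u).Nonempty → d u ∈ dm u := by
    intro u hu
    by_cases h : (dm u \ D).Nonempty
    · have h' : d u = h.choose := by
        rw [hd]
        simp only [h, dif_pos]
      rw [h']
      exact (mem_sdiff.1 h.choose_spec).1
    · have h' : d u = hu.choose := by
        rw [hd]
        simp only [h, hu, dif_pos, dif_neg, not_false_iff]
      rw [h']
      exact hu.choose_spec
  have hd2 : ∀ u : V, d u ∈ D → d u ∈ dm u → dm u ⊆ D := by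
    intro u hu hu2
    by_contra hcon
    have h : (dm u \ D).Nonempty := by
      rw [sdiff_nonempty]
      exact hcon
    have h' : d u = h.choose := by
      rw [hd]
      simp only [h, dif_pos]
    rw [h'] at hu
    exact (mem_sdiff.1 h.choose_spec).2 hu
  have hLow2 : ∀ u ∈ Low, d u ∈ dm u := by
    intro u hu
    rw [hLow, mem_filter, mem_nI] at hu
    exact hd1 u (hne u hu.1.1 hu.1.2)
  refine ⟨FF ∪ X.image dm, Low.image d, ?_, ?_, ?_, ?_, ?_, ?_⟩
  · have h6 : (FF ∪ X.image dm).card ≤ X.card * (X.card + 1) + X.card :=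
      (card_union_le _ _).trans (add_le_add hF1 card_image_le)
    nlinarith
  · intro w hw
    obtain ⟨u, hu, rfl⟩ := mem_image.1 hw
    exact (mem_dom.1 (hLow2 u hu)).1
  · have h6 : ((Low.image d).card : ℝ) ≤ 2 * j := by
      exact_mod_cast (card_image_le (s := Low) (f := d)).trans hLow1
    linarith
  · intro w hw
    obtain ⟨u, hu, rfl⟩ := mem_image.1 hw
    exact (mem_dom.1 (hLow2 u hu)).2.1
  · have h6 : Low.image d ∩ D ⊆ ((nI R X x).filter (fun u => (dm u).card ≤ J)).image d := by
      intro w hw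
      rw [mem_inter, mem_image] at hw
      obtain ⟨⟨u, hu, rfl⟩, hwD⟩ := hw
      have h7 := hd2 u hwD (hLow2 u hu)
      rw [hLow, mem_filter] at hu
      rw [mem_image]
      refine ⟨u, ?_, rfl⟩
      rw [mem_filter]
      refine ⟨hu.1, ?_⟩
      by_contra hcon
      exact hu.2.2 ⟨h7, by omega⟩
    refine (card_le_card h6).trans (card_image_le.trans ?_)
    exact hS.2 J (hJ.trans (mul_le_mul_of_nonneg_right h1 hn.le))
  · intro A Q P B hA hXA hQ hRep hcQ hP hxP hQP hBJ hBH hHP hdel
    have hA0 : A.Nonempty := by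
      rw [← card_pos]
      have : (0 : ℝ) < A.card := by linarith
      exact_mod_cast this
    have hPX : (P.card : ℝ) ≤ X.card := by exact_mod_cast card_le_card hP
    have hQP' : (Q.card : ℝ) ≤ P.card := by exact_mod_cast card_le_card hQP
    have key : ∀ F ∈ FF ∪ X.image dm, F ⊆ X → c * F.card - c * σ / 2 * X.card ≤ ((F ∩ P).card : ℝ) := by
      intro F hF hFX
      have h6 := meet_bound hε hc hA hA0 hQ hRep hcQ hQP hdel hF hFX
      have h7 : (δ + ε) * X.card ≤ c * σ / 2 * X.card := mul_le_mul_of_nonneg_right (by linarith) hn.le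
      linarith
    -- goodness in `P`
    have hgood : ∀ w ∈ X, Good R κ₁ η₁ X w → Good R κ η P w := by
      apply hF3 P hP κ η
      · intro F hF hFc
        have h6 := key F (mem_union_left _ hF) (hF2 F hF)
        have h7 : c * (κ₁ * X.card) ≤ c * F.card := mul_le_mul_of_nonneg_left hFc hc.le
        have h8 : c * σ / 2 * X.card ≤ c * κ₁ / 2 * X.card := by
          apply mul_le_mul_of_nonneg_right _ hn.le
          have := mul_le_mul_of_nonneg_left h3 hc.le
          linarith
        have h9 : κ * P.card ≤ κ * X.card := mul_le_mul_of_nonneg_left hPX hκ.le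
        have h10 : κ * X.card ≤ c * κ₁ / 2 * X.card := mul_le_mul_of_nonneg_right h4 hn.le
        linarith
      · intro F hF hFc
        have h6 : ((F ∩ P).card : ℝ) ≤ F.card := by exact_mod_cast card_le_card inter_subset_left
        have h7 : η₁ * X.card ≤ c * η / 2 * X.card := mul_le_mul_of_nonneg_right (by linarith) hn.le
        have h8 : c * η / 2 * X.card ≤ c * η / 2 * (2 * A.card) := mul_le_mul_of_nonneg_left hXA (by positivity)
        have h9 : η * (c * A.card) ≤ η * P.card := mul_le_mul_of_nonneg_left (hcQ.trans hQP') hη.le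
        linarith
    intro u hu
    by_cases hxu : R x u
    · exact Or.inl hxu
    · right
      have hne' : x ≠ u := fun e => hxP (e ▸ hu)
      have hux : R u x := (hT.tot x u hne').resolve_left hxu
      have huX : u ∈ X := hP hu
      have : ∃ w ∈ dm u, w ∈ P := by
        by_cases huL : u ∈ Low
        · refine ⟨d u, hLow2 u huL, hHP ?_⟩
          have h6 : d u ∈ Low.image d := mem_image_of_mem _ huL
          rw [mem_sdiff, mem_union]
          exact ⟨Or.inl h6, fun h7 => disjoint_left.1 hBH h7 h6⟩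
        · have h60 : ¬ ((dm u).card ≤ j ∧ ¬ (dm u ⊆ D ∧ J < (dm u).card)) := by
            intro hcon
            apply huL
            rw [hLow, mem_filter, mem_nI]
            exact ⟨⟨huX, hux⟩, hcon⟩
          by_cases h61 : (dm u).card ≤ j
          · have h62 : dm u ⊆ D ∧ J < (dm u).card := by
              by_contra hcon
              exact h60 ⟨h61, hcon⟩
            have h63 : (dm u \ B).Nonempty := by
              rw [← card_pos]
              have := le_card_sdiff B (dm u)
              omega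
            obtain ⟨w, hw⟩ := h63
            rw [mem_sdiff] at hw
            refine ⟨w, hw.1, hHP ?_⟩
            rw [mem_sdiff, mem_union, mem_inter]
            exact ⟨Or.inr ⟨h62.1 hw.1, (mem_dom.1 hw.1).1⟩, hw.2⟩
          · have h6 : j + 1 ≤ (dm u).card := by omega
            have h7 := key (dm u) (mem_union_right _ (mem_image_of_mem _ huX)) (filter_subset _ _)
            have h8 : ((j : ℝ) + 1) ≤ (dm u).card := by exact_mod_cast h6
            have h9 : c * (σ * X.card) ≤ c * (dm u).card :=
              mul_le_mul_of_nonneg_left (hj2.le.trans h8) hc.le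
            have h10 : (0 : ℝ) < (dm u ∩ P).card := by
              have : 0 < c * σ / 2 * X.card := by positivity
              linarith
            have h11 : (dm u ∩ P).Nonempty := by
              rw [← card_pos]
              exact_mod_cast h10
            obtain ⟨w, hw⟩ := h11
            rw [mem_inter] at hw
            exact ⟨w, hw.1, hw.2⟩
      obtain ⟨w, hw, hwP⟩ := this
      rw [hdm] at hw
      rw [mem_dom] at hw
      exact ⟨w, hwP, hw.2.1, hw.2.2.1, hgood w hw.1 hw.2.2.2⟩

end SPD
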