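import Pool.Agent.SPD.Defs

/-!
# Assembly of one side of the two-sided step (variant of `AE15.core`: the placed set need not lie in `X`, a set `D` is
kept out of the pieces)
-/

namespace SPD

open Finset AE15
open scoped Classical

variable {V : Type} {R : V → V → Prop}

theorem core' (hT : AE32.Tour R) {X H D Ks Z Za : Finset V} {x : V} {ω c η η₁ κ₁ κ τ σ₂ μ ρ σ ε δ : ℝ} {J : ℕ}
    (P : Cst X.card ω c η η₁ κ₁ κ τ σ₂ μ ρ σ ε δ) (hS : Super R κ₁ η₁ τ X x)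
    {𝓕x : Finset (Finset V)} (h𝓕x : 𝓕x.card ≤ 6 * X.card ^ 2) (hHX : H ⊆ X) (hHc : (H.card : ℝ) ≤ 2 * σ * X.card)
    (hfin : ∀ A Q P B : Finset V, A ⊆ X → (X.card : ℝ) ≤ 2 * A.card → Q ⊆ A → Rep A 𝓕x ε Q → c * A.card ≤ Q.card →
        P ⊆ X → x ∉ P → Q ⊆ P → B.card ≤ J → Disjoint B H → (H ∪ (D ∩ X)) \ B ⊆ P →
        (((X \ A) \ P).card : ℝ) ≤ δ * X.card → Cls R P κ η (R x))
    (hD : (D.card : ℝ) ≤ μ / 4 * X.card)
    (hKX : Ks ⊆ X) (hKh : ∀ y ∈ Ks, ∃ Y ⊆ X, ((X \ Y).card : ℝ) ≤ 2 * η * X.card ∧ Super R κ₁ η₁ τ Y y)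
    (hKc : (Ks.card : ℝ) ≤ ρ * X.card + 2)
    {F : Fo} {N : V → Prop} {L Lh : List (Item V)} {cf : Fo} (hPE : PE R F N Z L) (hZa : Z ⊆ Za) (hZaJ : Za.card ≤ J)
    (hZaH : Disjoint Za H) (hxZ : x ∈ Za) (hZc : (Za.card : ℝ) ≤ δ * X.card)
    (hL : L.Perm ((R x, cf) :: Lh)) (hLh : ∀ p ∈ Lh, ∃ y, (y = x ∨ y ∈ Ks) ∧ p.1 = R y)
    {m : ℕ} (hlen : Lh.length ≤ m)
    {n₁ : ℕ} (hn₁ : 2 * n₁ ≤ X.card) (hhost : ∀ (A : Finset V) (𝓕 : Finset (Finset V)), n₁ ≤ A.card →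
      𝓕.card ≤ A.card ^ 5 →
      ∀ (κ η K C : ℝ), 0 ≤ K → 0 ≤ C → 0 < η → 10 * η ≤ 1 → ∀ L : List (Item V), L.length ≤ m →
        (∀ p ∈ L, Ok R A 𝓕 ε κ η p.1) → (∀ p ∈ L, EE R K C κ η p.2) →
        (K * isz L + m * C) / (1 - 5 * η) ≤ (1 - 2 * c) * A.card →
        ∃ S Q : Finset V, S ⊆ A ∧ Q ⊆ A ∧ Disjoint S Q ∧ EmbX R L S ∧ c * A.card ≤ Q.card ∧ Rep A 𝓕 ε Q)
    {K C K' C' : ℝ} (hK : 0 ≤ K) (hC : 0 ≤ C) (hK' : 1 ≤ K') (hC' : 0 ≤ C') (hKK : K ≤ (1 + ω) * K')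
    (hmC : m * C ≤ ω / 4 * X.card)
    (hEE : ∀ p ∈ Lh, EE R K C κ η p.2) (hEf : EE R K' C' κ η cf) (hbig : 2 * ω * F.size ≤ cf.size + 1)
    (hn : K' * F.size + C' + Za.card ≤ X.card) :
    ∃ S ⊆ X \ Za, Emb R F N (Z ∪ S) := by
  obtain ⟨n, hnd⟩ : ∃ n : ℝ, n = (X.card : ℝ) := ⟨_, rfl⟩
  rw [← hnd] at P hHc hKc hZc hmC hn hD
  obtain ⟨hc0, hη0, hc1, hη1, hn0, hκ1, hκκ, hηη, hρ1, hσρ', hσμ, hδσ, hεσ, hμω, hn40⟩ := P.num
  obtain ⟨hω, hω1, hc, hη, hη₁, hη₁', hκ₁, hκ₁', hκ₁η, hκ, hκ', hσ₂, hσ₂τ, hσ₂κ, hσ₂η, hμ, hμσ, hρ, hρμ, hρκ, hσ,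
    hσρ, hε, hε', hδ, hδ', hn100⟩ := P
  -- the set `A`
  set A := X \ (Ks ∪ Za ∪ H ∪ D) with hA
  have hAX : A ⊆ X := sdiff_subset
  have hXA : ((X \ A).card : ℝ) ≤ μ * n := by
    have h1 : X \ A ⊆ Ks ∪ Za ∪ H ∪ D := by
      intro w hw
      rw [hA, mem_sdiff, mem_sdiff] at hw
      by_contra hc
      exact hw.2 ⟨hw.1, hc⟩
    have h2 : ((X \ A).card : ℝ) ≤ Ks.card + Za.card + H.card + D.card := by
      have h3 := (card_le_card h1).trans ((card_union_le _ _).trans (Nat.add_le_add_right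
        ((card_union_le _ _).trans (Nat.add_le_add_right (card_union_le _ _) _)) _))
      exact_mod_cast h3
    have h4 : σ * n ≤ μ / 128 * n := mul_le_mul_of_nonneg_right hσμ hn0.le
    have h5 : δ * n ≤ σ / 4 * n := mul_le_mul_of_nonneg_right hδσ hn0.le
    have h6 : ρ * n ≤ μ / 4 * n := mul_le_mul_of_nonneg_right (by linarith) hn0.le
    have h7 : 0 < μ * n := by positivity
    linarith
  have hAc : (1 - μ) * n ≤ A.card := by
    have h1 : X.card = A.card + (X \ A).card := by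
      have := card_sdiff_add_card_eq_card hAX
      omega
    have h2 : n = A.card + (X \ A).card := by rw [hnd]; exact_mod_cast h1
    linarith
  have hμ1 : μ ≤ 1 / 2 := by linarith
  have hA2 : n ≤ 2 * A.card := by
    have : μ * n ≤ 1 / 2 * n := mul_le_mul_of_nonneg_right hμ1 hn0.le
    linarith
  -- the families
  have hfam : ∀ y : V, ∃ 𝓕 : Finset (Finset V), 𝓕.card ≤ 6 * X.card ^ 2 ∧ ((y = x ∨ y ∈ Ks) → Ok R A 𝓕 ε κ η (R y)) := by
    intro y
    have key : ∀ Y ⊆ X, ((X \ Y).card : ℝ) ≤ 2 * η * X.card → Super R κ₁ η₁ τ Y y → y ∉ A →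
        ∃ 𝓕 : Finset (Finset V), 𝓕.card ≤ 6 * X.card ^ 2 ∧ Ok R A 𝓕 ε κ η (R y) := by
      intro Y hY hXY hSY hyA
      obtain ⟨𝓕, h1, h2⟩ := piece_lemma hT (σ₂ := σ₂) (μ := μ) (ε := ε) (κ := κ) hY hXY hSY hκ hη0 (by linarith) hκ₁ hκ₁'
        hη₁ hσ₂ hμ hε (by linarith) (by linarith) (by linarith) (by linarith) (by
          rw [← hnd]
          have h5 : δ * n ≤ σ₂ * n := mul_le_mul_of_nonneg_right (by linarith) hn0.le
          linarith) hκκ hσ₂κ (by linarith) (by linarith)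
      exact ⟨𝓕, h1, h2 A hAX hyA (by rw [← hnd]; exact hXA)⟩
    by_cases hy : y = x ∨ y ∈ Ks
    · rcases hy with rfl | hy
      · obtain ⟨𝓕, h1, h2⟩ := key X (Subset.refl _) (by
          rw [sdiff_self, bot_eq_empty, card_empty, Nat.cast_zero]
          positivity) hS (by
            rw [hA, mem_sdiff, not_and, not_not]
            intro _
            simp [hxZ])
        exact ⟨𝓕, h1, fun _ => h2⟩
      · obtain ⟨Y, h1, h2, h3⟩ := hKh y hy
        obtain ⟨𝓕, h4, h5⟩ := key Y h1 h2 h3 (by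
          rw [hA, mem_sdiff, not_and, not_not]
          intro _
          simp [hy])
        exact ⟨𝓕, h4, fun _ => h5⟩
    · exact ⟨∅, by simp, fun h => absurd h hy⟩
  choose Fam hFam1 hFam2 using hfam
  set 𝓕 := 𝓕x ∪ (insert x Ks).biUnion Fam with h𝓕
  have h𝓕c : 𝓕.card ≤ A.card ^ 5 := by
    have h1 : 𝓕.card ≤ 6 * X.card ^ 2 + (Ks.card + 1) * (6 * X.card ^ 2) := by
      refine (card_union_le _ _).trans (Nat.add_le_add h𝓕x ?_)
      refine (card_biUnion_le_card_mul _ _ _ (fun y _ => hFam1 y)).trans ?_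
      exact Nat.mul_le_mul_right _ (card_insert_le _ _)
    have h2 : Ks.card ≤ X.card := card_le_card hKX
    have h3 : (𝓕.card : ℝ) ≤ 6 * n ^ 2 + (n + 1) * (6 * n ^ 2) := by
      have h4 : (𝓕.card : ℝ) ≤ 6 * n ^ 2 + (Ks.card + 1) * (6 * n ^ 2) := by
        rw [hnd]; exact_mod_cast h1
      have h5 : (Ks.card : ℝ) ≤ n := by rw [hnd]; exact_mod_cast h2
      have h6 : (Ks.card + 1 : ℝ) * (6 * n ^ 2) ≤ (n + 1) * (6 * n ^ 2) :=
        mul_le_mul_of_nonneg_right (by linarith) (by positivity)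
      linarith
    have h7 : (n / 2) ^ 5 ≤ (A.card : ℝ) ^ 5 := pow_le_pow_left₀ (by positivity) (by linarith) 5
    have h8 : 6 * n ^ 2 + (n + 1) * (6 * n ^ 2) ≤ (n / 2) ^ 5 := by
      have h9 : 6 * n ^ 2 + (n + 1) * (6 * n ^ 2) = n ^ 2 * (6 * n + 12) := by ring
      have h10 : (n / 2) ^ 5 = n ^ 2 * (n * (n * n / 32)) := by ring
      have h11 : 40 * 40 ≤ n * n := mul_le_mul hn40 hn40 (by norm_num) hn0.le
      have h12 : n * 12 ≤ n * (n * n / 32) := mul_le_mul_of_nonneg_left (by linarith) hn0.le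
      rw [h9, h10]
      exact mul_le_mul_of_nonneg_left (by linarith) (by positivity)
    exact_mod_cast h3.trans (h8.trans h7)
  -- sizes
  have hsz : F.size = Z.card + (cf.size + 1 + isz Lh) := by
    rw [hPE.size]
    congr 1
    unfold isz
    rw [(hL.map _).sum_eq]
    simp
  obtain ⟨t, ht⟩ : ∃ t : ℝ, t = (F.size : ℝ) := ⟨_, rfl⟩
  obtain ⟨tf, htf⟩ : ∃ tf : ℝ, tf = (cf.size : ℝ) + 1 := ⟨_, rfl⟩
  have hsz' : t = Z.card + tf + isz Lh := by
    rw [ht, htf, hsz]; push_cast; ring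
  rw [← ht, ← htf] at hbig
  rw [← ht] at hn
  have ht0 : 0 ≤ t := by rw [ht]; positivity
  have hZ0 : (0 : ℝ) ≤ Z.card := by positivity
  have hi0 : (0 : ℝ) ≤ isz Lh := by positivity
  have hsum : (K * isz Lh + m * C) / (1 - 5 * η) ≤ (1 - 2 * c) * A.card := by
    have h1 : K * isz Lh ≤ (1 - ω) * n := by
      have h2 : (isz Lh : ℝ) ≤ (1 - 2 * ω) * t := by linarith
      have h3 : K * isz Lh ≤ (1 + ω) * K' * ((1 - 2 * ω) * t) := by
        refine (mul_le_mul_of_nonneg_right hKK hi0).trans (mul_le_mul_of_nonneg_left h2 (by positivity))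
      have h4 : K' * t ≤ n := by linarith
      have h5 : (1 + ω) * K' * ((1 - 2 * ω) * t) = ((1 + ω) * (1 - 2 * ω)) * (K' * t) := by ring
      have h6 : (1 + ω) * (1 - 2 * ω) ≤ 1 - ω := by
        have : 0 < ω * ω := by positivity
        linarith
      have h7 : 0 ≤ K' * t := by positivity
      calc K * isz Lh ≤ ((1 + ω) * (1 - 2 * ω)) * (K' * t) := by rw [← h5]; exact h3
        _ ≤ (1 - ω) * (K' * t) := mul_le_mul_of_nonneg_right h6 h7
        _ ≤ (1 - ω) * n := mul_le_mul_of_nonneg_left h4 (by linarith)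
    rw [div_le_iff₀ (by linarith)]
    have h2 : (1 - ω / 16) * n ≤ A.card := by
      refine le_trans (mul_le_mul_of_nonneg_right ?_ hn0.le) hAc
      linarith
    have h3 : (1 - 2 * c) * ((1 - ω / 16) * n) * (1 - 5 * η) ≤ (1 - 2 * c) * A.card * (1 - 5 * η) := by
      refine mul_le_mul_of_nonneg_right (mul_le_mul_of_nonneg_left h2 ?_) ?_ <;> linarith
    refine le_trans ?_ h3
    rw [hc, hη]
    have h4 : (1 - 3 * ω / 4) ≤ (1 - 2 * (ω / 8)) * (1 - ω / 16) * (1 - 5 * (ω / 40)) := by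
      have h41 : 0 < ω * ω := by positivity
      have h42 : ω * ω * ω ≤ ω * ω * 1 := mul_le_mul_of_nonneg_left (by linarith) h41.le
      have h43 : (1 - 2 * (ω / 8)) * (1 - ω / 16) * (1 - 5 * (ω / 40)) =
          1 - 7 * ω / 16 + 7 * (ω * ω) / 128 - ω * ω * ω / 512 := by ring
      rw [h43]
      linarith
    have h5 := mul_le_mul_of_nonneg_right h4 hn0.le
    linarith
  obtain ⟨S, Q, hSA, hQA, hSQ, hSE, hQc, hQr⟩ := hhost A 𝓕 (by
      have h1 : 2 * (n₁ : ℝ) ≤ n := by rw [hnd]; exact_mod_cast hn₁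
      have h2 : (n₁ : ℝ) ≤ A.card := by linarith
      exact_mod_cast h2) h𝓕c κ η K C hK hC hη0 (by linarith) Lh hlen (by
      intro p hp
      obtain ⟨y, hy, h1⟩ := hLh p hp
      rw [h1]
      refine (hFam2 y hy).mono ?_
      rw [h𝓕]
      refine Subset.trans ?_ subset_union_right
      apply subset_biUnion_of_mem
      rw [mem_insert]
      exact hy) hEE hsum
  -- the final piece
  have hZA : Disjoint Za A := by
    rw [hA, disjoint_left]
    intro w h1 h2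
    rw [mem_sdiff, mem_union, mem_union, mem_union] at h2
    exact h2.2 (Or.inl (Or.inl (Or.inr h1)))
  have hHA : Disjoint H A := by
    rw [hA, disjoint_left]
    intro w h1 h2
    rw [mem_sdiff, mem_union, mem_union] at h2
    exact h2.2 (Or.inl (Or.inr h1))
  have hDA : Disjoint D A := by
    rw [hA, disjoint_left]
    intro w h1 h2
    rw [mem_sdiff, mem_union] at h2
    exact h2.2 (Or.inr h1)
  have hZS : Disjoint Za S := hZA.mono_right hSA
  set P₀ := X \ (Za ∪ S) with hP₀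
  have hcls : Cls R P₀ κ η (R x) := by
    refine hfin A Q P₀ Za hAX (by rw [← hnd]; exact hA2) hQA (hQr.mono (by rw [h𝓕]; exact subset_union_left)) hQc
      sdiff_subset ?_ ?_ hZaJ hZaH ?_ ?_
    · rw [hP₀, mem_sdiff, mem_union]
      tauto
    · intro w hw
      rw [hP₀, mem_sdiff, mem_union, not_or]
      exact ⟨hAX (hQA hw), fun h => disjoint_left.1 hZA h (hQA hw), fun h => disjoint_left.1 hSQ h hw⟩
    · intro w hw
      rw [mem_sdiff, mem_union, mem_inter] at hw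
      rw [hP₀, mem_sdiff, mem_union, not_or]
      rcases hw.1 with h | h
      · exact ⟨hHX h, hw.2, fun h' => disjoint_left.1 hHA h (hSA h')⟩
      · exact ⟨h.2, hw.2, fun h' => disjoint_left.1 hDA h.1 (hSA h')⟩
    · rw [← hnd]
      refine le_trans ?_ hZc
      have : (X \ A) \ P₀ ⊆ Za := by
        intro w hw
        rw [mem_sdiff, mem_sdiff] at hw
        by_contra hc
        refine hw.2 ?_
        rw [hP₀, mem_sdiff, mem_union]
        exact ⟨hw.1.1, fun h => h.elim hc (fun h => hw.1.2 (hSA h))⟩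
      exact_mod_cast card_le_card this
  have hSc : S.card = isz Lh := hSE.card
  have hPc : n - Za.card - isz Lh ≤ P₀.card := by
    have h1 : X.card ≤ P₀.card + (Za ∪ S).card := by
      rw [hP₀]
      refine (card_le_card (s := X) (t := (X \ (Za ∪ S)) ∪ (Za ∪ S)) ?_).trans (card_union_le _ _)
      intro w hw
      rw [mem_union, mem_sdiff]
      tauto
    have h3 := card_union_le Za S
    rw [hSc] at h3
    have h2 : n ≤ (P₀.card : ℝ) + (Za.card + isz Lh) := by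
      rw [hnd]
      exact_mod_cast h1.trans (Nat.add_le_add_left h3 _)
    linarith
  obtain ⟨Sf, hSf, hSfE⟩ := hEf P₀ (R x) (by
    rw [← htf]
    have h1 : 0 ≤ (K' - 1) * (t - tf) := mul_nonneg (by linarith) (by linarith)
    have h2 : K' * tf ≤ K' * t - t + tf := by linarith
    have h3 : t - tf = Z.card + isz Lh := by linarith
    linarith) hcls
  have hZSf : Disjoint Za Sf := by
    rw [disjoint_left]
    intro w h1 h2
    have := hSf h2
    rw [hP₀, mem_sdiff, mem_union] at this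
    exact this.2 (Or.inl h1)
  have hSSf : Disjoint Sf S := by
    rw [disjoint_left]
    intro w h2 h1
    have := hSf h2
    rw [hP₀, mem_sdiff, mem_union] at this
    exact this.2 (Or.inr h1)
  have hX1 : EmbX R L (Sf ∪ S) := EmbX.perm hL.symm ⟨Sf, S, hSSf, rfl, hSfE, hSE⟩
  refine ⟨Sf ∪ S, ?_, hPE.complete _ ?_ hX1⟩
  · intro w hw
    rw [mem_union] at hw
    rw [mem_sdiff]
    rcases hw with h | h
    · exact ⟨sdiff_subset (hSf h), fun h' => disjoint_left.1 hZSf h' h⟩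
    · exact ⟨hAX (hSA h), fun h' => disjoint_left.1 hZS h' h⟩
  · exact (disjoint_union_right.2 ⟨hZSf, hZS⟩).mono_left hZa

end SPD
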