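import Pool.Agent.SPD.Defs

/-!
# One side of the top step: the hosts and the placing of the top part
-/

namespace SPD

open Finset AE15
open scoped Classical

section place

variable {V : Type} {R : V → V → Prop}

theorem side_hosts (hT : AE32.Tour R) {U P : Finset V} {y x : V} {κc t ξ η κ₀ η₁ ρ : ℝ} (h0 : 0 < κ₀) (hκ : 20 * κ₀ ≤ η₁)
    (hη₁ : η₁ ≤ 1) (hκc : 0 < κc) (hκc1 : κc ≤ 1) (hξ : 0 < ξ) (hξ1 : ξ ≤ 1) (hPU : P ⊆ U) (hyU : y ∈ U) (hyP : y ∉ P)
    (hxP : x ∈ P) (hξU : ξ * U.card ≤ P.card) (hSd : Sd R U P (κc * U.card) t y) (ht : 2 * t ≤ η * P.card)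
    (hη : η ≤ 1 / 8) (hρ0 : 0 < ρ) (hρ : 2 * ρ ≤ η) (hρκ : ρ ≤ κc / 8) (hn : 2 ≤ ρ * P.card) (hn' : 8 ≤ κ₀ * P.card) :
    ∃ (w : V) (Ks : Finset V), w ∈ U ∧ ((w = y ∧ R y x) ∨ (w ∈ P ∧ R y w ∧ R w x)) ∧ Ks ⊆ P ∧
      (∀ z ∈ Ks, ∃ Y ⊆ P, ((P \ Y).card : ℝ) ≤ 2 * η * P.card ∧ Super R (κ₀ ^ 2 / 4) η₁ (η₁ / 8) Y z) ∧
      (Ks.card : ℝ) ≤ ρ * P.card + 2 ∧
      y ∈ Lv R U Ks (ρ * ξ * κc / 4 * U.card) (⌈8 / κc⌉₊ + 1) ∧
      w ∈ Lv R U Ks (ρ * ξ * κc / 4 * U.card) (⌈8 / κc⌉₊ + 1) := by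
  have hn0 : (0 : ℝ) ≤ P.card := by positivity
  have hU0 : (0 : ℝ) ≤ U.card := by positivity
  -- the vertex `w`, reaching almost all of `P`
  obtain ⟨⟨W₁, hW₁, hW₁t⟩, hdom⟩ := hSd
  have ht0 : 0 ≤ t := le_trans (by positivity) hW₁t
  obtain ⟨w, W₂, hwU, hwx, hW₂, hW₂t⟩ : ∃ (w : V) (W₂ : Finset V), w ∈ U ∧
      ((w = y ∧ R y x) ∨ (w ∈ P ∧ R y w ∧ R w x)) ∧ Rch R U (κc * U.card) w W₂ ∧ ((P \ W₂).card : ℝ) ≤ t := by
    rcases hdom x hxP with h | ⟨w, h1, h2, h3, W₂, h4, h5⟩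
    · exact ⟨y, W₁, hyU, Or.inl ⟨rfl, h⟩, hW₁, hW₁t⟩
    · exact ⟨w, W₂, hPU h1, Or.inr ⟨h1, h2, h3⟩, h4, h5⟩
  obtain ⟨W, hWd⟩ : ∃ W : Finset V, W = P ∩ (W₁ ∩ W₂) := ⟨_, rfl⟩
  have hWP : W ⊆ P := by rw [hWd]; exact inter_subset_left
  have hWc : ((P \ W).card : ℝ) ≤ η * P.card := by
    have h1 : P \ W ⊆ (P \ W₁) ∪ (P \ W₂) := by
      intro v hv
      rw [hWd, mem_sdiff, mem_inter, mem_inter] at hv
      rw [mem_union, mem_sdiff, mem_sdiff]
      tauto
    have h2 : ((P \ W).card : ℝ) ≤ (P \ W₁).card + (P \ W₂).card := by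
      exact_mod_cast (card_le_card h1).trans (card_union_le _ _)
    linarith
  obtain ⟨Ks, hKsW, hKs1, hKs2, hKs3⟩ := exists_hosts hT (η := η) h0 hκ hη₁ hWP hWc hη hρ0 hρ hn hn'
  have hρξ : ρ * ξ ≤ ρ * 1 := mul_le_mul_of_nonneg_left hξ1 hρ0.le
  have hKsc : ρ * ξ * U.card ≤ Ks.card := by
    have h1 : ρ * (ξ * U.card) ≤ ρ * P.card := mul_le_mul_of_nonneg_left hξU hρ0.le
    have h2 : ρ * ξ * U.card = ρ * (ξ * U.card) := by ring
    linarith
  refine ⟨w, Ks, hwU, hwx, hKsW.trans hWP, hKs1, hKs2, ?_, ?_⟩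
  · refine levels hT hκc hκc1 (by positivity) (by linarith) hW₁ hyU (fun v hv => ?_) hKsc
    have h1 := hKsW hv
    rw [hWd, mem_inter, mem_inter] at h1
    exact h1.2.1
  · refine levels hT hκc hκc1 (by positivity) (by linarith) hW₂ hwU (fun v hv => ?_) hKsc
    have h1 := hKsW hv
    rw [hWd, mem_inter, mem_inter] at h1
    exact h1.2.2

/-- reordering the trees of a partial embedding -/
theorem PE_perm {l l' : List Fo} (h : l.Perm l') {N : V → Prop} : ∀ {Z : Finset V} {L : List (Item V)},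
    PE R (Fo.ofList l) N Z L → ∃ L', L'.Perm L ∧ PE R (Fo.ofList l') N Z L' := by
  induction h with
  | nil => exact fun {Z L} h => ⟨L, List.Perm.refl _, h⟩
  | cons a _ ih =>
    intro Z L h
    cases h with
    | pend _ _ _ _ L h =>
      obtain ⟨L', h1, h2⟩ := ih h
      exact ⟨(N, a) :: L', h1.cons _, PE.pend _ _ _ _ _ h2⟩
    | place _ _ _ x A B L₁ L₂ h1 h2 h3 h4 h5 h6 =>
      obtain ⟨L', h7, h8⟩ := ih h6
      exact ⟨L₁ ++ L', h7.append_left _, PE.place _ _ _ x A B L₁ L' h1 h2 h3 h4 h5 h8⟩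
  | swap a b l =>
    intro Z L h
    cases h with
    | pend _ _ _ _ L h =>
      cases h with
      | pend _ _ _ _ L h => exact ⟨_, List.Perm.swap _ _ _, PE.pend _ _ _ _ _ (PE.pend _ _ _ _ _ h)⟩
      | place _ _ _ x A B L₁ L₂ h1 h2 h3 h4 h5 h6 =>
        exact ⟨_, (List.perm_middle (a := (N, b)) (l₁ := L₁) (l₂ := L₂)),
          PE.place _ _ _ x A B L₁ ((N, b) :: L₂) h1 h2 h3 h4 h5 (PE.pend _ _ _ _ _ h6)⟩
    | place _ _ _ x A B L₁ L₂ h1 h2 h3 h4 h5 h6 =>
      cases h6 with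
      | pend _ _ _ _ L h =>
        exact ⟨_, (List.perm_middle (a := (N, a)) (l₁ := L₁) (l₂ := L)).symm,
          PE.pend _ _ _ _ _ (PE.place _ _ _ x A B L₁ L h1 h2 h3 h4 h5 h)⟩
      | place _ _ _ x' A' B' L₁' L₂' h1' h2' h3' h4' h5' h6' =>
        rw [mem_insert, mem_union, not_or, not_or] at h3
        rw [disjoint_insert_right, disjoint_union_right] at h4
        obtain ⟨h3a, h3b, h3c⟩ := h3
        obtain ⟨h4a, h4b, h4c⟩ := h4
        have key := PE.place a (.node b (Fo.ofList l)) N x' A' (insert x (A ∪ B')) L₁' (L₁ ++ L₂') h1' h2' (by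
          rw [mem_insert, mem_union, not_or, not_or]
          exact ⟨fun e => h3a e.symm, h4a, h3'⟩) (by
          rw [disjoint_insert_right, disjoint_union_right]
          exact ⟨h3b, h4b.symm, h4'⟩) h5' (PE.place b (Fo.ofList l) N x A B' L₁ L₂' h1 h2 h3c h4c h5 h6')
        have hZ : insert x' (A' ∪ insert x (A ∪ B')) = insert x (A ∪ insert x' (A' ∪ B')) := by
          ext v
          simp only [mem_insert, mem_union]
          tauto
        rw [hZ] at key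
        refine ⟨L₁' ++ (L₁ ++ L₂'), ?_, key⟩
        rw [← List.append_assoc, ← List.append_assoc]
        exact (List.perm_append_comm).append_right _
  | trans _ _ ih1 ih2 =>
    intro Z L h
    obtain ⟨L', h1, h2⟩ := ih1 h
    obtain ⟨L'', h3, h4⟩ := ih2 h2
    exact ⟨L'', h3.trans h1, h4⟩

/-- reordering the trees of a partial embedding -/
theorem PE_perm' {F : Fo} {l : List Fo} (h : F.trees.Perm l) {N : V → Prop} {Z : Finset V} {L : List (Item V)}
    (hP : PE R (Fo.ofList l) N Z L) : ∃ L', L'.Perm L ∧ PE R F N Z L' := by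
  obtain ⟨L', h1, h2⟩ := PE_perm h.symm hP
  rw [Fo.ofList_trees] at h2
  exact ⟨L', h1, h2⟩

theorem side_place (hT : AE32.Tour R) {b : ℕ} (hb : 1 ≤ b) {U Ks : Finset V} {k : ℝ} {M : ℕ} {y w x : V} (hKU : Ks ⊆ U)
    (hy : y ∈ Lv R U Ks k M) (hw : w ∈ Lv R U Ks k M) (hwx : (w = y ∧ R y x) ∨ (R y w ∧ R w x)) (hxy : x ≠ y)
    {c₀ : Fo} (hlen : c₀.len ≤ b) (hdeg : c₀.Deg b) (hsz : b * (b + 1) < c₀.size) {A : Finset V} (hyA : y ∈ A)
    (hwA : w ∈ A) (hxA : x ∈ A) (hA : (A.card : ℝ) + 2 * cnt b M ≤ k) :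
    ∃ (Z : Finset V) (L Lh : List (Item V)) (cf : Fo), PE R c₀ (R y) Z L ∧ x ∈ Z ∧ y ∉ Z ∧
      (∀ z ∈ Z, z = x ∨ z = w ∨ (z ∈ U ∧ z ∉ A)) ∧ Z.card ≤ 2 * cnt b M + 2 ∧ L.Perm ((R x, cf) :: Lh) ∧
      (∀ p ∈ Lh, ∃ z, (z = x ∨ z ∈ Ks) ∧ p.1 = R z) ∧ Lh.length ≤ 2 * b ^ (M + 1) + b ∧
      c₀.size ≤ 3 * b ^ 3 * (cf.size + 1) := by
  have hcnt0 : (0 : ℝ) ≤ cnt b M := by positivity
  have hc₀ : c₀ ≠ .nil := by
    rintro rfl
    simp [Fo.size] at hsz
  obtain ⟨a, l, hal, hsza, -⟩ := exists_large b c₀ hc₀ hlen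
  have hdeg' := (Fo.deg_iff b c₀).1 hdeg
  have hmem : ∀ d ∈ a :: l, d.len ≤ b ∧ d.Deg b := fun d hd => hdeg' d (hal.mem_iff.2 hd)
  have hll : l.length + 1 ≤ b := by
    have h1 := hal.length_eq
    rw [← Fo.len_eq] at h1
    simp only [List.length_cons] at h1
    omega
  have hasz : b < a.size := by
    have h1 : b * (b + 1) < b * (a.size + 1) := hsz.trans_le hsza
    have h2 := lt_of_mul_lt_mul_left h1 (Nat.zero_le b)
    omega
  have ha : a ≠ .nil := by
    rintro rfl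
    simp [Fo.size] at hasz
  obtain ⟨a', l', hal', hsza', -⟩ := exists_large b a ha (hmem a List.mem_cons_self).1
  have hmem' : ∀ d ∈ a' :: l', d.len ≤ b ∧ d.Deg b := fun d hd =>
    (Fo.deg_iff b a).1 (hmem a List.mem_cons_self).2 d (hal'.mem_iff.2 hd)
  have hll' : l'.length + 1 ≤ b := by
    have h1 := hal'.length_eq
    rw [← Fo.len_eq] at h1
    simp only [List.length_cons] at h1
    have := (hmem a List.mem_cons_self).1
    omega
  have hofl : (Fo.ofList l).len ≤ b ∧ (Fo.ofList l).Deg b := by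
    refine ⟨by rw [Fo.len_eq, Fo.trees_ofList]; omega, ?_⟩
    rw [Fo.deg_iff, Fo.trees_ofList]
    exact fun d hd => hmem d (List.mem_cons_of_mem _ hd)
  have hofl' : (Fo.ofList l').len ≤ b ∧ (Fo.ofList l').Deg b := by
    refine ⟨by rw [Fo.len_eq, Fo.trees_ofList]; omega, ?_⟩
    rw [Fo.deg_iff, Fo.trees_ofList]
    exact fun d hd => hmem' d (List.mem_cons_of_mem _ hd)
  have hpow : 0 ≤ b ^ (M + 1) := Nat.zero_le _
  rcases hwx with ⟨hwy, hyx⟩ | ⟨hyw, hwx⟩
  · -- the heavy subtree is placed at `x`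
    obtain ⟨Z', L', hPE', hZ'U, hZ'A, hZ'c, hL'c, hL'h⟩ := placing hb hKU M y (Fo.ofList l) A hy hyA hofl.1 hofl.2
      (by linarith)
    rw [disjoint_left] at hZ'A
    have hxZ : x ∉ Z' := fun h => hZ'A h hxA
    have hyZ : y ∉ Z' := fun h => hZ'A h hyA
    have hPE1 : PE R (.node a (Fo.ofList l)) (R y) (insert x (∅ ∪ Z')) (a.trees.map (fun c => (R x, c)) ++ L') :=
      PE.place a (Fo.ofList l) (R y) x ∅ Z' _ L' hyx (by simp) hxZ (by simp) (PE.pendall (R x) a) hPE'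
    rw [empty_union] at hPE1
    obtain ⟨L, hL, hPE2⟩ := PE_perm' (l := a :: l) hal hPE1
    refine ⟨insert x Z', L, l'.map (fun c => (R x, c)) ++ L', a', hPE2, mem_insert_self _ _, ?_, ?_, ?_, ?_, ?_, ?_, ?_⟩
    · rw [mem_insert, not_or]
      exact ⟨hxy.symm, hyZ⟩
    · intro z hz
      rcases mem_insert.1 hz with h | h
      · exact Or.inl h
      · exact Or.inr (Or.inr ⟨hZ'U h, hZ'A h⟩)
    · have := card_insert_le x Z'
      omega
    · refine hL.trans ?_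
      rw [← List.cons_append]
      exact (hal'.map _).append_right _
    · intro p hp
      rcases List.mem_append.1 hp with h | h
      · obtain ⟨d, hd, rfl⟩ := List.mem_map.1 h
        exact ⟨x, Or.inl rfl, rfl⟩
      · obtain ⟨z, h1, _, h2⟩ := hL'h p h
        exact ⟨z, Or.inr h1, h2⟩
    · rw [List.length_append, List.length_map]
      omega
    · obtain ⟨s, hs⟩ : ∃ s : ℕ, s = a'.size + 1 := ⟨_, rfl⟩
      rw [← hs] at hsza' ⊢
      have hs1 : 1 ≤ s := by omega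
      have h1 : b * (a.size + 1) ≤ b * (b * s + 1) := Nat.mul_le_mul_left _ (by omega)
      have h2 : b * (b * s + 1) = b ^ 2 * s + b := by ring
      have h3 : b ≤ b ^ 3 := Nat.le_self_pow (by norm_num) b
      have h4 : b ^ 3 * 1 ≤ b ^ 3 * s := Nat.mul_le_mul_left _ hs1
      have h5 : b ^ 2 * s ≤ b ^ 3 * s := Nat.mul_le_mul_right _ (Nat.pow_le_pow_right hb (by norm_num))
      have h6 : 3 * b ^ 3 * s = b ^ 3 * s + b ^ 3 * s + b ^ 3 * s := by ring
      omega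
  · -- the heavy subtree is placed at `w`, and its heavy subtree at `x`
    have ha'sz : 1 ≤ a'.size := by
      have h1 : b * 1 < b * (a'.size + 1) := by omega
      have h2 := lt_of_mul_lt_mul_left h1 (Nat.zero_le b)
      omega
    have ha' : a' ≠ .nil := by
      rintro rfl
      simp [Fo.size] at ha'sz
    obtain ⟨a'', l'', hal'', hsza'', -⟩ := exists_large b a' ha' (hmem' a' List.mem_cons_self).1
    have hll'' : l''.length + 1 ≤ b := by
      have h1 := hal''.length_eq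
      rw [← Fo.len_eq] at h1
      simp only [List.length_cons] at h1
      have := (hmem' a' List.mem_cons_self).1
      omega
    obtain ⟨Z', L', hPE', hZ'U, hZ'A, hZ'c, hL'c, hL'h⟩ := placing hb hKU M w (Fo.ofList l') A hw hwA hofl'.1 hofl'.2
      (by linarith)
    obtain ⟨Z'', L'', hPE'', hZ''U, hZ''A, hZ''c, hL''c, hL''h⟩ := placing hb hKU M y (Fo.ofList l) (A ∪ Z') hy
      (mem_union_left _ hyA) hofl.1 hofl.2 (by
        have h1 : ((A ∪ Z').card : ℝ) ≤ A.card + cnt b M := by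
          exact_mod_cast (card_union_le A Z').trans (by omega)
        linarith)
    rw [disjoint_union_right] at hZ''A
    obtain ⟨hZ''A, hZZ⟩ := hZ''A
    rw [disjoint_left] at hZ'A hZ''A
    have hxw : x ≠ w := by
      rintro rfl
      exact hT.irr _ hwx
    have hwy : w ≠ y := by
      rintro rfl
      exact hT.irr _ hyw
    have hPE1 : PE R (.node a' (Fo.ofList l')) (R w) (insert x (∅ ∪ Z')) (a'.trees.map (fun c => (R x, c)) ++ L') :=
      PE.place a' (Fo.ofList l') (R w) x ∅ Z' _ L' hwx (by simp) (fun h => hZ'A h hxA) (by simp)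
        (PE.pendall (R x) a') hPE'
    rw [empty_union] at hPE1
    obtain ⟨L₁, hL₁, hPE2⟩ := PE_perm' (l := a' :: l') hal' hPE1
    have hPE3 : PE R (.node a (Fo.ofList l)) (R y) (insert w (insert x Z' ∪ Z'')) (L₁ ++ L'') :=
      PE.place a (Fo.ofList l) (R y) w (insert x Z') Z'' _ L'' hyw (by
        rw [mem_insert, not_or]
        exact ⟨hxw.symm, fun h => hZ'A h hwA⟩) (fun h => hZ''A h hwA) (by
        rw [disjoint_insert_left]
        exact ⟨fun h => hZ''A h hxA, hZZ.symm⟩) hPE2 hPE''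
    obtain ⟨L, hL, hPE4⟩ := PE_perm' (l := a :: l) hal hPE3
    refine ⟨insert w (insert x Z' ∪ Z''), L, (l''.map (fun c => (R x, c)) ++ L') ++ L'', a'', hPE4, ?_, ?_, ?_, ?_, ?_, ?_,
      ?_, ?_⟩
    · exact mem_insert_of_mem (mem_union_left _ (mem_insert_self _ _))
    · rw [mem_insert, mem_union, mem_insert, not_or, not_or, not_or]
      exact ⟨hwy.symm, ⟨hxy.symm, fun h => hZ'A h hyA⟩, fun h => hZ''A h hyA⟩
    · intro z hz
      rw [mem_insert, mem_union, mem_insert] at hz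
      rcases hz with h | (h | h) | h
      · exact Or.inr (Or.inl h)
      · exact Or.inl h
      · exact Or.inr (Or.inr ⟨hZ'U h, hZ'A h⟩)
      · exact Or.inr (Or.inr ⟨hZ''U h, hZ''A h⟩)
    · have h1 := card_insert_le w (insert x Z' ∪ Z'')
      have h2 := card_union_le (insert x Z') Z''
      have h3 := card_insert_le x Z'
      omega
    · refine hL.trans ?_
      rw [← List.cons_append, ← List.cons_append]
      refine List.Perm.append_right _ (hL₁.trans ?_)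
      exact (hal''.map _).append_right _
    · intro p hp
      rcases List.mem_append.1 hp with h | h
      · rcases List.mem_append.1 h with h | h
        · obtain ⟨d, hd, rfl⟩ := List.mem_map.1 h
          exact ⟨x, Or.inl rfl, rfl⟩
        · obtain ⟨z, h1, _, h2⟩ := hL'h p h
          exact ⟨z, Or.inr h1, h2⟩
      · obtain ⟨z, h1, _, h2⟩ := hL''h p h
        exact ⟨z, Or.inr h1, h2⟩
    · rw [List.length_append, List.length_append, List.length_map]
      omega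
    · obtain ⟨s, hs⟩ : ∃ s : ℕ, s = a''.size + 1 := ⟨_, rfl⟩
      rw [← hs] at hsza'' ⊢
      have hs1 : 1 ≤ s := by omega
      have h0 : b * (a'.size + 1) ≤ b * (b * s + 1) := Nat.mul_le_mul_left _ (by omega)
      have h1 : b * (a.size + 1) ≤ b * (b * (b * s + 1) + 1) := Nat.mul_le_mul_left _ (by omega)
      have h2 : b * (b * (b * s + 1) + 1) = b ^ 3 * s + b ^ 2 + b := by ring
      have h3 : b ≤ b ^ 3 := Nat.le_self_pow (by norm_num) b
      have h3' : b ^ 2 ≤ b ^ 3 := Nat.pow_le_pow_right hb (by norm_num)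
      have h4 : b ^ 3 * 1 ≤ b ^ 3 * s := Nat.mul_le_mul_left _ hs1
      have h6 : 3 * b ^ 3 * s = b ^ 3 * s + b ^ 3 * s + b ^ 3 * s := by ring
      omega

end place

end SPD
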