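import Pool.Agent.SPD.CutAll
import Pool.Agent.SPD.ConstE
import Pool.Agent.SPD.CoreD
import Pool.Agent.SPD.SidePlace
import Pool.Agent.SPD.FinalD

/-!
# Two forests at a common root: the top step
-/

namespace SPD

open Finset AE15
open scoped Classical

theorem deg_mono {b B : ℕ} (h : b ≤ B) {c : Fo} (hc : c.Deg b) : c.Deg B := by
  induction c with
  | nil => trivial
  | node c s ihc ihs => exact ⟨hc.1.trans h, ihc hc.2.1, ihs hc.2.2⟩

/-- numerical facts about the constants -/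
theorem const_facts (b : ℕ) (hb : 1 ≤ b) : 0 < om b ∧ om b ≤ 1 / 6 ∧ 0 < cc b ∧ cc b ≤ 1 / 48 ∧ 0 < et b ∧
    et b ≤ 1 / 240 ∧ 0 < et1 b ∧ et1 b ≤ 1 ∧ 0 < ka0 b ∧ 20 * ka0 b ≤ et1 b ∧ 0 < ka1 b ∧ ka1 b ≤ ka0 b ∧
    0 < ka b ∧ ka b ≤ ka1 b ∧ ka b ≤ 1 ∧ ka b ≤ om b ∧ 0 < sg2 b ∧ 0 < mu b ∧ mu b ≤ 1 := by
  have hb0 : (1 : ℝ) ≤ b := by exact_mod_cast hb
  have hb2 : (1 : ℝ) ≤ b ^ 2 := by nlinarith
  have h1 : 0 < om b := by unfold om; positivity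
  have h2 : om b ≤ 1 / 6 := by
    unfold om
    exact one_div_le_one_div_of_le (by norm_num) (by linarith)
  have h3 : 0 < cc b := by unfold cc; positivity
  have h4 : cc b ≤ 1 / 48 := by unfold cc; linarith
  have h5 : 0 < et b := by unfold et; positivity
  have h6 : et b ≤ 1 / 240 := by unfold et; linarith
  have h7 : 0 < et1 b := by unfold et1; positivity
  have h8 : et1 b ≤ et b / 4 := by
    unfold et1
    have : cc b * et b ≤ 1 * et b := mul_le_mul_of_nonneg_right (by linarith) h5.le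
    linarith
  have h9 : 0 < ka0 b := by unfold ka0; positivity
  have h10 : 20 * ka0 b ≤ et1 b := by unfold ka0; linarith
  have h11 : 0 < ka1 b := by unfold ka1; positivity
  have h12 : ka1 b ≤ ka0 b := by
    unfold ka1
    have : ka0 b ^ 2 ≤ ka0 b * 1 := by
      rw [sq]
      exact mul_le_mul_of_nonneg_left (by linarith) h9.le
    linarith
  have h13 : 0 < ka b := by unfold ka; positivity
  have h14 : ka b ≤ ka1 b := by
    unfold ka
    have : cc b * ka1 b ≤ 1 * ka1 b := mul_le_mul_of_nonneg_right (by linarith) h11.le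
    linarith
  have h15 : et b ≤ om b := by unfold et; linarith
  have h16 : 0 < sg2 b := by unfold sg2; positivity
  have h17 : 0 < mu b := by unfold mu; positivity
  have h18 : sg2 b ≤ 1 := by unfold sg2; linarith
  have h19 : mu b ≤ 1 := by unfold mu; linarith
  exact ⟨h1, h2, h3, h4, h5, h6, h7, by linarith, h9, h10, h11, h12, h13, h14, by linarith, by linarith, h16, h17, h19⟩

section small

variable {V : Type} {R : V → V → Prop}

/-- the last part of the embedding on one side of the cut -/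
theorem side_fin (hT : AE32.Tour R) {b B : ℕ} (hb : 1 ≤ b) (hB : B = b ^ 2) {P H D Ks Z Za : Finset V} {x y : V}
    {ρ σ : ℝ} {J m n₁ C₀ : ℕ}
    (hC : Cst P.card (om B) (cc B) (et B) (et1 B) (ka1 B) (ka B) (et1 B / 8) (sg2 B) (mu B) ρ σ (cc B * σ / 4)
      (cc B * σ / 4)) (hS : Super R (ka1 B) (et1 B) (et1 B / 8) P x)
    {𝓕x : Finset (Finset V)} (h𝓕x : 𝓕x.card ≤ 6 * P.card ^ 2) (hHX : H ⊆ P) (hHc : (H.card : ℝ) ≤ 2 * σ * P.card)
    (hfin : ∀ A Q P' B' : Finset V, A ⊆ P → (P.card : ℝ) ≤ 2 * A.card → Q ⊆ A → Rep A 𝓕x (cc B * σ / 4) Q →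
        cc B * A.card ≤ Q.card → P' ⊆ P → x ∉ P' → Q ⊆ P' → B'.card ≤ J → Disjoint B' H → (H ∪ (D ∩ P)) \ B' ⊆ P' →
        (((P \ A) \ P').card : ℝ) ≤ cc B * σ / 4 * P.card → Cls R P' (ka B) (et B) (R x))
    (hD : (D.card : ℝ) ≤ mu B / 4 * P.card)
    (hKX : Ks ⊆ P) (hKh : ∀ y ∈ Ks, ∃ Y ⊆ P, ((P \ Y).card : ℝ) ≤ 2 * et B * P.card ∧
      Super R (ka1 B) (et1 B) (et1 B / 8) Y y)
    (hKc : (Ks.card : ℝ) ≤ ρ * P.card + 2) {c₀ : Fo} (hdeg₀ : c₀.Deg b)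
    {L Lh : List (Item V)} {cf : Fo} (hPE : PE R c₀ (R y) Z L) (hZa : Z ⊆ Za) (hZaJ : Za.card ≤ J)
    (hZaH : Disjoint Za H) (hxZ : x ∈ Za) (hJδ : (J : ℝ) ≤ cc B * σ / 4 * P.card)
    (hL : L.Perm ((R x, cf) :: Lh)) (hLh : ∀ p ∈ Lh, ∃ y, (y = x ∨ y ∈ Ks) ∧ p.1 = R y)
    (hlen : Lh.length ≤ m) (hn₁ : 2 * n₁ ≤ P.card)
    (hhost : ∀ {V : Type} {R : V → V → Prop} (A : Finset V) (𝓕 : Finset (Finset V)), n₁ ≤ A.card →
      𝓕.card ≤ A.card ^ 5 →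
      ∀ (κ η K C : ℝ), 0 ≤ K → 0 ≤ C → 0 < η → 10 * η ≤ 1 → ∀ L : List (Item V), L.length ≤ m →
        (∀ p ∈ L, Ok R A 𝓕 (cc B * σ / 4) κ η p.1) → (∀ p ∈ L, EE R K C κ η p.2) →
        (K * isz L + m * C) / (1 - 5 * η) ≤ (1 - 2 * cc B) * A.card →
        ∃ S Q : Finset V, S ⊆ A ∧ Q ⊆ A ∧ Disjoint S Q ∧ EmbX R L S ∧ cc B * A.card ≤ Q.card ∧
          Rep A 𝓕 (cc B * σ / 4) Q)
    (hmC : (m : ℝ) * C₀ ≤ om B / 4 * P.card)
    (hEE : ∀ c : Fo, c.len ≤ B → c.Deg B → EE R 1 C₀ (ka B) (et B) c)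
    (hsz : c₀.size ≤ 3 * b ^ 3 * (cf.size + 1)) (hn : c₀.size + C₀ + J ≤ P.card) :
    ∃ S ⊆ P \ Za, Emb R c₀ (R y) (Z ∪ S) := by
  have hbR : (1 : ℝ) ≤ b := by exact_mod_cast hb
  have hB1 : 1 ≤ B := by rw [hB]; exact Nat.one_le_pow _ _ hb
  have hbB : b ≤ B := by rw [hB]; nlinarith
  have hom : 0 < om B := hC.hω
  have hEE' : ∀ p ∈ L, EE R 1 C₀ (ka B) (et B) p.2 := by
    intro p hp
    have h1 := hPE.deg hdeg₀ p hp
    exact hEE p.2 (h1.1.trans hbB) (deg_mono hbB h1.2)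
  refine core' hT hC hS h𝓕x hHX hHc hfin hD hKX hKh hKc hPE hZa hZaJ hZaH hxZ ?_ hL hLh hlen hn₁ hhost
    (K := 1) (C := C₀) (K' := 1) (C' := C₀) zero_le_one (by positivity) le_rfl (by positivity) (by linarith) hmC
    ?_ ?_ ?_ ?_
  · have h1 : (Za.card : ℝ) ≤ J := by exact_mod_cast hZaJ
    linarith
  · intro p hp
    exact hEE' p (hL.mem_iff.2 (List.mem_cons_of_mem _ hp))
  · exact hEE' (R x, cf) (hL.mem_iff.2 List.mem_cons_self)
  · have h1 : (c₀.size : ℝ) ≤ 3 * b ^ 3 * (cf.size + 1) := by exact_mod_cast hsz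
    have h2 : om B * (b : ℝ) ^ 4 = 1 / 6 := by
      unfold om
      rw [hB]
      push_cast
      field_simp
    have h3 : (0 : ℝ) ≤ cf.size + 1 := by positivity
    have h4 : (b : ℝ) ^ 3 ≤ b ^ 4 := pow_le_pow_right₀ hbR (by norm_num)
    calc 2 * om B * c₀.size ≤ 2 * om B * (3 * b ^ 3 * (cf.size + 1)) :=
          mul_le_mul_of_nonneg_left h1 (by positivity)
      _ ≤ 2 * om B * (3 * b ^ 4 * (cf.size + 1)) := by
          apply mul_le_mul_of_nonneg_left _ (by positivity)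
          apply mul_le_mul_of_nonneg_right _ h3
          linarith
      _ = 6 * (om B * b ^ 4) * (cf.size + 1) := by ring
      _ = cf.size + 1 := by rw [h2]; ring
  · have h1 : ((c₀.size + C₀ + J : ℕ) : ℝ) ≤ P.card := by exact_mod_cast hn
    have h2 : (Za.card : ℝ) ≤ J := by exact_mod_cast hZaJ
    push_cast at h1
    linarith

end small

/-- **Top step**: two forests at a common root -/
theorem two_sides (b : ℕ) (hb : 1 ≤ b) : ∃ C : ℕ, ∀ {V : Type} {R : V → V → Prop}, AE32.Tour R → ∀ c₁ c₂ : Fo,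
    c₁.len ≤ b → c₁.Deg b → c₂.len ≤ b → c₂.Deg b → b * (b + 1) < c₁.size → c₁.size ≤ c₂.size →
    ∀ X : Finset V, c₁.size + c₂.size + 1 + C ≤ X.card →
      ∃ r ∈ X, ∃ S₁ ⊆ X, ∃ S₂ ⊆ X, Disjoint S₁ S₂ ∧ r ∉ S₁ ∧ r ∉ S₂ ∧ Emb (rv R) c₁ (rv R r) S₁ ∧
        Emb R c₂ (R r) S₂ := by
  obtain ⟨B, hB⟩ : ∃ B : ℕ, B = b ^ 2 := ⟨_, rfl⟩
  have hB1 : 1 ≤ B := by rw [hB]; exact Nat.one_le_pow _ _ hb
  obtain ⟨hom, hom1, hcc, hcc1, het, het1, het1', het1'', hka0, hka0', hka1, hka1', hka, hka', hka'', hkaom, hsg2,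
    hmu, hmu1⟩ := const_facts B hB1
  obtain ⟨κc, ξ₀, n₀, hκc, hκc1, hξ₀, hξ₀1, hcut⟩ := cut_all (β := et B / 2) (ζ := mu B / 16) (by positivity)
    (by linarith only [het1, het]) (by positivity) (by linarith only [hmu1, hmu])
  obtain ⟨ξ, hξ⟩ : ∃ ξ : ℝ, ξ = ξ₀ / 4 := ⟨_, rfl⟩
  obtain ⟨M, hM⟩ : ∃ M : ℕ, M = ⌈8 / κc⌉₊ + 1 := ⟨_, rfl⟩
  obtain ⟨ρ, hρ⟩ : ∃ ρ : ℝ, ρ = min (min (ka B) κc) (et B) / 8 := ⟨_, rfl⟩
  have hρ0 : 0 < ρ := by rw [hρ]; positivity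
  have hρ1 : ρ ≤ ka B / 8 := by
    rw [hρ]
    exact div_le_div_of_nonneg_right ((min_le_left _ _).trans (min_le_left _ _)) (by norm_num)
  have hρ2 : ρ ≤ κc / 8 := by
    rw [hρ]
    exact div_le_div_of_nonneg_right ((min_le_left _ _).trans (min_le_right _ _)) (by norm_num)
  have hρ3 : ρ ≤ et B / 8 := by
    rw [hρ]
    exact div_le_div_of_nonneg_right (min_le_right _ _) (by norm_num)
  have hξ0 : 0 < ξ := by rw [hξ]; positivity
  obtain ⟨σ, hσ⟩ : ∃ σ : ℝ, σ = min (ρ * ka B / 32) (ρ * ξ * κc / 64) := ⟨_, rfl⟩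
  have hσ0 : 0 < σ := by rw [hσ]; positivity
  have hσ1 : σ ≤ ρ * ka B / 32 := by rw [hσ]; exact min_le_left _ _
  have hσ2 : σ ≤ ρ * ξ * κc / 64 := by rw [hσ]; exact min_le_right _ _
  obtain ⟨δ, hδ⟩ : ∃ δ : ℝ, δ = cc B * σ / 4 := ⟨_, rfl⟩
  have hδ0 : 0 < δ := by rw [hδ]; positivity
  have hccσ : cc B * σ ≤ 1 / 48 * σ := mul_le_mul_of_nonneg_right hcc1 hσ0.le
  have hδσ : δ ≤ σ / 192 := by rw [hδ]; linarith only [hccσ]
  have hρκ : ρ * ka B ≤ ρ * 1 := mul_le_mul_of_nonneg_left hka'' hρ0.le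
  have hσρ : σ ≤ ρ / 32 := by linarith only [hσ1, hρκ]
  have hρ1' : ρ ≤ 1 := by linarith only [hρ1, hka'']
  obtain ⟨m, hm⟩ : ∃ m : ℕ, m = 2 * b ^ (M + 1) + b := ⟨_, rfl⟩
  obtain ⟨n₁, hn₁⟩ := host_items hδ0 (by linarith only [hδσ, hσρ, hρ1', hσ0, hρ0]) hcc m
  obtain ⟨C₀, hC₀⟩ := ee_one B hB1
  obtain ⟨J, hJ⟩ : ∃ J : ℕ, J = 4 * cnt b M + 10 := ⟨_, rfl⟩
  obtain ⟨n₂, hn₂⟩ := exists_nat_ge ((100 + (J : ℝ) + m * C₀) / δ)
  rw [div_le_iff₀ hδ0] at hn₂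
  obtain ⟨C₁, hC₁⟩ : ∃ C₁ : ℕ, C₁ = n₀ + 2 * n₁ + n₂ + C₀ + J + 1 := ⟨_, rfl⟩
  refine ⟨2 * C₁, ?_⟩
  intro V R hT c₁ c₂ hl₁ hd₁ hl₂ hd₂ hs₁ hs₂ X hX
  have hT' := rv_tour hT
  obtain ⟨p, hp⟩ : ∃ p : ℕ, p = c₁.size + C₁ := ⟨_, rfl⟩
  obtain ⟨q, hq⟩ : ∃ q : ℕ, q = X.card - 1 - p := ⟨_, rfl⟩
  have hpq : p + q + 1 = X.card := by omega
  have hpq' : p ≤ q := by omega
  obtain ⟨y, P₁, P₂, X₁, hPart, hP₁c, hP₂c, hX₁X, hP₁X₁, hyX₁, hX₁c, hX₁ξ, hSd2, hSd1⟩ := hcut hT X p q hpq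
    (by omega) hpq'
  -- a bound which holds for both parts
  have hpc : ∀ n : ℕ, p ≤ n → 100 + (J : ℝ) + m * C₀ ≤ δ * n := by
    intro n hn
    have h1 : (n₂ : ℝ) ≤ n := by exact_mod_cast (by omega : n₂ ≤ n)
    have h2 : (n₂ : ℝ) * δ ≤ n * δ := mul_le_mul_of_nonneg_right h1 hδ0.le
    linarith only [h2, hn₂]
  have hmC0 : (0 : ℝ) ≤ (m : ℝ) * C₀ := by positivity
  have hJ0 : (0 : ℝ) ≤ J := by positivity
  have key : ∀ P : Finset V, p ≤ P.card → 100 ≤ δ * P.card ∧ (J : ℝ) ≤ δ * P.card ∧ (J : ℝ) ≤ σ * P.card ∧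
      (m : ℝ) * C₀ ≤ om B / 4 * P.card ∧ 2 ≤ ρ * P.card ∧ 8 ≤ ka0 B * P.card := by
    intro P hP
    have h1 := hpc P.card hP
    have h0 : (0 : ℝ) ≤ P.card := Nat.cast_nonneg _
    have h2 : δ * P.card ≤ σ * P.card := mul_le_mul_of_nonneg_right (by linarith only [hδσ, hσ0]) h0
    have h3 : δ * P.card ≤ om B / 4 * P.card :=
      mul_le_mul_of_nonneg_right (by linarith only [hδσ, hσρ, hρ1, hkaom, hσ0, hρ0, hom]) h0
    have h4 : δ * P.card ≤ ρ * P.card := mul_le_mul_of_nonneg_right (by linarith only [hδσ, hσρ, hσ0, hρ0]) h0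
    have h5 : δ * P.card ≤ ka0 B * P.card :=
      mul_le_mul_of_nonneg_right (by linarith only [hδσ, hσρ, hρ1, hka', hka1', hσ0, hρ0, hka0]) h0
    refine ⟨?_, ?_, ?_, ?_, ?_, ?_⟩ <;> linarith only [h1, h2, h3, h4, h5, hmC0, hJ0]
  have hpR : (p : ℝ) + q + 1 = X.card := by exact_mod_cast hpq
  have hpqR : (p : ℝ) ≤ q := by exact_mod_cast hpq'
  have hP₁R : (P₁.card : ℝ) = p := by exact_mod_cast hP₁c
  have hP₂R : (P₂.card : ℝ) = q := by exact_mod_cast hP₂c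
  obtain ⟨g11, g12, g13, g14, g15, g16⟩ := key P₁ (by omega)
  obtain ⟨g21, g22, g23, g24, g25, g26⟩ := key P₂ (by omega)
  have hp100 : (100 : ℝ) ≤ p := by
    have : δ * P₁.card ≤ 1 * P₁.card :=
      mul_le_mul_of_nonneg_right (by linarith only [hδσ, hσρ, hρ1', hσ0, hρ0]) (Nat.cast_nonneg _)
    linarith only [this, g11, hP₁R]
  have hX4q : (X.card : ℝ) ≤ 4 * q := by linarith only [hpR, hpqR, hp100]
  have hP₁n : P₁.Nonempty := by rw [← card_pos]; omega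
  have hP₂n : P₂.Nonempty := by rw [← card_pos]; omega
  -- constants
  have hC1 := cst_of B hB1 (n := (P₁.card : ℝ)) hρ0 hρ1 hσ0 hσ1 (by rw [← hδ]; exact g11)
  have hC2 := cst_of B hB1 (n := (P₂.card : ℝ)) hρ0 hρ1 hσ0 hσ1 (by rw [← hδ]; exact g21)
  -- the super vertices
  obtain ⟨x₂, hS2⟩ := exists_super hT P₂ hka0 hka0' het1'' (by linarith only [g26])
  obtain ⟨x₁, hS1⟩ := exists_super hT' P₁ hka0 hka0' het1'' (by linarith only [g16])
  have hk1 : ka0 B ^ 2 / 4 = ka1 B := rfl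
  rw [hk1] at hS1 hS2
  -- the kept set
  obtain ⟨D, hDP, hDc, hDX⟩ : ∃ D ⊆ P₂, (D.card : ℝ) ≤ mu B / 4 * P₂.card ∧ (X₁ = X ∨ X₁ ∩ P₂ ⊆ D) := by
    rcases hX₁c with h | h
    · exact ⟨∅, empty_subset _, by
        rw [card_empty, Nat.cast_zero]
        exact mul_nonneg (by positivity) (Nat.cast_nonneg _), Or.inl h⟩
    · refine ⟨X₁ ∩ P₂, inter_subset_right, ?_, Or.inr (Subset.refl _)⟩
      have h1 : ((X₁ ∩ P₂).card : ℝ) ≤ X₁.card := by exact_mod_cast card_le_card inter_subset_left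
      rw [hP₂R]
      have h2 : mu B / 16 * X.card ≤ mu B / 16 * (4 * q) := mul_le_mul_of_nonneg_left hX4q (by positivity)
      linarith only [h, h1, h2]
  have hfc : 2 * (δ + δ) ≤ cc B * σ := le_of_eq (by rw [hδ]; ring)
  have hκ₁ : σ ≤ ka1 B := by linarith only [hσρ, hρ1, hka', hρ0, hka, hσ0]
  have hcka : cc B * ka1 B / 4 = ka B := rfl
  have hcet : cc B * et B / 4 = et1 B := rfl
  have het1τ : σ ≤ et1 B / 8 := by
    linarith only [hσρ, hρ1, hka', hka1', hka0', hρ0, hka, hka1, hka0, het1']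
  have hkap : 0 < cc B * ka1 B := by positivity
  have hetp : 0 < cc B * et B := by positivity
  obtain ⟨𝓕₂, H₂, hF2, hH2P, hH2c, hH2x, hH2D, hfin2⟩ := final_lemma' hT (κ := ka B) (η := et B) (σ := σ) (δ := δ)
    (ε := δ) (c := cc B) hS2 hP₂n hka het hka1 het1' hσ0 hδ0.le hδ0 hcc het1τ hfc hκ₁
    (by linarith only [hcka, hkap]) (by linarith only [hcet, hetp]) D J g23
  obtain ⟨𝓕₁, H₁, hF1, hH1P, hH1c, hH1x, _, hfin1⟩ := final_lemma' hT' (κ := ka B) (η := et B) (σ := σ) (δ := δ)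
    (ε := δ) (c := cc B) hS1 hP₁n hka het hka1 het1' hσ0 hδ0.le hδ0 hcc het1τ hfc hκ₁
    (by linarith only [hcka, hkap]) (by linarith only [hcet, hetp]) ∅ J g13
  -- hosts on both sides
  have hy1 := hPart.y1
  have hy2 := hPart.y2
  have hyX := hPart.ymem
  have hP1X := hPart.sub1
  have hP2X := hPart.sub2
  have hPd := hPart.disj
  have hx1P : x₁ ∈ P₁ := hS1.1
  have hx2P : x₂ ∈ P₂ := hS2.1
  obtain ⟨w₂, K₂, hw2X, hw2, hK2P, hK2h, hK2c, hyL2, hwL2⟩ := side_hosts hT (U := X) (P := P₂) (y := y) (x := x₂)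
    (κc := κc) (t := et B / 2 * q) (ξ := ξ) (η := et B) (κ₀ := ka0 B) (η₁ := et1 B) (ρ := ρ) hka0 hka0' het1''
    hκc hκc1 hξ0 (by linarith only [hξ, hξ₀1]) hP2X hyX hy2 hx2P (by
      rw [hP₂R]
      have h1 : ξ * X.card ≤ 1 / 4 * (4 * q) :=
        mul_le_mul (by linarith only [hξ, hξ₀1]) hX4q (Nat.cast_nonneg _) (by norm_num)
      linarith only [h1]) hSd2 (by rw [hP₂R]; exact le_of_eq (by ring)) (by linarith only [het1]) hρ0
    (by linarith only [hρ3, het]) hρ2 g25 g26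
  obtain ⟨w₁, K₁, hw1X, hw1, hK1P, hK1h, hK1c, hyL1, hwL1⟩ := side_hosts hT' (U := X₁) (P := P₁) (y := y) (x := x₁)
    (κc := κc) (t := et B / 2 * p) (ξ := ξ) (η := et B) (κ₀ := ka0 B) (η₁ := et1 B) (ρ := ρ) hka0 hka0' het1''
    hκc hκc1 hξ0 (by linarith only [hξ, hξ₀1]) hP₁X₁ hyX₁ hy1 hx1P (by
      rw [hP₁R]
      have h1 : ξ * X₁.card ≤ ξ₀ * X₁.card :=
        mul_le_mul_of_nonneg_right (by linarith only [hξ, hξ₀]) (Nat.cast_nonneg _)
      linarith only [h1, hX₁ξ]) hSd1 (by rw [hP₁R]; exact le_of_eq (by ring)) (by linarith only [het1]) hρ0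
    (by linarith only [hρ3, het]) hρ2 g15 g16
  rw [hk1] at hK1h hK2h
  rw [← hM] at hyL1 hwL1 hyL2 hwL2
  -- cardinalities
  have hP1X1 : (P₁.card : ℝ) ≤ X₁.card := by exact_mod_cast card_le_card hP₁X₁
  have hk0 : 0 < ρ * ξ * κc / 4 := by positivity
  have hH1σ : (H₁.card : ℝ) ≤ 2 * σ * X₁.card := by
    refine hH1c.trans (mul_le_mul_of_nonneg_left hP1X1 (by positivity))
  have hcntJ : 2 * (cnt b M : ℝ) + 5 ≤ J := by
    rw [hJ]
    push_cast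
    have : (0 : ℝ) ≤ cnt b M := by positivity
    linarith only [this]
  -- side 1: the placed vertices
  obtain ⟨A₁, hA₁⟩ : ∃ A₁ : Finset V, A₁ = {y, x₁, w₁, x₂, w₂} ∪ H₁ ∪ (H₂ ∩ X₁) := ⟨_, rfl⟩
  have hA1m : ∀ z, (z = y ∨ z = x₁ ∨ z = w₁ ∨ z = x₂ ∨ z = w₂) → z ∈ A₁ := by
    intro z hz
    rw [hA₁, mem_union, mem_union]
    left; left
    simpa only [mem_insert, mem_singleton] using hz
  have hA₁c : (A₁.card : ℝ) + 2 * cnt b M ≤ ρ * ξ * κc / 4 * X₁.card := by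
    have h1 : A₁.card ≤ 5 + H₁.card + (H₂ ∩ X₁).card := by
      rw [hA₁]
      exact (card_union_le _ _).trans (Nat.add_le_add_right ((card_union_le _ _).trans
        (Nat.add_le_add_right card_le_five _)) _)
    have h2 : (A₁.card : ℝ) ≤ 5 + H₁.card + (H₂ ∩ X₁).card := by exact_mod_cast h1
    have h3 : ((H₂ ∩ X₁).card : ℝ) ≤ 2 * σ * X₁.card + 2 * J := by
      rcases hDX with h | h
      · rw [h]
        have h4 : ((H₂ ∩ X).card : ℝ) ≤ H₂.card := by exact_mod_cast card_le_card inter_subset_left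
        have h5 : (P₂.card : ℝ) ≤ X.card := by exact_mod_cast card_le_card hP2X
        have h6 : 2 * σ * P₂.card ≤ 2 * σ * X.card := mul_le_mul_of_nonneg_left h5 (by positivity)
        linarith only [h4, h6, hH2c, hJ0]
      · have h4 : H₂ ∩ X₁ ⊆ H₂ ∩ D := by
          intro z hz
          rw [mem_inter] at hz
          rw [mem_inter]
          exact ⟨hz.1, h (mem_inter.2 ⟨hz.2, hH2P hz.1⟩)⟩
        have h5 : ((H₂ ∩ X₁).card : ℝ) ≤ 2 * J := by exact_mod_cast (card_le_card h4).trans hH2D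
        have h6 : 0 ≤ 2 * σ * X₁.card := mul_nonneg (by positivity) (Nat.cast_nonneg _)
        linarith only [h5, h6]
    have h7 : 4 * σ * X₁.card ≤ ρ * ξ * κc / 16 * X₁.card :=
      mul_le_mul_of_nonneg_right (by linarith only [hσ2]) (Nat.cast_nonneg _)
    have h8 : (J : ℝ) + 100 ≤ δ * X₁.card := by
      have := hpc X₁.card (by rw [← hP₁c]; exact card_le_card hP₁X₁)
      linarith only [this, hmC0]
    have h9 : δ * X₁.card ≤ ρ * ξ * κc / 64 * X₁.card :=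
      mul_le_mul_of_nonneg_right (by linarith only [hδσ, hσ2, hσ0]) (Nat.cast_nonneg _)
    have h10 : (0 : ℝ) ≤ ρ * ξ * κc * X₁.card := mul_nonneg (by positivity) (Nat.cast_nonneg _)
    linarith only [h2, h3, h7, h8, h9, h10, hH1σ, hcntJ, hJ0]
  obtain ⟨Z₁, L₁, Lh₁, cf₁, hPE1, hxZ1, hyZ1, hZ1, hZ1c, hL1, hLh1, hlen1, hsz1⟩ := side_place hT' hb (b := b)
    (hK1P.trans hP₁X₁) hyL1 hwL1 (c₀ := c₁) (x := x₁) (A := A₁) (hw1.imp id (fun h => ⟨h.2.1, h.2.2⟩))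
    (fun e => hy1 (e ▸ hx1P)) hl₁ hd₁ hs₁ (hA1m _ (by simp)) (hA1m _ (by simp)) (hA1m _ (by simp)) hA₁c
  have hZ1J : 2 * Z₁.card + 2 ≤ J + Z₁.card := by rw [hJ]; omega
  -- side 2: the placed vertices
  obtain ⟨A₂, hA₂⟩ : ∃ A₂ : Finset V, A₂ = {y, x₁, w₁, x₂, w₂} ∪ H₁ ∪ (H₂ ∪ Z₁) := ⟨_, rfl⟩
  have hA2m : ∀ z, (z = y ∨ z = x₁ ∨ z = w₁ ∨ z = x₂ ∨ z = w₂) → z ∈ A₂ := by
    intro z hz
    rw [hA₂, mem_union, mem_union]
    left; left
    simpa only [mem_insert, mem_singleton] using hz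
  have hA₂c : (A₂.card : ℝ) + 2 * cnt b M ≤ ρ * ξ * κc / 4 * X.card := by
    have h1 : A₂.card ≤ 5 + H₁.card + (H₂.card + Z₁.card) := by
      rw [hA₂]
      exact (card_union_le _ _).trans (Nat.add_le_add ((card_union_le _ _).trans
        (Nat.add_le_add_right card_le_five _)) (card_union_le _ _))
    have h2 : (A₂.card : ℝ) ≤ 5 + H₁.card + (H₂.card + Z₁.card) := by exact_mod_cast h1
    have h3 : (Z₁.card : ℝ) ≤ J := by exact_mod_cast (by omega : Z₁.card ≤ J)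
    have h4 : (X₁.card : ℝ) ≤ X.card := by exact_mod_cast card_le_card hX₁X
    have h5 : (P₂.card : ℝ) ≤ X.card := by exact_mod_cast card_le_card hP2X
    have h6 : 2 * σ * P₂.card ≤ 2 * σ * X.card := mul_le_mul_of_nonneg_left h5 (by positivity)
    have h7 : 2 * σ * X₁.card ≤ 2 * σ * X.card := mul_le_mul_of_nonneg_left h4 (by positivity)
    have h8 : 4 * σ * X.card ≤ ρ * ξ * κc / 16 * X.card :=
      mul_le_mul_of_nonneg_right (by linarith only [hσ2]) (Nat.cast_nonneg _)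
    have h9 : (J : ℝ) + 100 ≤ δ * X.card := by
      have := hpc X.card (by omega)
      linarith only [this, hmC0]
    have h10 : δ * X.card ≤ ρ * ξ * κc / 64 * X.card :=
      mul_le_mul_of_nonneg_right (by linarith only [hδσ, hσ2, hσ0]) (Nat.cast_nonneg _)
    have h11 : (0 : ℝ) ≤ ρ * ξ * κc * X.card := mul_nonneg (by positivity) (Nat.cast_nonneg _)
    linarith only [h2, h3, h6, h7, h8, h9, h10, h11, hH1σ, hH2c, hcntJ, hJ0]
  obtain ⟨Z₂, L₂, Lh₂, cf₂, hPE2, hxZ2, hyZ2, hZ2, hZ2c, hL2, hLh2, hlen2, hsz2⟩ := side_place hT hb (b := b)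
    (hK2P.trans hP2X) hyL2 hwL2 (c₀ := c₂) (x := x₂) (A := A₂) (hw2.imp id (fun h => ⟨h.2.1, h.2.2⟩))
    (fun e => hy2 (e ▸ hx2P)) hl₂ hd₂ (by omega) (hA2m _ (by simp)) (hA2m _ (by simp)) (hA2m _ (by simp)) hA₂c
  -- all placed vertices
  obtain ⟨Za, hZa⟩ : ∃ Za : Finset V, Za = insert y (Z₁ ∪ Z₂) := ⟨_, rfl⟩
  have hZaJ : Za.card ≤ J := by
    rw [hZa]
    have h1 := card_insert_le y (Z₁ ∪ Z₂)
    have h2 := card_union_le Z₁ Z₂
    omega
  have hA1H2 : ∀ z ∈ X₁, z ∉ A₁ → z ∉ H₂ := by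
    intro z hz hzA hzH
    apply hzA
    rw [hA₁, mem_union, mem_inter]
    exact Or.inr ⟨hzH, hz⟩
  have hnP : ∀ z, z ∈ P₁ → z ∉ P₂ := fun z h1 h2 => disjoint_left.1 hPd h1 h2
  have hZaH1 : Disjoint Za H₁ := by
    rw [disjoint_left]
    intro z hz hzH
    rw [hZa, mem_insert, mem_union] at hz
    rcases hz with h | h | h
    · exact hy1 (h ▸ hH1P hzH)
    · rcases hZ1 z h with h1 | h1 | h1
      · rw [h1] at hzH
        exact hT'.irr _ (hH1x _ hzH)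
      · rw [h1] at hzH
        rcases hw1 with h2 | h2
        · exact hy1 (h2.1 ▸ hH1P hzH)
        · exact hT'.asym _ _ h2.2.2 (hH1x _ hzH)
      · apply h1.2
        rw [hA₁, mem_union, mem_union]
        exact Or.inl (Or.inr hzH)
    · rcases hZ2 z h with h1 | h1 | h1
      · exact hnP z (hH1P hzH) (h1 ▸ hx2P)
      · rcases hw2 with h2 | h2
        · exact hy1 (h2.1 ▸ h1 ▸ hH1P hzH)
        · exact hnP z (hH1P hzH) (h1 ▸ h2.1)
      · apply h1.2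
        rw [hA₂, mem_union, mem_union]
        exact Or.inl (Or.inr hzH)
  have hZaH2 : Disjoint Za H₂ := by
    rw [disjoint_left]
    intro z hz hzH
    rw [hZa, mem_insert, mem_union] at hz
    rcases hz with h | h | h
    · exact hy2 (h ▸ hH2P hzH)
    · rcases hZ1 z h with h1 | h1 | h1
      · exact hnP z (h1 ▸ hx1P) (hH2P hzH)
      · rcases hw1 with h2 | h2
        · exact hy2 (h2.1 ▸ h1 ▸ hH2P hzH)
        · exact hnP z (h1 ▸ h2.1) (hH2P hzH)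
      · exact hA1H2 z h1.1 h1.2 hzH
    · rcases hZ2 z h with h1 | h1 | h1
      · rw [h1] at hzH
        exact hT.irr _ (hH2x _ hzH)
      · rw [h1] at hzH
        rcases hw2 with h2 | h2
        · exact hy2 (h2.1 ▸ hH2P hzH)
        · exact hT.asym _ _ h2.2.2 (hH2x _ hzH)
      · apply h1.2
        rw [hA₂, mem_union, mem_union]
        exact Or.inr (mem_union_left _ hzH)
  have hZ12 : Disjoint Z₁ Z₂ := by
    rw [disjoint_left]
    intro z hz1 hz2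
    have hzA2 : z ∈ A₂ := by
      rw [hA₂, mem_union, mem_union]
      exact Or.inr (mem_union_right _ hz1)
    have hzP1 : z ∈ P₁ ∨ z = y ∨ z ∉ A₁ := by
      rcases hZ1 z hz1 with h1 | h1 | h1
      · exact Or.inl (h1 ▸ hx1P)
      · rcases hw1 with h2 | h2
        · exact Or.inr (Or.inl (h1.trans h2.1))
        · exact Or.inl (h1 ▸ h2.1)
      · exact Or.inr (Or.inr h1.2)
    have hzA1 : ∀ v, v = x₂ ∨ v = w₂ → v ∈ A₁ := by
      rintro v (h | h)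
      · exact hA1m v (Or.inr (Or.inr (Or.inr (Or.inl h))))
      · exact hA1m v (Or.inr (Or.inr (Or.inr (Or.inr h))))
    rcases hZ2 z hz2 with h1 | h1 | h1
    · rcases hzP1 with h2 | h2 | h2
      · exact hnP z h2 (h1 ▸ hx2P)
      · exact hy2 (h2 ▸ h1 ▸ hx2P)
      · exact h2 (hzA1 z (Or.inl h1))
    · rcases hzP1 with h2 | h2 | h2
      · rcases hw2 with h3 | h3
        · exact hyZ2 (h3.1 ▸ h1 ▸ hz2)
        · exact hnP z h2 (h1 ▸ h3.1)
      · exact hyZ2 (h2 ▸ hz2)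
      · exact h2 (hzA1 z (Or.inr h1))
    · exact h1.2 hzA2
  -- the final pieces
  obtain ⟨T₁, hT1P, hT1E⟩ := side_fin hT' hb hB hC1 hS1 hF1 hH1P hH1c (D := ∅) (J := J) (by
      rw [← hδ]; exact hfin1) (by
      rw [card_empty, Nat.cast_zero]
      exact mul_nonneg (by positivity) (Nat.cast_nonneg _)) hK1P hK1h hK1c hd₁ hPE1
    (Za := Za) (by rw [hZa]; exact (subset_union_left).trans (subset_insert _ _)) hZaJ hZaH1
    (by rw [hZa]; exact mem_insert_of_mem (mem_union_left _ hxZ1)) (by rw [← hδ]; exact g12) hL1 hLh1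
    (m := m) (by rw [hm]; exact hlen1) (n₁ := n₁) (by omega) (by rw [← hδ]; exact hn₁) g14 (hC₀ hT') hsz1
    (by omega)
  obtain ⟨T₂, hT2P, hT2E⟩ := side_fin hT hb hB hC2 hS2 hF2 hH2P hH2c (D := D) (J := J) (by
      rw [← hδ]; exact hfin2) hDc hK2P hK2h hK2c hd₂ hPE2
    (Za := Za) (by rw [hZa]; exact (subset_union_right).trans (subset_insert _ _)) hZaJ hZaH2
    (by rw [hZa]; exact mem_insert_of_mem (mem_union_right _ hxZ2)) (by rw [← hδ]; exact g22) hL2 hLh2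
    (m := m) (by rw [hm]; exact hlen2) (n₁ := n₁) (by omega) (by rw [← hδ]; exact hn₁) g24 (hC₀ hT) hsz2
    (by omega)
  have hZ1X : Z₁ ⊆ X := by
    intro z hz
    rcases hZ1 z hz with h1 | h1 | h1
    · exact hP1X (h1 ▸ hx1P)
    · exact hX₁X (h1 ▸ hw1X)
    · exact hX₁X h1.1
  have hZ2X : Z₂ ⊆ X := by
    intro z hz
    rcases hZ2 z hz with h1 | h1 | h1
    · exact hP2X (h1 ▸ hx2P)
    · exact h1 ▸ hw2X
    · exact h1.1
  have hT1Z : Disjoint T₁ Za := (disjoint_sdiff_self_left).mono_left hT1P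
  have hT2Z : Disjoint T₂ Za := (disjoint_sdiff_self_left).mono_left hT2P
  have hT12 : Disjoint T₁ T₂ := (hPd.mono_left (hT1P.trans sdiff_subset)).mono_right (hT2P.trans sdiff_subset)
  have hyZa : y ∈ Za := by rw [hZa]; exact mem_insert_self _ _
  have hZ1Za : Z₁ ⊆ Za := by rw [hZa]; exact (subset_union_left).trans (subset_insert _ _)
  have hZ2Za : Z₂ ⊆ Za := by rw [hZa]; exact (subset_union_right).trans (subset_insert _ _)
  refine ⟨y, hyX, Z₁ ∪ T₁, union_subset hZ1X ((hT1P.trans sdiff_subset).trans hP1X), Z₂ ∪ T₂,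
    union_subset hZ2X ((hT2P.trans sdiff_subset).trans hP2X), ?_, ?_, ?_, hT1E, hT2E⟩
  · rw [disjoint_union_left, disjoint_union_right, disjoint_union_right]
    exact ⟨⟨hZ12, (hT2Z.mono_right hZ1Za).symm⟩, hT1Z.mono_right hZ2Za, hT12⟩
  · rw [mem_union, not_or]
    exact ⟨hyZ1, fun h => disjoint_left.1 hT1Z h hyZa⟩
  · rw [mem_union, not_or]
    exact ⟨hyZ2, fun h => disjoint_left.1 hT2Z h hyZa⟩

end SPD
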