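import Pool.Agent.SPD.CutLin
import Pool.Agent.AE15.SuperC

/-!
# Small cuts

The first part of a two-sided cut is small compared with the tournament.
-/

namespace SPD

open Finset AE15
open scoped Classical

variable {V : Type*} {R : V → V → Prop}

/-- the elements below `z` in the poset: the in-neighbours of `z` in `G` without a dominator in `N⁺(z) ∩ G` -/
noncomputable def down (R : V → V → Prop) (G : Finset V) (z : V) : Finset V :=
  G.filter (fun u => R u z ∧ nI R G u ⊆ nI R G z)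

theorem mem_down {G : Finset V} {z u : V} : u ∈ down R G z ↔ u ∈ G ∧ R u z ∧ ∀ w ∈ G, R w u → R w z := by
  unfold down
  rw [mem_filter]
  constructor
  · rintro ⟨h1, h2, h3⟩
    exact ⟨h1, h2, fun w hw hwu => (mem_nI.1 (h3 (mem_nI.2 ⟨hw, hwu⟩))).2⟩
  · rintro ⟨h1, h2, h3⟩
    refine ⟨h1, h2, fun w hw => ?_⟩
    rw [mem_nI] at hw ⊢
    exact ⟨hw.1, h3 w hw.1 hw.2⟩

theorem down_sub_of_mem {G : Finset V} {z u : V} (h : u ∈ down R G z) : down R G u ⊆ down R G z := by
  intro v hv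
  rw [mem_down] at h hv ⊢
  exact ⟨hv.1, h.2.2 v hv.1 hv.2.1, fun w hw hwv => h.2.2 w hw (hv.2.2 w hw hwv)⟩

theorem notMem_down_self (hT : AE32.Tour R) {G : Finset V} {z : V} : z ∉ down R G z :=
  fun h => hT.irr _ (mem_down.1 h).2.1

/-- in-neighbours outside `down` have a dominator -/
theorem exists_dom_of_notMem_down (hT : AE32.Tour R) {G : Finset V} {z u : V} (hu : u ∈ G) (huz : R u z)
    (h : u ∉ down R G z) : ∃ w ∈ G, R z w ∧ R w u := by
  by_contra hc
  push Not at hc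
  apply h
  rw [mem_down]
  refine ⟨hu, huz, fun w hw hwu => ?_⟩
  rcases hT.tot w z (fun e => hT.asym _ _ huz (e ▸ hwu)) with h1 | h1
  · exact h1
  · exact absurd hwu (hc w hw h1)

theorem down_deg (hT : AE32.Tour R) {G : Finset V} {z u : V} (hz : z ∈ G) (h : u ∈ down R G z) :
    (nO R G z).card ≤ (nO R G u).card := by
  have h1 := card_nO_add_nI' hT hz
  have h2 := card_nO_add_nI' hT (mem_down.1 h).1
  have h3 : (nI R G u).card ≤ (nI R G z).card := by
    apply card_le_card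
    intro w hw
    rw [mem_nI] at hw ⊢
    exact ⟨hw.1, (mem_down.1 h).2.2 w hw.1 hw.2⟩
  omega

/-- if the sets `down` of the vertices of `Γ` (of large out-degree) are large, they are large outside `Γ` -/
theorem down_sdiff (hT : AE32.Tour R) {G Γ : Finset V} {t : ℝ} {m : ℕ} (hΓ : Γ ⊆ G)
    (hall : ∀ v ∈ Γ, t ≤ (nO R G v).card → m ≤ (down R G v).card) (v : V) (hv : v ∈ Γ) (ht : t ≤ (nO R G v).card) :
    m ≤ (down R G v \ Γ).card := by
  induction hk : (down R G v).card using Nat.strong_induction_on generalizing v with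
  | _ k ih =>
    by_cases h : ∃ u ∈ down R G v, u ∈ Γ
    · obtain ⟨u, hu, huΓ⟩ := h
      have h1 : down R G u ⊆ down R G v := down_sub_of_mem hu
      have h2 : (down R G u).card < k := by
        rw [← hk]
        exact card_lt_card ⟨h1, fun h3 => notMem_down_self hT (h3 hu)⟩
      have h3 : t ≤ (nO R G u).card := by
        have h4 : ((nO R G v).card : ℝ) ≤ (nO R G u).card := by exact_mod_cast down_deg hT (hΓ hv) hu
        linarith
      exact (ih _ h2 u huΓ h3 rfl).trans (card_le_card (sdiff_subset_sdiff h1 (Subset.refl _)))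
    · push Not at h
      have h1 : down R G v \ Γ = down R G v := by
        ext w
        rw [mem_sdiff]
        exact ⟨fun h2 => h2.1, fun h2 => ⟨h2, h w h2⟩⟩
      rw [h1]
      exact hall v hv ht

theorem Rea.of_good {X P : Finset V} {κ η t : ℝ} {w : V} (hP : P ⊆ X) (h : Good R κ η X w) (ht : η * X.card ≤ t) :
    Rea R X P (κ * X.card) t w := by
  obtain ⟨W, h1, h2⟩ := h.rch
  refine ⟨W, h1, ?_⟩
  have h3 : ((P \ W).card : ℝ) ≤ (X \ W).card := by
    exact_mod_cast card_le_card (sdiff_subset_sdiff hP (Subset.refl _))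
  linarith

/-- first case: a vertex of large in-degree with few in-neighbours without dominators -/
theorem small_one (hT : AE32.Tour R) {X G : Finset V} {z : V} {p : ℕ} {κ η t t' k' : ℝ} (hG : G ⊆ X)
    (hgood : ∀ g ∈ G, Good R κ η X g) (hzG : z ∈ G) (hp : p ≤ (nI R X z).card) (hdown : (down R G z).card ≤ p)
    (hout : ∀ u ∈ X, u ∉ G → (nO R G u).card < (nO R G z).card) (ht : η * X.card ≤ t) (ht' : 0 ≤ t') :
    ∃ P₁ P₂, Part X P₁ P₂ z ∧ P₁.card = p ∧ Sd R X P₂ (κ * X.card) t z ∧ Sd (rv R) (insert z P₁) P₁ k' t' z := by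
  have h1 : down R G z ⊆ nI R X z := by
    intro u hu
    rw [mem_down] at hu
    exact mem_nI.2 ⟨hG hu.1, hu.2.1⟩
  obtain ⟨P₁, h2, h3, h4⟩ := exists_subsuperset_card_eq h1 hdown hp
  have hzX : z ∈ X := hG hzG
  have hzP : z ∉ P₁ := fun h => hT.irr z (mem_nI.1 (h3 h)).2
  have hP₁X : P₁ ⊆ X := h3.trans nI_sub
  refine ⟨P₁, X \ insert z P₁, ⟨hzX, hP₁X, sdiff_subset, hzP, fun h => (mem_sdiff.1 h).2 (mem_insert_self _ _), ?_, ?_⟩,
    h4, ⟨Rea.of_good sdiff_subset (hgood z hzG) ht, ?_⟩, ⟨⟨P₁, ?_, ?_⟩, ?_⟩⟩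
  · rw [disjoint_left]
    intro u hu hu'
    exact (mem_sdiff.1 hu').2 (mem_insert_of_mem hu)
  · have h5 := card_sdiff_add_card_eq_card (insert_subset hzX hP₁X)
    rw [card_insert_of_notMem hzP] at h5
    omega
  · intro u hu
    rw [mem_sdiff, mem_insert, not_or] at hu
    obtain ⟨huX, huz, huP⟩ := hu
    rcases hT.tot z u (fun e => huz e.symm) with h5 | h5
    · exact Or.inl h5
    right
    have key : ∃ w ∈ G, R z w ∧ R w u := by
      by_cases huG : u ∈ G
      · exact exists_dom_of_notMem_down hT huG h5 (fun h => huP (h2 h))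
      · have h6 := hout u huX huG
        by_contra hc
        push Not at hc
        have h7 : nO R G z ⊆ nO R G u := by
          intro w hw
          rw [mem_nO] at hw ⊢
          refine ⟨hw.1, ?_⟩
          rcases hT.tot w u (fun e => huG (e ▸ hw.1)) with h8 | h8
          · exact absurd h8 (hc w hw.1 hw.2)
          · exact h8
        have := card_le_card h7
        omega
    obtain ⟨w, hw, hzw, hwu⟩ := key
    refine ⟨w, ?_, hzw, hwu, Rea.of_good sdiff_subset (hgood w hw) ht⟩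
    rw [mem_sdiff, mem_insert, not_or]
    exact ⟨hG hw, fun e => hT.irr _ (e ▸ hzw), fun h => hT.asym _ _ hzw (mem_nI.1 (h3 h)).2⟩
  · have h5 : nO (rv R) (insert z P₁) z = P₁ := by
      ext u
      rw [mem_nO, mem_insert]
      constructor
      · rintro ⟨h6 | h6, h7⟩
        · rw [h6] at h7
          exact absurd h7 (hT.irr z)
        · exact h6
      · intro h6
        exact ⟨Or.inr h6, (mem_nI.1 (h3 h6)).2⟩
    have h6 : Rch (rv R) (insert z P₁) k' z (nO (rv R) (insert z P₁) z) := Rch.base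
    rw [h5] at h6
    exact h6
  · simpa using ht'
  · intro u hu
    exact Or.inl (mem_nI.1 (h3 hu)).2

/-- second case: the domination property of the second part -/
theorem small_two (hT : AE32.Tour R) {X G Γ P₁ Z₂ : Finset V} {y : V} {p : ℕ} {d : ℝ} (hG : G ⊆ X)
    (hΓ : Γ = G.filter (fun z => p ≤ (nI R X z).card)) (hpart : Part (G \ Γ) P₁ Z₂ y) (hP₁ : P₁.card = p)
    (hdomZ : ∀ u ∈ Z₂, R u y → ∃ w ∈ Z₂, R y w ∧ R w u)
    (hdown : ∀ v ∈ Γ, d ≤ (nO R G v).card → p + 1 ≤ (down R G v \ Γ).card)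
    (hout : ∀ u ∈ X, u ∉ G → ((nO R G u).card : ℝ) < d) (hbig : d + 2 * p ≤ G.card) :
    ∀ u ∈ X \ insert y P₁, R y u ∨ ∃ w ∈ X \ insert y P₁, w ∈ G ∧ R y w ∧ R w u := by
  have hyG : y ∈ G := sdiff_subset hpart.ymem
  have hyΓ : y ∉ Γ := (mem_sdiff.1 hpart.ymem).2
  have hydeg : (nI R X y).card < p := by
    by_contra h
    push Not at h
    exact hyΓ (by rw [hΓ, mem_filter]; exact ⟨hyG, h⟩)
  have hZ : ∀ w ∈ Z₂, w ∈ X \ insert y P₁ := by
    intro w hw
    rw [mem_sdiff, mem_insert, not_or]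
    exact ⟨hG (sdiff_subset (hpart.sub2 hw)), fun e => hpart.y2 (e ▸ hw), fun h => disjoint_left.1 hpart.disj h hw⟩
  have hZG : ∀ w ∈ Z₂, w ∈ G := fun w hw => sdiff_subset (hpart.sub2 hw)
  intro u hu
  have hu' := hu
  rw [mem_sdiff, mem_insert, not_or] at hu'
  obtain ⟨huX, huy, huP⟩ := hu'
  rcases hT.tot y u (fun e => huy e.symm) with h1 | h1
  · exact Or.inl h1
  right
  -- a vertex with few out-neighbours in `G`
  have few : ((nO R G u).card : ℝ) < d → ∃ w ∈ X \ insert y P₁, w ∈ G ∧ R y w ∧ R w u := by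
    intro hd
    have h2 := card_nO_add_nI' hT hyG
    have h3 : (nI R G y).card ≤ (nI R X y).card := card_le_card (nI_mono hG)
    by_contra hc
    push Not at hc
    have h4 : nO R G y ⊆ P₁ ∪ nO R G u := by
      intro w hw
      rw [mem_nO] at hw
      rw [mem_union, mem_nO]
      by_cases hwP : w ∈ P₁
      · exact Or.inl hwP
      right
      refine ⟨hw.1, ?_⟩
      have hwy : w ≠ y := fun e => hT.irr y (e ▸ hw.2)
      have h5 := hc w (by rw [mem_sdiff, mem_insert, not_or]; exact ⟨hG hw.1, hwy, hwP⟩) hw.1 hw.2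
      rcases hT.tot w u (fun e => hT.asym _ _ hw.2 (e ▸ h1)) with h6 | h6
      · exact absurd h6 h5
      · exact h6
    have h5 := (card_le_card h4).trans (card_union_le _ _)
    have h6 : ((nO R G y).card : ℝ) ≤ P₁.card + (nO R G u).card := by exact_mod_cast h5
    rw [hP₁] at h6
    have h7 : (G.card : ℝ) ≤ (nO R G y).card + p := by
      have : G.card ≤ (nO R G y).card + p := by omega
      exact_mod_cast this
    linarith
  by_cases huG : u ∈ G
  · by_cases huΓ : u ∈ Γ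
    · by_cases hd : d ≤ (nO R G u).card
      · -- a vertex of `Γ`
        have h2 := hdown u huΓ hd
        have h3 : ∃ w ∈ Z₂, w ∈ down R G u := by
          by_contra hc
          push Not at hc
          have h4 : down R G u \ Γ ⊆ P₁ := by
            intro w hw
            rw [mem_sdiff] at hw
            have hw1 := mem_down.1 hw.1
            have h5 : w ∈ insert y (P₁ ∪ Z₂) := by
              rw [hpart.eq, mem_sdiff]
              exact ⟨hw1.1, hw.2⟩
            rw [mem_insert, mem_union] at h5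
            rcases h5 with h5 | h5 | h5
            · rw [h5] at hw1
              exact absurd h1 (hT.asym _ _ hw1.2.1)
            · exact h5
            · exact absurd hw.1 (hc w h5)
          have h5 := card_le_card h4
          omega
        obtain ⟨w, hwZ, hwd⟩ := h3
        rw [mem_down] at hwd
        rcases hT.tot y w (fun e => hpart.y2 (e ▸ hwZ)) with h4 | h4
        · exact ⟨w, hZ w hwZ, hwd.1, h4, hwd.2.1⟩
        · obtain ⟨w', hw', h4, h5⟩ := hdomZ w hwZ h4
          exact ⟨w', hZ w' hw', hZG w' hw', h4, hwd.2.2 w' (hZG w' hw') h5⟩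
      · exact few (not_le.1 hd)
    · have h2 : u ∈ insert y (P₁ ∪ Z₂) := by
        rw [hpart.eq, mem_sdiff]
        exact ⟨huG, huΓ⟩
      rw [mem_insert, mem_union] at h2
      rcases h2 with h2 | h2 | h2
      · exact absurd h2 huy
      · exact absurd h2 huP
      · obtain ⟨w, hw, h3, h4⟩ := hdomZ u h2 h1
        exact ⟨w, hZ w hw, hZG w hw, h3, h4⟩
  · exact few (hout u huX huG)

/-- the small cut, from the one-sided linear cut -/
theorem small_cut_aux (hT : AE32.Tour R) {X : Finset V} {p : ℕ} {κ₀ η : ℝ} (h0 : 0 < κ₀) (h1 : 20 * κ₀ ≤ η)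
    (h2 : η ≤ 1 / 4) (hp : 10 ≤ κ₀ * p) (hpn : p ≤ κ₀ * X.card)
    (hcut : ∀ Y : Finset V, 10 ≤ κ₀ * Y.card → 2 * η * Y.card ≤ p → p + 1 ≤ Y.card →
      ∃ y P₁ P₂, Part Y P₁ P₂ y ∧ P₁.card = p ∧ (∀ u ∈ P₂, R u y → ∃ w ∈ P₂, R y w ∧ R w u) ∧
        Sd (rv R) Y P₁ (κ₀ ^ 2 / 4 * Y.card) (2 * η * Y.card) y) :
    ∃ y P₁ P₂ X₁, Part X P₁ P₂ y ∧ P₁.card = p ∧ X₁ ⊆ X ∧ P₁ ⊆ X₁ ∧ y ∈ X₁ ∧ X₁.card ≤ 2 * p + 1 ∧
      Sd R X P₂ (κ₀ ^ 2 / 4 * X.card) (η * X.card) y ∧
      Sd (rv R) X₁ P₁ (κ₀ ^ 2 / 4 * X₁.card) (2 * η * X₁.card) y := by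
  have hη : 0 < η := by linarith
  have hXc : (0 : ℝ) ≤ X.card := Nat.cast_nonneg _
  have hκn : 10 ≤ κ₀ * X.card := by
    have h3 : (p : ℝ) ≤ X.card := by nlinarith
    have h4 := mul_le_mul_of_nonneg_left h3 h0.le
    linarith
  obtain ⟨G, hGX, hGc, hGgood, hGout⟩ := structure_lemma hT X (η := η) h0 (by linarith) (by linarith) (by linarith)
  have hGc' : 15 * (κ₀ * X.card) ≤ G.card := by
    have h3 : 15 * κ₀ * X.card ≤ (η - 5 * κ₀) * X.card := mul_le_mul_of_nonneg_right (by linarith) hXc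
    linarith
  set Γ := G.filter (fun z => p ≤ (nI R X z).card) with hΓ
  have hΓG : Γ ⊆ G := filter_subset _ _
  have hG0c : (G \ Γ).card ≤ 2 * p := by
    refine le_trans (card_le_card ?_) (card_low_in hT p X)
    intro u hu
    rw [mem_sdiff, hΓ, mem_filter, not_and] at hu
    rw [mem_low]
    exact ⟨hGX hu.1, not_le.1 (hu.2 hu.1)⟩
  by_cases hcase : ∃ z ∈ Γ, 2 * κ₀ * X.card ≤ (nO R G z).card ∧ (down R G z).card ≤ p
  · -- first case
    obtain ⟨z, hzΓ, hz1, hz2⟩ := hcase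
    have hzG := hΓG hzΓ
    have hzp : p ≤ (nI R X z).card := (mem_filter.1 hzΓ).2
    obtain ⟨P₁, P₂, h3, h4, h5, h6⟩ := small_one hT (t := η * X.card)
      (k' := κ₀ ^ 2 / 4 * (p + 1 : ℕ)) (t' := 2 * η * (p + 1 : ℕ)) hGX hGgood hzG hzp hz2 (by
        intro u hu huG
        have h7 := hGout u hu huG
        have h8 : ((nO R G u).card : ℝ) < (nO R G z).card := by linarith
        exact_mod_cast h8) le_rfl (by positivity)
    have h7 : (insert z P₁).card = p + 1 := by rw [card_insert_of_notMem h3.y1, h4]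
    refine ⟨z, P₁, P₂, insert z P₁, h3, h4, insert_subset h3.ymem h3.sub1, subset_insert _ _, mem_insert_self _ _, ?_,
      h5, ?_⟩
    · omega
    · rw [h7]
      exact h6
  · -- second case
    push Not at hcase
    have hdown := down_sdiff hT (t := 2 * κ₀ * X.card) (m := p + 1) hΓG (fun v hv hd => hcase v hv hd)
    -- `Γ` has vertices of large out-degree
    have hex : ∃ v ∈ Γ, 2 * κ₀ * X.card ≤ (nO R G v).card := by
      by_contra hc
      push Not at hc
      have h3 : G ⊆ (G \ Γ) ∪ G.filter (fun v => (nO R G v).card ≤ ⌊2 * κ₀ * X.card⌋₊) := by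
        intro v hv
        by_cases hvΓ : v ∈ Γ
        · exact mem_union_right _ (mem_filter.2 ⟨hv, Nat.le_floor (hc v hvΓ).le⟩)
        · exact mem_union_left _ (mem_sdiff.2 ⟨hv, hvΓ⟩)
      have h4 := (card_le_card h3).trans (card_union_le _ _)
      have h5 := card_low hT G ⌊2 * κ₀ * X.card⌋₊
      have h6 : ((⌊2 * κ₀ * X.card⌋₊ : ℕ) : ℝ) ≤ 2 * κ₀ * X.card := Nat.floor_le (by positivity)
      have h7 : (G.card : ℝ) ≤ 2 * p + (2 * (⌊2 * κ₀ * X.card⌋₊ : ℕ) + 1) := by
        have : G.card ≤ 2 * p + (2 * ⌊2 * κ₀ * X.card⌋₊ + 1) := by omega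
        exact_mod_cast this
      linarith
    obtain ⟨v, hvΓ, hv⟩ := hex
    have h3 : p + 1 ≤ (G \ Γ).card := by
      refine (hdown v hvΓ hv).trans (card_le_card (sdiff_subset_sdiff ?_ (Subset.refl _)))
      exact filter_subset _ _
    have hG0r : ((G \ Γ).card : ℝ) ≤ 2 * p := by exact_mod_cast hG0c
    have hG0r' : (p : ℝ) ≤ (G \ Γ).card := by exact_mod_cast (Nat.le_succ p).trans h3
    obtain ⟨y, P₁, Z₂, h4, h5, h6, h7⟩ := hcut (G \ Γ) (by
        have := mul_le_mul_of_nonneg_left hG0r' h0.le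
        linarith) (by
        have hp0 : (0 : ℝ) ≤ p := Nat.cast_nonneg _
        have h8 : 2 * η * (G \ Γ).card ≤ 2 * η * (2 * p) := mul_le_mul_of_nonneg_left hG0r (by positivity)
        nlinarith) h3
    have hyG : y ∈ G := sdiff_subset h4.ymem
    have hyX : y ∈ X := hGX hyG
    have hP₁X : P₁ ⊆ X := (h4.sub1.trans sdiff_subset).trans hGX
    have h8 := small_two hT (d := 2 * κ₀ * X.card) hGX hΓ h4 h5 h6 hdown hGout (by linarith)
    refine ⟨y, P₁, X \ insert y P₁, G \ Γ, ⟨hyX, hP₁X, sdiff_subset, h4.y1,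
      fun h => (mem_sdiff.1 h).2 (mem_insert_self _ _), ?_, ?_⟩, h5, sdiff_subset.trans hGX, h4.sub1, h4.ymem, by omega,
      ⟨Rea.of_good sdiff_subset (hGgood y hyG) le_rfl, ?_⟩, h7⟩
    · rw [disjoint_left]
      intro u hu hu'
      exact (mem_sdiff.1 hu').2 (mem_insert_of_mem hu)
    · have h9 := card_sdiff_add_card_eq_card (insert_subset hyX hP₁X)
      rw [card_insert_of_notMem h4.y1] at h9
      omega
    · intro u hu
      rcases h8 u hu with h9 | ⟨w, hw, hwG, h10, h11⟩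
      · exact Or.inl h9
      · exact Or.inr ⟨w, hw, h10, h11, Rea.of_good sdiff_subset (hGgood w hwG) le_rfl⟩

/-- **Small cut** -/
theorem small_cut (hT : AE32.Tour R) {X : Finset V} {p : ℕ} {κ₀ η : ℝ} (h0 : 0 < κ₀) (h1 : 20 * κ₀ ≤ η) (h2 : η ≤ 1 / 4)
    (hp : 10 ≤ κ₀ * p) (hpn : p ≤ κ₀ * X.card) :
    ∃ y P₁ P₂ X₁, Part X P₁ P₂ y ∧ P₁.card = p ∧ X₁ ⊆ X ∧ P₁ ⊆ X₁ ∧ y ∈ X₁ ∧ X₁.card ≤ 2 * p + 1 ∧
      Sd R X P₂ (κ₀ ^ 2 / 4 * X.card) (η * X.card) y ∧
      Sd (rv R) X₁ P₁ (κ₀ ^ 2 / 4 * X₁.card) (2 * η * X₁.card) y :=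
  small_cut_aux hT h0 h1 h2 hp hpn (fun _ hY1 hY2 hY3 => cut_half hT h0 h1 h2 hY1 hY2 hY3)

end SPD
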