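import Pool.Agent.SPD.CutLin
import Pool.Agent.SPD.SmallCut

/-!
# The cut lemma, all sizes
-/

namespace SPD

open Finset AE15
open scoped Classical

section cutall

variable {V : Type*} {R : V → V → Prop}

private theorem rch_le {X W : Finset V} {k k' : ℝ} {v : V} (h : Rch R X k v W) (hk : k' ≤ k) : Rch R X k' v W := by
  induction h with
  | base => exact Rch.base
  | step W z _ h1 h2 h3 ih => exact Rch.step W z ih h1 h2 (hk.trans h3)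

private theorem rea_le {X P : Finset V} {k k' t t' : ℝ} {w : V} (h : Rea R X P k t w) (hk : k' ≤ k) (ht : t ≤ t') :
    Rea R X P k' t' w := by
  obtain ⟨W, h1, h2⟩ := h
  exact ⟨W, rch_le h1 hk, h2.trans ht⟩

private theorem sd_le {X P : Finset V} {k k' t t' : ℝ} {y : V} (h : Sd R X P k t y) (hk : k' ≤ k) (ht : t ≤ t') :
    Sd R X P k' t' y := by
  refine ⟨rea_le h.1 hk ht, fun u hu => ?_⟩
  rcases h.2 u hu with h1 | ⟨w, h1, h2, h3, h4⟩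
  · exact Or.inl h1
  · exact Or.inr ⟨w, h1, h2, h3, rea_le h4 hk ht⟩

/-- **The cut lemma** -/
theorem cut_all {β ζ : ℝ} (hβ : 0 < β) (hβ1 : β ≤ 1) (hζ : 0 < ζ) (_hζ1 : ζ ≤ 1) : ∃ (κ ξ : ℝ) (n₀ : ℕ), 0 < κ ∧ κ ≤ 1 ∧
    0 < ξ ∧ ξ ≤ 1 ∧ ∀ {V : Type} {R : V → V → Prop}, AE32.Tour R → ∀ (X : Finset V) (p q : ℕ), p + q + 1 = X.card →
      n₀ ≤ p → p ≤ q → ∃ y P₁ P₂ X₁, Part X P₁ P₂ y ∧ P₁.card = p ∧ P₂.card = q ∧ X₁ ⊆ X ∧ P₁ ⊆ X₁ ∧ y ∈ X₁ ∧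
        (X₁ = X ∨ (X₁.card : ℝ) ≤ ζ * X.card) ∧ ξ * X₁.card ≤ p ∧ Sd R X P₂ (κ * X.card) (β * q) y ∧
        Sd (rv R) X₁ P₁ (κ * X₁.card) (β * p) y := by
  obtain ⟨η₁, hη₁⟩ : ∃ η₁ : ℝ, η₁ = β / 16 := ⟨_, rfl⟩
  obtain ⟨κ₀, hκ₀⟩ : ∃ κ₀ : ℝ, κ₀ = min (η₁ / 20) (ζ / 3) := ⟨_, rfl⟩
  obtain ⟨η₂, hη₂⟩ : ∃ η₂ : ℝ, η₂ = β * κ₀ / 4 := ⟨_, rfl⟩
  obtain ⟨κ₂, hκ₂⟩ : ∃ κ₂ : ℝ, κ₂ = η₂ / 20 := ⟨_, rfl⟩
  have e1 : 0 < η₁ := by rw [hη₁]; positivity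
  have e1' : η₁ ≤ 1 / 16 := by rw [hη₁]; linarith only [hβ1]
  have e2 : 0 < κ₀ := by rw [hκ₀]; positivity
  have e3 : κ₀ ≤ η₁ / 20 := by rw [hκ₀]; exact min_le_left _ _
  have e4 : κ₀ ≤ ζ / 3 := by rw [hκ₀]; exact min_le_right _ _
  have e5 : 0 < η₂ := by rw [hη₂]; positivity
  have e6 : 0 < κ₂ := by rw [hκ₂]; positivity
  have e7 : β * κ₀ ≤ 1 * κ₀ := mul_le_mul_of_nonneg_right hβ1 e2.le
  have e8 : η₂ ≤ κ₀ / 4 := by rw [hη₂]; linarith only [e7]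
  have e9 : κ₂ ≤ κ₀ := by rw [hκ₂]; linarith only [e8, e2]
  have e10 : κ₂ ≤ 1 := by linarith only [e9, e3, e1']
  have e11 : κ₂ ^ 2 ≤ κ₀ ^ 2 := pow_le_pow_left₀ e6.le e9 2
  have e12 : κ₂ ^ 2 ≤ 1 := pow_le_one₀ e6.le e10
  obtain ⟨n₀, hn₀⟩ := exists_nat_ge (10 / κ₂ + 1)
  have hn₀' : 10 / κ₂ ≤ n₀ := by linarith only [hn₀]
  rw [div_le_iff₀ e6] at hn₀'
  have hn₁ : (1 : ℝ) ≤ n₀ := by
    have : 0 ≤ 10 / κ₂ := by positivity
    linarith only [hn₀, this]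
  refine ⟨κ₂ ^ 2 / 4, κ₀, n₀, by positivity, by linarith only [e12], e2, by linarith only [e3, e1'], ?_⟩
  intro V R hT X p q hpq hp hpq'
  have hpR : (n₀ : ℝ) ≤ p := by exact_mod_cast hp
  have hpq1 : (p : ℝ) + q + 1 = X.card := by exact_mod_cast hpq
  have hpq2 : (p : ℝ) ≤ q := by exact_mod_cast hpq'
  have hp1 : (1 : ℝ) ≤ p := by linarith only [hpR, hn₁]
  have hk2p : 10 ≤ κ₂ * p := by
    have : (n₀ : ℝ) * κ₂ ≤ p * κ₂ := mul_le_mul_of_nonneg_right hpR e6.le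
    linarith only [this, hn₀']
  have hX0 : (0 : ℝ) ≤ X.card := Nat.cast_nonneg _
  have hXp : (p : ℝ) ≤ X.card := by linarith only [hpq1, Nat.cast_nonneg (α := ℝ) q]
  have hX4 : (X.card : ℝ) ≤ 4 * q := by linarith only [hpq1, hpq2, hp1]
  by_cases hcase : (p : ℝ) ≤ κ₀ * X.card
  · -- small cut
    have hk0p : 10 ≤ κ₀ * p := by
      have : κ₂ * (p : ℝ) ≤ κ₀ * p := mul_le_mul_of_nonneg_right e9 (by linarith only [hp1])
      linarith only [this, hk2p]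
    obtain ⟨y, P₁, P₂, X₁, h1, h2, h3, h4, h5, h6, h7, h8⟩ := small_cut hT (X := X) (p := p) (κ₀ := κ₀) (η := η₁) e2
      (by linarith only [e3]) (by linarith only [e1']) hk0p hcase
    have h6' : (X₁.card : ℝ) ≤ 3 * p := by
      have : (X₁.card : ℝ) ≤ 2 * p + 1 := by exact_mod_cast h6
      linarith only [this, hp1]
    have hX1 : (0 : ℝ) ≤ X₁.card := Nat.cast_nonneg _
    have h9 : P₂.card = q := by have := h1.card; omega
    refine ⟨y, P₁, P₂, X₁, h1, h2, h9, h3, h4, h5, Or.inr ?_, ?_, sd_le h7 ?_ ?_, sd_le h8 ?_ ?_⟩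
    · have : κ₀ * X.card ≤ ζ / 3 * X.card := mul_le_mul_of_nonneg_right e4 hX0
      linarith only [this, h6', hcase]
    · have : κ₀ * X₁.card ≤ 1 / 3 * X₁.card := mul_le_mul_of_nonneg_right (by linarith only [e3, e1']) hX1
      linarith only [this, h6']
    · exact mul_le_mul_of_nonneg_right (by linarith only [e11]) hX0
    · have : η₁ * X.card ≤ η₁ * (4 * q) := mul_le_mul_of_nonneg_left hX4 e1.le
      rw [hη₁] at this ⊢
      have h10 : 0 ≤ β * q := by positivity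
      linarith only [this, h10]
    · exact mul_le_mul_of_nonneg_right (by linarith only [e11]) hX1
    · have : η₁ * X₁.card ≤ η₁ * (3 * p) := mul_le_mul_of_nonneg_left h6' e1.le
      rw [hη₁] at this ⊢
      have h10 : 0 ≤ β * p := by positivity
      linarith only [this, h10]
  · -- linear cut
    push Not at hcase
    have h0 : η₂ * X.card ≤ κ₀ / 4 * X.card := mul_le_mul_of_nonneg_right e8 hX0
    have h0' : κ₀ * X.card ≤ 1 / 4 * X.card := mul_le_mul_of_nonneg_right (by linarith only [e3, e1']) hX0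
    have hbp : β * (κ₀ * X.card) ≤ β * p := mul_le_mul_of_nonneg_left hcase.le hβ.le
    have hbq : β * (p : ℝ) ≤ β * q := mul_le_mul_of_nonneg_left hpq2 hβ.le
    have hη : 2 * η₂ * X.card ≤ β * p := by
      rw [hη₂]
      have : 0 ≤ β * κ₀ * X.card := by positivity
      linarith only [hbp, this]
    obtain ⟨y, P₁, P₂, h1, h2, h3, h4⟩ := cut_full hT (X := X) (p := p) (κ₀ := κ₂) (η := η₂) e6
      (by rw [hκ₂]; linarith only) (by linarith only [e8, e3, e1']) (by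
        have : κ₂ * (p : ℝ) ≤ κ₂ * X.card := mul_le_mul_of_nonneg_left hXp e6.le
        linarith only [this, hk2p]) (by linarith only [h0, hcase, hX0, e2, mul_nonneg e2.le hX0])
      (by linarith only [h0, h0', hpq1, hpq2, hX0, hp1])
    have h9 : P₂.card = q := by have := h1.card; omega
    exact ⟨y, P₁, P₂, X, h1, h2, h9, Subset.refl _, h1.sub1, h1.ymem, Or.inl rfl, hcase.le,
      sd_le h3 le_rfl (hη.trans hbq), sd_le h4 le_rfl hη⟩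

end cutall

end SPD
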