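import Pool.Agent.SPD.Defs
import Pool.Agent.AECut.MaxCut
import Pool.Agent.AECut.StructP

/-!
# Linear cuts
-/

namespace SPD

open Finset AE15 AECut
open scoped Classical

variable {V : Type*} {R : V → V → Prop}

theorem cl_sub {κ₀ : ℝ} {X U : Finset V} : bad R κ₀ X U ⊆ X := filter_subset _ _

theorem cl_mem {κ₀ : ℝ} {X U : Finset V} {u : V} :
    u ∈ bad R κ₀ X U ↔ u ∈ X ∧ (u ∉ U ∨ ((nO R U u).card : ℝ) < 2 * κ₀ * X.card) := by simp [bad]

theorem cl_not {κ₀ : ℝ} {X U : Finset V} {u : V} (hu : u ∈ X) (h : u ∉ bad R κ₀ X U) :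
    u ∈ U ∧ 2 * κ₀ * X.card ≤ ((nO R U u).card : ℝ) := by
  rw [cl_mem, not_and, not_or, not_not, not_lt] at h
  exact h hu

theorem cl_few {κ₀ : ℝ} {X U : Finset V} (h0 : 0 < κ₀)
    (hU : ∀ z ∈ X, z ∉ U → ((nO R U z).card : ℝ) < κ₀ * X.card) {u : V} (hu : u ∈ bad R κ₀ X U) :
    ((nO R U u).card : ℝ) < 2 * κ₀ * X.card := by
  rw [cl_mem] at hu
  rcases hu.2 with h | h
  · have h1 := hU u hu.1 h
    have h2 : 0 ≤ κ₀ * X.card := by positivity
    linarith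
  · exact h

theorem cl_inter_card (hT : AE32.Tour R) {κ₀ : ℝ} {X U : Finset V} (h0 : 0 < κ₀) :
    ((bad R κ₀ X U ∩ U).card : ℝ) ≤ 4 * κ₀ * X.card + 1 := by
  have h1 := card_few hT U (k := 2 * κ₀ * X.card) (by positivity)
  have h2 : bad R κ₀ X U ∩ U ⊆ U.filter (fun v => ((nO R U v).card : ℝ) < 2 * κ₀ * X.card) := by
    intro u hu
    rw [mem_inter, cl_mem] at hu
    rw [mem_filter]
    exact ⟨hu.2, hu.1.2.resolve_left (not_not.2 hu.2)⟩
  have h3 : ((bad R κ₀ X U ∩ U).card : ℝ) ≤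
      ((U.filter (fun v => ((nO R U v).card : ℝ) < 2 * κ₀ * X.card)).card : ℝ) := by
    exact_mod_cast card_le_card h2
  linarith

theorem cl_card (hT : AE32.Tour R) {κ₀ : ℝ} {X U : Finset V} (h0 : 0 < κ₀) (hUX : U ⊆ X) :
    ((bad R κ₀ X U).card : ℝ) ≤ X.card - U.card + 4 * κ₀ * X.card + 1 := by
  have h1 := cl_inter_card hT (X := X) (U := U) h0
  have h2 : (bad R κ₀ X U).card ≤ (bad R κ₀ X U ∩ U).card + (X \ U).card := by
    rw [← card_inter_add_card_sdiff (bad R κ₀ X U) U]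
    exact Nat.add_le_add_left (card_le_card (sdiff_subset_sdiff cl_sub (Subset.refl _))) _
  have h3 : ((X \ U).card : ℝ) = X.card - U.card := by
    have := card_sdiff_add_card_eq_card hUX
    have h4 : ((X \ U).card : ℝ) + U.card = X.card := by exact_mod_cast this
    linarith
  have h4 : ((bad R κ₀ X U).card : ℝ) ≤ (bad R κ₀ X U ∩ U).card + (X \ U).card := by exact_mod_cast h2
  linarith

/-- a closed robust reach -/
theorem cl_rch (R : V → V → Prop) (X : Finset V) (κ : ℝ) (w : V) :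
    ∃ W ⊆ X, nO R X w ⊆ W ∧ Rch R X (κ * X.card) w W ∧ Closed R κ X W := by
  obtain ⟨W, hW, hmax⟩ := exists_max_image (X.powerset.filter (fun W => Rch R X (κ * X.card) w W)) (fun W => W.card)
    ⟨nO R X w, by simp only [mem_filter, mem_powerset]; exact ⟨AE15.nO_sub, Rch.base⟩⟩
  simp only [mem_filter, mem_powerset] at hW hmax
  refine ⟨W, hW.1, hW.2.nO_sub, hW.2, ?_⟩
  intro z hz hzW
  by_contra hc
  push Not at hc
  have h1 := hmax (insert z W) ⟨insert_subset hz hW.1, hW.2.step _ _ hz hzW hc⟩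
  rw [card_insert_of_notMem hzW] at h1
  omega

/-- **Reach lemma** -/
theorem reach_lin (hT : AE32.Tour R) {X U Em Z Z₁ Z₂ C : Finset V} {y w : V} {κ₀ η : ℝ} (h0 : 0 < κ₀)
    (h1 : 20 * κ₀ ≤ η) (h2 : η ≤ 1 / 4) (hn : 10 ≤ κ₀ * X.card)
    (hUr : ∀ C ⊆ X, Closed R (κ₀ ^ 2 / 4) X C → 2 * κ₀ * X.card ≤ ((U ∩ C).card : ℝ) →
        X \ U ⊆ C ∧ ((U \ C).card : ℝ) < Em.card + Z₁.card + η * X.card)
    (hUX : U ⊆ X) (hEm : Em ⊆ X) (hd : Disjoint Em (bad R κ₀ X U)) (hZ : Z = X \ (Em ∪ bad R κ₀ X U))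
    (hEmZ : ∀ e ∈ Em, ((nI R Z e).card : ℝ) ≤ 2 * κ₀ * X.card) (hcut : IsCut R Z Z₁ Z₂ y) (hw : w ∈ X)
    (hwb : w ∉ bad R κ₀ X U) (hCX : C ⊆ X) (hwC : nO R X w ⊆ C) (hC : Closed R (κ₀ ^ 2 / 4) X C) :
    (((Z₂ ∪ bad R κ₀ X U) \ C).card : ℝ) ≤ 2 * η * X.card := by
  obtain ⟨hwU, hw2⟩ := cl_not hw hwb
  have hUC : 2 * κ₀ * X.card ≤ ((U ∩ C).card : ℝ) := by
    refine hw2.trans ?_
    have : nO R U w ⊆ U ∩ C := by
      intro v hv
      rw [mem_inter]
      exact ⟨nO_sub hv, hwC (nO_mono hUX hv)⟩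
    exact_mod_cast card_le_card this
  obtain ⟨hXU, hUCs⟩ := hUr C hCX hC hUC
  have hZX : Z ⊆ X := by rw [hZ]; exact sdiff_subset
  have hcl := hcut.closed_out hT hZX h0 (by linarith) (by linarith) hC
  have hbi := cl_inter_card hT (X := X) (U := U) h0
  obtain ⟨n, hnd⟩ : ∃ n : ℝ, n = (X.card : ℝ) := ⟨_, rfl⟩
  rw [← hnd] at hn hUC hUCs hcl hbi hEmZ ⊢
  have hn0 : 0 < n := by
    by_contra hc
    push Not at hc
    have := mul_nonpos_of_nonneg_of_nonpos h0.le hc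
    linarith
  have hηn : 20 * (κ₀ * n) ≤ η * n := by
    have := mul_le_mul_of_nonneg_right h1 hn0.le
    linarith
  set Ep := bad R κ₀ X U with hEp
  -- the part of `Ep` outside `C`
  have hEpC : ((Ep \ C).card : ℝ) ≤ 4 * κ₀ * n + 1 := by
    refine le_trans ?_ hbi
    have : Ep \ C ⊆ Ep ∩ U := by
      intro v hv
      rw [mem_sdiff] at hv
      rw [mem_inter]
      refine ⟨hv.1, ?_⟩
      by_contra hvU
      exact hv.2 (hXU (mem_sdiff.2 ⟨cl_sub hv.1, hvU⟩))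
    exact_mod_cast card_le_card this
  by_cases hZ₂C : ((Z₂ \ C).card : ℝ) ≤ 4 * κ₀ * n
  · have h3 : ((Z₂ ∪ Ep) \ C).card ≤ (Z₂ \ C).card + (Ep \ C).card := by
      rw [union_sdiff_distrib]
      exact card_union_le _ _
    have h4 : (((Z₂ ∪ Ep) \ C).card : ℝ) ≤ (Z₂ \ C).card + (Ep \ C).card := by exact_mod_cast h3
    linarith
  push Not at hZ₂C
  have hZ₁C : ((Z₁ ∩ C).card : ℝ) ≤ κ₀ * n := by
    rcases hcl with h | h
    · exact h
    · linarith
  have hZ₁Z : Z₁ ⊆ Z := by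
    intro v hv
    rw [hcut.hZ]
    exact mem_insert_of_mem (mem_union_left _ hv)
  have hZ₂Z : Z₂ ⊆ Z := by
    intro v hv
    rw [hcut.hZ]
    exact mem_insert_of_mem (mem_union_right _ hv)
  have hyZ : y ∈ Z := by
    rw [hcut.hZ]
    exact mem_insert_self _ _
  have hZout : ∀ v ∈ Z, v ∉ Em ∧ v ∉ Ep := by
    intro v hv
    rw [hZ, mem_sdiff, mem_union, not_or] at hv
    exact hv.2
  -- the part of `Em` in `C`
  have hEmC : ((Em ∩ C).card : ℝ) < κ₀ ^ 2 / 2 * n := by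
    by_contra hcon
    push Not at hcon
    have h3 : ((Em ∩ C).card : ℝ) * ((Z₂ \ C).card - 2 * κ₀ * n) ≤ ar R (Em ∩ C) (Z₂ \ C) := by
      unfold ar
      push_cast
      rw [← nsmul_eq_mul]
      apply card_nsmul_le_sum
      intro a ha
      have haE := (mem_inter.1 ha).1
      have h4 := card_nO_add_nI hT (X := Z₂ \ C) (v := a) (fun h => (hZout a (hZ₂Z (mem_sdiff.1 h).1)).1 haE)
      have h5 : ((nI R (Z₂ \ C) a).card : ℝ) ≤ (nI R Z a).card := by
        exact_mod_cast card_le_card (nI_mono (sdiff_subset.trans hZ₂Z))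
      have h6 := hEmZ a haE
      have h7 : ((nO R (Z₂ \ C) a).card : ℝ) + (nI R (Z₂ \ C) a).card = (Z₂ \ C).card := by exact_mod_cast h4
      linarith
    have h4 : (ar R (Em ∩ C) (Z₂ \ C) : ℝ) ≤ κ₀ ^ 2 / 4 * n * (Z₂ \ C).card := by
      apply ar_le_of_few (C := C) inter_subset_right
      intro z hz
      rw [mem_sdiff] at hz
      have := hC z (hZX (hZ₂Z hz.1)) hz.2
      rw [hnd]
      exact this.le
    obtain ⟨e, he⟩ : ∃ e : ℝ, e = ((Em ∩ C).card : ℝ) := ⟨_, rfl⟩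
    obtain ⟨f, hf⟩ : ∃ f : ℝ, f = ((Z₂ \ C).card : ℝ) := ⟨_, rfl⟩
    rw [← he] at hcon h3
    rw [← hf] at hZ₂C h3 h4
    have he0 : 0 < e := lt_of_lt_of_le (by positivity) hcon
    have hf0 : 0 < f := lt_trans (by positivity) hZ₂C
    have h5 : e * (f / 2) < e * (f - 2 * κ₀ * n) := mul_lt_mul_of_pos_left (by linarith) he0
    have h6 : κ₀ ^ 2 / 2 * n * (f / 2) ≤ e * (f / 2) := mul_le_mul_of_nonneg_right hcon (by positivity)
    have h7 : κ₀ ^ 2 / 2 * n * (f / 2) = κ₀ ^ 2 / 4 * n * f := by ring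
    linarith
  -- counting
  have hκκ : κ₀ ^ 2 / 2 * n ≤ κ₀ * n := by
    have : κ₀ * (κ₀ * n) ≤ 1 * (κ₀ * n) := mul_le_mul_of_nonneg_right (by linarith) (by positivity)
    have h3 : κ₀ ^ 2 / 2 * n = κ₀ * (κ₀ * n) / 2 := by ring
    linarith
  have hXdec : X = (Em ∪ Z₁) ∪ insert y (Z₂ ∪ Ep) := by
    have h3 : X = (Em ∪ Ep) ∪ Z := by
      rw [hZ, union_sdiff_of_subset (union_subset hEm cl_sub)]
    rw [h3, hcut.hZ]
    ext v
    simp only [mem_union, mem_insert]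
    tauto
  have hc1 : X.card ≤ Em.card + Z₁.card + 1 + (Z₂ ∪ Ep).card := by
    have h3 : X.card ≤ ((Em ∪ Z₁) ∪ insert y (Z₂ ∪ Ep)).card := by rw [← hXdec]
    have h4 := card_union_le (Em ∪ Z₁) (insert y (Z₂ ∪ Ep))
    have h5 := card_union_le Em Z₁
    have h6 := card_insert_le y (Z₂ ∪ Ep)
    omega
  have hdisj : Disjoint (Em ∪ Z₁) (insert y (Z₂ ∪ Ep)) := by
    rw [disjoint_insert_right, disjoint_union_left, disjoint_union_right, disjoint_union_right, mem_union, not_or]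
    refine ⟨⟨(hZout y hyZ).1, hcut.h1⟩, ⟨?_, hd⟩, hcut.hd, ?_⟩
    · rw [disjoint_left]
      intro v h3 h4
      exact (hZout v (hZ₂Z h4)).1 h3
    · rw [disjoint_left]
      intro v h3 h4
      exact (hZout v (hZ₁Z h3)).2 h4
  have hcX : Em.card + Z₁.card + 1 + (Z₂ ∪ Ep).card = X.card := by
    have h3 : X.card = ((Em ∪ Z₁) ∪ insert y (Z₂ ∪ Ep)).card := by rw [← hXdec]
    rw [card_union_of_disjoint hdisj, card_union_of_disjoint, card_insert_of_notMem] at h3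
    · omega
    · rw [mem_union, not_or]
      exact ⟨hcut.h2, (hZout y hyZ).2⟩
    · rw [disjoint_left]
      intro v h3 h4
      exact (hZout v (hZ₁Z h4)).1 h3
  have hCc : C.card ≤ (Em ∩ C).card + (Z₁ ∩ C).card + 1 + ((Z₂ ∪ Ep) ∩ C).card := by
    have h3 : C ⊆ ((Em ∩ C) ∪ (Z₁ ∩ C)) ∪ insert y ((Z₂ ∪ Ep) ∩ C) := by
      intro v hv
      have h4 := hCX hv
      rw [hXdec] at h4
      simp only [mem_union, mem_insert, mem_inter] at h4 ⊢
      tauto
    have h4 := card_le_card h3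
    have h5 := card_union_le ((Em ∩ C) ∪ (Z₁ ∩ C)) (insert y ((Z₂ ∪ Ep) ∩ C))
    have h6 := card_union_le (Em ∩ C) (Z₁ ∩ C)
    have h7 := card_insert_le y ((Z₂ ∪ Ep) ∩ C)
    omega
  have hXC : (X \ C).card ≤ (U \ C).card := by
    apply card_le_card
    intro v hv
    rw [mem_sdiff] at hv ⊢
    refine ⟨?_, hv.2⟩
    by_contra hvU
    exact hv.2 (hXU (mem_sdiff.2 ⟨hv.1, hvU⟩))
  have hXC' : (X \ C).card + C.card = X.card := card_sdiff_add_card_eq_card hCX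
  have hZE : ((Z₂ ∪ Ep) \ C).card + ((Z₂ ∪ Ep) ∩ C).card = (Z₂ ∪ Ep).card := card_sdiff_add_card_inter _ _
  have f1 : (Em.card : ℝ) + Z₁.card + 1 + (Z₂ ∪ Ep).card = n := by rw [hnd]; exact_mod_cast hcX
  have f2 : (C.card : ℝ) ≤ (Em ∩ C).card + (Z₁ ∩ C).card + 1 + ((Z₂ ∪ Ep) ∩ C).card := by exact_mod_cast hCc
  have f3 : ((X \ C).card : ℝ) ≤ (U \ C).card := by exact_mod_cast hXC
  have f4 : ((X \ C).card : ℝ) + C.card = n := by rw [hnd]; exact_mod_cast hXC'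
  have f5 : (((Z₂ ∪ Ep) \ C).card : ℝ) + ((Z₂ ∪ Ep) ∩ C).card = (Z₂ ∪ Ep).card := by exact_mod_cast hZE
  linarith

/-- one side of a linear cut -/
theorem side_sd (hT : AE32.Tour R) {X U Em Z Z₁ Z₂ : Finset V} {y : V} {κ₀ η : ℝ} (h0 : 0 < κ₀)
    (h1 : 20 * κ₀ ≤ η) (h2 : η ≤ 1 / 4) (hn : 10 ≤ κ₀ * X.card)
    (hU : ∀ z ∈ X, z ∉ U → ((nO R U z).card : ℝ) < κ₀ * X.card)
    (hUr : ∀ C ⊆ X, Closed R (κ₀ ^ 2 / 4) X C → 2 * κ₀ * X.card ≤ ((U ∩ C).card : ℝ) →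
        X \ U ⊆ C ∧ ((U \ C).card : ℝ) < Em.card + Z₁.card + η * X.card)
    (hUX : U ⊆ X) (hEm : Em ⊆ X) (hd : Disjoint Em (bad R κ₀ X U)) (hZ : Z = X \ (Em ∪ bad R κ₀ X U))
    (hEmZ : ∀ e ∈ Em, ((nI R Z e).card : ℝ) ≤ 2 * κ₀ * X.card) (hcut : IsCut R Z Z₁ Z₂ y)
    (hZ₂ : 4 * κ₀ * X.card < Z₂.card) :
    Sd R X (Z₂ ∪ bad R κ₀ X U) (κ₀ ^ 2 / 4 * X.card) (2 * η * X.card) y := by
  have hZX : Z ⊆ X := by rw [hZ]; exact sdiff_subset
  have hZ₂Z : Z₂ ⊆ Z := by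
    intro v hv
    rw [hcut.hZ]
    exact mem_insert_of_mem (mem_union_right _ hv)
  have hyZ : y ∈ Z := by
    rw [hcut.hZ]
    exact mem_insert_self _ _
  have hZout : ∀ v ∈ Z, v ∉ Em ∧ v ∉ bad R κ₀ X U := by
    intro v hv
    rw [hZ, mem_sdiff, mem_union, not_or] at hv
    exact hv.2
  have hrea : ∀ w ∈ Z, Rea R X (Z₂ ∪ bad R κ₀ X U) (κ₀ ^ 2 / 4 * X.card) (2 * η * X.card) w := by
    intro w hw
    obtain ⟨W, hWX, hwW, hWr, hWc⟩ := cl_rch R X (κ₀ ^ 2 / 4) w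
    exact ⟨W, hWr, reach_lin hT h0 h1 h2 hn hUr hUX hEm hd hZ hEmZ hcut (hZX hw) (hZout w hw).2 hWX hwW hWc⟩
  refine ⟨hrea y hyZ, ?_⟩
  intro u hu
  by_cases hyu : R y u
  · exact Or.inl hyu
  right
  rw [mem_union] at hu
  have key : (nI R (nO R Z₂ y) u).Nonempty := by
    rcases hu with hu | hu
    · have huy : R u y := (hT.tot u y (fun e => hcut.h2 (e ▸ hu))).resolve_right hyu
      have h3 := hcut.dom_out hT u hu huy
      rw [← card_pos]
      omega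
    · have hu2 : u ∉ Z₂ := fun h => (hZout u (hZ₂Z h)).2 hu
      have h3 := hcut.dom_out_few hT hu2
      have h4 := cl_few h0 hU hu
      have h5 : ((nO R Z u).card : ℝ) ≤ (nO R U u).card := by
        apply Nat.cast_le.2
        apply card_le_card
        apply nO_mono
        intro v hv
        exact (cl_not (hZX hv) (hZout v hv).2).1
      rw [← card_pos]
      have h6 : (Z₂.card : ℝ) ≤ 2 * (nI R (nO R Z₂ y) u).card + 2 * (nO R Z u).card := by exact_mod_cast h3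
      have h7 : (0 : ℝ) < (nI R (nO R Z₂ y) u).card := by linarith
      exact_mod_cast h7
  obtain ⟨w, hw⟩ := key
  rw [mem_nI, mem_nO] at hw
  exact ⟨w, mem_union_left _ hw.1.1, hw.1.2, hw.2, hrea w (hZ₂Z hw.1.1)⟩

/-- the partition of a cut, with the exceptional vertices -/
theorem part_of_cut {X Em Ep Z Z₁ Z₂ : Finset V} {y : V} (hEm : Em ⊆ X) (hEp : Ep ⊆ X) (hd : Disjoint Em Ep)
    (hZ : Z = X \ (Em ∪ Ep)) (hcut : IsCut R Z Z₁ Z₂ y) : Part X (Z₁ ∪ Em) (Z₂ ∪ Ep) y ∧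
      (Z₁ ∪ Em).card = Z₁.card + Em.card := by
  have hZX : Z ⊆ X := by rw [hZ]; exact sdiff_subset
  have hZ₁Z : Z₁ ⊆ Z := by
    intro v hv
    rw [hcut.hZ]
    exact mem_insert_of_mem (mem_union_left _ hv)
  have hZ₂Z : Z₂ ⊆ Z := by
    intro v hv
    rw [hcut.hZ]
    exact mem_insert_of_mem (mem_union_right _ hv)
  have hyZ : y ∈ Z := by
    rw [hcut.hZ]
    exact mem_insert_self _ _
  have hZout : ∀ v ∈ Z, v ∉ Em ∧ v ∉ Ep := by
    intro v hv
    rw [hZ, mem_sdiff, mem_union, not_or] at hv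
    exact hv.2
  have d1 : Disjoint Z₁ Em := by
    rw [disjoint_left]
    exact fun v h3 h4 => (hZout v (hZ₁Z h3)).1 h4
  have d2 : Disjoint Z₂ Ep := by
    rw [disjoint_left]
    exact fun v h3 h4 => (hZout v (hZ₂Z h3)).2 h4
  have d3 : Disjoint Z₁ Ep := by
    rw [disjoint_left]
    exact fun v h3 h4 => (hZout v (hZ₁Z h3)).2 h4
  have d4 : Disjoint Em Z₂ := by
    rw [disjoint_left]
    exact fun v h3 h4 => (hZout v (hZ₂Z h4)).1 h3
  have hc : (Z₁ ∪ Em).card = Z₁.card + Em.card := card_union_of_disjoint d1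
  refine ⟨⟨hZX hyZ, union_subset (hZ₁Z.trans hZX) hEm, union_subset (hZ₂Z.trans hZX) hEp, ?_, ?_, ?_, ?_⟩, hc⟩
  · rw [mem_union, not_or]
    exact ⟨hcut.h1, (hZout y hyZ).1⟩
  · rw [mem_union, not_or]
    exact ⟨hcut.h2, (hZout y hyZ).2⟩
  · rw [disjoint_union_left, disjoint_union_right, disjoint_union_right]
    exact ⟨⟨hcut.hd, d3⟩, d4, hd⟩
  · rw [hc, card_union_of_disjoint d2]
    have h1 : Z.card = Z₁.card + Z₂.card + 1 := by
      rw [hcut.hZ, card_insert_of_notMem (by rw [mem_union, not_or]; exact ⟨hcut.h1, hcut.h2⟩),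
        card_union_of_disjoint hcut.hd]
    have h2 : (X \ (Em ∪ Ep)).card + (Em ∪ Ep).card = X.card := card_sdiff_add_card_eq_card (union_subset hEm hEp)
    rw [← hZ, card_union_of_disjoint hd] at h2
    omega

/-- **Linear cut, both sides** -/
theorem cut_full (hT : AE32.Tour R) {X : Finset V} {p : ℕ} {κ₀ η : ℝ} (h0 : 0 < κ₀) (h1 : 20 * κ₀ ≤ η) (h2 : η ≤ 1 / 4)
    (hn : 10 ≤ κ₀ * X.card) (hp : 2 * η * X.card ≤ p) (hq : p + 2 * η * X.card ≤ X.card) :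
    ∃ y P₁ P₂, Part X P₁ P₂ y ∧ P₁.card = p ∧ Sd R X P₂ (κ₀ ^ 2 / 4 * X.card) (2 * η * X.card) y ∧
      Sd (rv R) X P₁ (κ₀ ^ 2 / 4 * X.card) (2 * η * X.card) y := by
  obtain ⟨n, hnd⟩ : ∃ n : ℝ, n = (X.card : ℝ) := ⟨_, rfl⟩
  have hn' := hn
  rw [← hnd] at hn' hp hq
  have hn0 : 0 < n := by
    by_contra hc
    push Not at hc
    have := mul_nonpos_of_nonneg_of_nonpos h0.le hc
    linarith
  have hηn : 20 * (κ₀ * n) ≤ η * n := by
    have := mul_le_mul_of_nonneg_right h1 hn0.le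
    linarith
  obtain ⟨U, hUX, hUs, hU, hUr⟩ := struct_size hT X (s := p + η * X.card) h0 (by linarith) (by
    rw [← hnd]; linarith) (by linarith)
  obtain ⟨O, hOX, hOs, hO, hOr⟩ := struct_size (rv_tour hT) X (s := X.card - 1 - p + η * X.card) h0 (by linarith) (by
    rw [← hnd]; linarith) (by linarith)
  have hbp := cl_card hT (X := X) (U := U) h0 hUX
  have hbm := cl_card (rv_tour hT) (X := X) (U := O) h0 hOX
  rw [← hnd] at hUs hOs hbp hbm
  -- the exceptional sets are disjoint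
  have hd : Disjoint (bad (rv R) κ₀ X O) (bad R κ₀ X U) := by
    rw [disjoint_left]
    intro u hu1 hu2
    have h3 := cl_few h0 hO hu1
    have h4 := cl_few h0 hU hu2
    rw [← hnd] at h3 h4
    have h5 : (X.card : ℝ) ≥ (U ∪ O).card := by exact_mod_cast card_le_card (union_subset hUX hOX)
    have h6 : ((U ∪ O).card : ℝ) + (U ∩ O).card = U.card + O.card := by exact_mod_cast card_union_add_card_inter U O
    have h7 : ((U ∩ O).card : ℝ) ≤ (nO R (U ∩ O) u).card + (nI R (U ∩ O) u).card + 1 := by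
      by_cases hu : u ∈ U ∩ O
      · have := card_nO_add_nI' hT hu
        exact_mod_cast this.ge
      · have := card_nO_add_nI hT hu
        exact_mod_cast (by omega : (U ∩ O).card ≤ (nO R (U ∩ O) u).card + (nI R (U ∩ O) u).card + 1)
    have h8 : ((nO R (U ∩ O) u).card : ℝ) ≤ (nO R U u).card := by
      exact_mod_cast card_le_card (nO_mono inter_subset_left)
    have h9 : ((nI R (U ∩ O) u).card : ℝ) ≤ (nI R O u).card := by
      exact_mod_cast card_le_card (nI_mono inter_subset_right)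
    rw [nO_rv] at h3
    rw [← hnd] at h5
    linarith
  set Em := bad (rv R) κ₀ X O with hEm
  set Ep := bad R κ₀ X U with hEp
  have hEmX : Em ⊆ X := cl_sub
  have hEpX : Ep ⊆ X := cl_sub
  set Z := X \ (Em ∪ Ep) with hZ
  have hZc : Z.card + (Em.card + Ep.card) = X.card := by
    rw [← card_union_of_disjoint hd]
    exact card_sdiff_add_card_eq_card (union_subset hEmX hEpX)
  have hEmp : Em.card ≤ p := by
    have : (Em.card : ℝ) ≤ p := by linarith
    exact_mod_cast this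
  have hEpq : Ep.card + p + 1 ≤ X.card := by
    have : (Ep.card : ℝ) + p + 1 ≤ X.card := by rw [← hnd]; linarith
    exact_mod_cast this
  obtain ⟨Z₁, Z₂, y, hcut, hc1, hc2⟩ := exists_cut hT Z (p - Em.card) (X.card - 1 - p - Ep.card) (by omega)
  obtain ⟨hpart, hpc⟩ := part_of_cut hEmX hEpX hd hZ hcut
  have hZ₁r : (Em.card : ℝ) + Z₁.card = p := by
    rw [hc1]; push_cast [hEmp]; ring
  have hZ₂r : (Ep.card : ℝ) + Z₂.card = n - 1 - p := by
    have : Ep.card + Z₂.card + 1 + p = X.card := by omega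
    have h3 : (Ep.card : ℝ) + Z₂.card + 1 + p = n := by rw [hnd]; exact_mod_cast this
    linarith
  have hZout : ∀ v ∈ Z, v ∈ X ∧ v ∉ Em ∧ v ∉ Ep := by
    intro v hv
    rw [hZ, mem_sdiff, mem_union, not_or] at hv
    exact ⟨hv.1, hv.2⟩
  refine ⟨y, Z₁ ∪ Em, Z₂ ∪ Ep, hpart, by omega, ?_, ?_⟩
  · refine side_sd hT h0 h1 h2 hn hU ?_ hUX hEmX hd hZ ?_ hcut ?_
    · intro C hCX hC hUC
      have h3 := hUr C hCX hC hUC
      rw [hZ₁r]
      exact h3
    · intro e he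
      have h3 := cl_few h0 hO he
      rw [nO_rv] at h3
      refine le_trans ?_ h3.le
      apply Nat.cast_le.2
      apply card_le_card
      apply nI_mono
      intro v hv
      exact (cl_not (hZout v hv).1 (hZout v hv).2.1).1
    · rw [← hnd]
      linarith
  · have hcut' : IsCut (rv R) Z Z₂ Z₁ y := hcut.rev
    refine side_sd (rv_tour hT) (Em := Ep) h0 h1 h2 hn hO ?_ hOX hEpX hd.symm (by rw [hZ, union_comm]) ?_ hcut' ?_
    · intro C hCX hC hUC
      have h3 := hOr C hCX hC hUC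
      rw [hZ₂r, hnd]
      exact h3
    · intro e he
      have h3 := cl_few h0 hU he
      rw [nI_rv]
      refine le_trans ?_ h3.le
      apply Nat.cast_le.2
      apply card_le_card
      apply nO_mono
      intro v hv
      exact (cl_not (hZout v hv).1 (hZout v hv).2.2).1
    · rw [← hnd]
      linarith

/-- **Linear cut, one side only** (`bad` is not used on the side of `P₂`) -/
theorem cut_half (hT : AE32.Tour R) {X : Finset V} {p : ℕ} {κ₀ η : ℝ} (h0 : 0 < κ₀) (h1 : 20 * κ₀ ≤ η) (h2 : η ≤ 1 / 4)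
    (hn : 10 ≤ κ₀ * X.card) (hp : 2 * η * X.card ≤ p) (hq : p + 1 ≤ X.card) :
    ∃ y P₁ P₂, Part X P₁ P₂ y ∧ P₁.card = p ∧ (∀ u ∈ P₂, R u y → ∃ w ∈ P₂, R y w ∧ R w u) ∧
      Sd (rv R) X P₁ (κ₀ ^ 2 / 4 * X.card) (2 * η * X.card) y := by
  obtain ⟨n, hnd⟩ : ∃ n : ℝ, n = (X.card : ℝ) := ⟨_, rfl⟩
  have hn' := hn
  rw [← hnd] at hn' hp
  have hn0 : 0 < n := by
    by_contra hc
    push Not at hc
    have := mul_nonpos_of_nonneg_of_nonpos h0.le hc
    linarith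
  have hηn : 20 * (κ₀ * n) ≤ η * n := by
    have := mul_le_mul_of_nonneg_right h1 hn0.le
    linarith
  have hqr : (p : ℝ) + 1 ≤ n := by rw [hnd]; exact_mod_cast hq
  obtain ⟨O, hOX, hOs, hO, hOr⟩ := struct_size (rv_tour hT) X (s := X.card - 1 - p + η * X.card) h0 (by linarith) (by
    rw [← hnd]; linarith) (by linarith)
  have hbm := cl_card (rv_tour hT) (X := X) (U := O) h0 hOX
  rw [← hnd] at hOs hbm
  set Em := bad (rv R) κ₀ X O with hEm
  have hEmX : Em ⊆ X := cl_sub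
  have hd : Disjoint Em (∅ : Finset V) := disjoint_empty_right _
  set Z := X \ (Em ∪ ∅) with hZ
  have hZc : Z.card + Em.card = X.card := by
    rw [hZ, union_empty]
    exact card_sdiff_add_card_eq_card hEmX
  have hEmp : Em.card ≤ p := by
    have : (Em.card : ℝ) ≤ p := by linarith
    exact_mod_cast this
  obtain ⟨Z₁, Z₂, y, hcut, hc1, hc2⟩ := exists_cut hT Z (p - Em.card) (X.card - 1 - p) (by omega)
  obtain ⟨hpart, hpc⟩ := part_of_cut hEmX (empty_subset X) hd hZ hcut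
  have hZ₁r : (Em.card : ℝ) + Z₁.card = p := by
    rw [hc1]; push_cast [hEmp]; ring
  have hZ₂r : (((∅ : Finset V)).card : ℝ) + Z₂.card = n - 1 - p := by
    have : Z₂.card + 1 + p = X.card := by omega
    have h3 : (Z₂.card : ℝ) + 1 + p = n := by rw [hnd]; exact_mod_cast this
    rw [card_empty, Nat.cast_zero]
    linarith
  rw [union_empty] at hpart
  refine ⟨y, Z₁ ∪ Em, Z₂, hpart, by omega, ?_, ?_⟩
  · intro u hu huy
    have h3 := hcut.dom_out hT u hu huy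
    have h4 : (nI R (nO R Z₂ y) u).Nonempty := by
      rw [← card_pos]
      omega
    obtain ⟨w, hw⟩ := h4
    rw [mem_nI, mem_nO] at hw
    exact ⟨w, hw.1.1, hw.1.2, hw.2⟩
  · have hcut' : IsCut (rv R) Z Z₂ Z₁ y := hcut.rev
    refine side_sd (rv_tour hT) (Em := ∅) h0 h1 h2 hn hO ?_ hOX (empty_subset X) (disjoint_empty_left _)
      (by rw [hZ, union_comm]) (by simp) hcut' ?_
    · intro C hCX hC hUC
      have h3 := hOr C hCX hC hUC
      rw [hZ₂r, hnd]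
      exact h3
    · rw [← hnd]
      linarith

end SPD
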