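import Pool.Agent.SPD.Defs
import Pool.Agent.AE32.Arb

/-!
# Module L: from a tree with a vertex comparable to all the others to two coded forests
-/

namespace SPD

open Finset Relation AE15
open scoped Classical

section glue

variable {τ : Type*} [Fintype τ] {E : τ → τ → Prop}

/-- the forest `F` codes the trees below the vertices of the list `l` -/
private def CodesL (E : τ → τ → Prop) (b : ℕ) (l : List τ) (F : Fo) : Prop :=
  F.size = (l.map (fun c => (AE32.desc E c).card)).sum ∧ F.len = l.length ∧ F.Deg b ∧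
    ∀ {V : Type} {R : V → V → Prop} {N : V → Prop} {S : Finset V}, Nonempty V → Emb R F N S →
      ∃ f : τ → V, (∀ c ∈ l, N (f c)) ∧ (∀ c ∈ l, ∀ a ∈ AE32.desc E c, f a ∈ S) ∧
        (∀ c ∈ l, ∀ a ∈ AE32.desc E c, ∀ c' ∈ l, ∀ a' ∈ AE32.desc E c', f a = f a' → a = a') ∧
        ∀ c ∈ l, ∀ a ∈ AE32.desc E c, ∀ a', E a a' → R (f a) (f a')

/-- the tree with children forest `c` codes the tree below `v` -/
private def Codes (E : τ → τ → Prop) (b : ℕ) (v : τ) (c : Fo) : Prop :=
  c.size + 1 = (AE32.desc E v).card ∧ c.len ≤ b ∧ c.Deg b ∧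
    ∀ {V : Type} {R : V → V → Prop} {N : V → Prop} {S : Finset V}, Emb R (.node c .nil) N S →
      ∃ f : τ → V, N (f v) ∧ (∀ a ∈ AE32.desc E v, f a ∈ S) ∧
        (∀ a ∈ AE32.desc E v, ∀ a' ∈ AE32.desc E v, f a = f a' → a = a') ∧
        ∀ a ∈ AE32.desc E v, ∀ a', E a a' → R (f a) (f a')

private theorem codesL_of (b : ℕ) (l : List τ) (hl : l.Nodup)
    (hdis : ∀ c ∈ l, ∀ d ∈ l, c ≠ d → Disjoint (AE32.desc E c) (AE32.desc E d))
    (h : ∀ c ∈ l, ∃ F, Codes E b c F) : ∃ F, CodesL E b l F := by
  induction l with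
  | nil =>
    refine ⟨.nil, rfl, rfl, trivial, ?_⟩
    intro V R N S hV _
    exact ⟨fun _ => Classical.choice hV, by simp, by simp, by simp, by simp⟩
  | cons c l ih =>
    rw [List.nodup_cons] at hl
    obtain ⟨F, hF1, hF2, hF3, hF4⟩ := ih hl.2
      (fun c hc d hd => hdis c (List.mem_cons_of_mem _ hc) d (List.mem_cons_of_mem _ hd))
      (fun c hc => h c (List.mem_cons_of_mem _ hc))
    obtain ⟨G, hG1, hG2, hG3, hG4⟩ := h c List.mem_cons_self
    have hcl : ∀ d ∈ l, Disjoint (AE32.desc E c) (AE32.desc E d) := fun d hd =>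
      hdis c List.mem_cons_self d (List.mem_cons_of_mem _ hd) (fun e => hl.1 (e ▸ hd))
    have hnot : ∀ d ∈ l, ∀ a ∈ AE32.desc E d, a ∉ AE32.desc E c := fun d hd a ha ha' =>
      (Finset.disjoint_left.1 (hcl d hd)) ha' ha
    refine ⟨.node G F, ?_, ?_, ⟨hG2, hG3, hF3⟩, ?_⟩
    · simp only [Fo.size, List.map_cons, List.sum_cons, ← hF1, ← hG1]
      omega
    · simp [Fo.len, hF2]
    · intro V R N S hV hS
      obtain ⟨x, A, B, hx, hxA, hxB, hAB, rfl, hA, hB⟩ := hS
      obtain ⟨f₁, p1, p2, p3, p4⟩ := hG4 (V := V) (R := R) (N := N) (S := insert x A)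
        ⟨x, A, ∅, hx, hxA, by simp, by simp, by simp, hA, rfl⟩
      obtain ⟨f₂, q1, q2, q3, q4⟩ := hF4 hV hB
      have hsep : Disjoint (insert x A) B := by
        rw [disjoint_insert_left]
        exact ⟨hxB, hAB⟩
      refine ⟨fun a => if a ∈ AE32.desc E c then f₁ a else f₂ a, ?_, ?_, ?_, ?_⟩
      · intro d hd
        rcases List.mem_cons.1 hd with rfl | hd
        · simp only [AE32.self_mem_desc, if_true]
          exact p1
        · simp only [hnot d hd d (AE32.self_mem_desc d), if_false]
          exact q1 d hd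
      · intro d hd a ha
        rcases List.mem_cons.1 hd with rfl | hd
        · simp only [ha, if_true]
          have := p2 a ha
          rw [mem_insert] at this
          simp only [mem_insert, mem_union]
          tauto
        · simp only [hnot d hd a ha, if_false]
          exact mem_insert_of_mem (mem_union_right _ (q2 d hd a ha))
      · intro d hd a ha d' hd' a' ha' haa
        rcases List.mem_cons.1 hd with e | hd1
        · rw [e] at ha
          rcases List.mem_cons.1 hd' with e' | hd2
          · rw [e'] at ha'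
            simp only [ha, ha', if_true] at haa
            exact p3 a ha a' ha' haa
          · simp only [ha, if_true, hnot d' hd2 a' ha', if_false] at haa
            exact absurd (haa ▸ q2 d' hd2 a' ha') ((Finset.disjoint_left.1 hsep) (p2 a ha))
        · rcases List.mem_cons.1 hd' with e' | hd2
          · rw [e'] at ha'
            simp only [ha', if_true, hnot d hd1 a ha, if_false] at haa
            exact absurd (haa.symm ▸ q2 d hd1 a ha) ((Finset.disjoint_left.1 hsep) (p2 a' ha'))
          · simp only [hnot d hd1 a ha, hnot d' hd2 a' ha', if_false] at haa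
            exact q3 d hd1 a ha d' hd2 a' ha' haa
      · intro d hd a ha a' haa
        rcases List.mem_cons.1 hd with rfl | hd
        · have ha' : a' ∈ AE32.desc E d := AE32.mem_desc.2 ((AE32.mem_desc.1 ha).tail haa)
          simp only [ha, ha', if_true]
          exact p4 a ha a' haa
        · have ha' : a' ∈ AE32.desc E d := AE32.mem_desc.2 ((AE32.mem_desc.1 ha).tail haa)
          simp only [hnot d hd a ha, hnot d hd a' ha', if_false]
          exact q4 d hd a ha a' haa

private theorem codes_of {h : τ → ℕ} (hE : ∀ a b, E a b → h a < h b) (hin : ∀ a b c, E a c → E b c → a = b)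
    {b : ℕ} (hout : ∀ v, {w | E v w}.ncard ≤ b) (n : ℕ) :
    ∀ v, (AE32.desc E v).card = n → ∃ c, Codes E b v c := by
  induction n using Nat.strong_induction_on with
  | _ n ih =>
    intro v hv
    set ch : Finset τ := univ.filter (fun w => E v w) with hch
    have hmem : ∀ c, c ∈ ch.toList ↔ E v c := by
      intro c
      rw [Finset.mem_toList, hch, mem_filter]
      simp
    obtain ⟨F, hF1, hF2, hF3, hF4⟩ := codesL_of (E := E) b ch.toList (Finset.nodup_toList _)
      (fun c hc d hd hcd => AE32.desc_disjoint hE hin ((hmem c).1 hc) ((hmem d).1 hd) hcd)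
      (fun c hc => ih _ (by
        rw [← hv]
        refine card_lt_card ⟨AE32.desc_subset ((hmem c).1 hc), fun hcon => ?_⟩
        exact AE32.notMem_desc hE ((hmem c).1 hc) (hcon (AE32.self_mem_desc v))) c rfl)
    have hdesc : AE32.desc E v = insert v (ch.biUnion (AE32.desc E)) := by
      ext x
      rw [mem_insert, mem_biUnion, AE32.mem_desc, ReflTransGen.cases_head_iff]
      constructor
      · rintro (h1 | ⟨c, h1, h2⟩)
        · exact Or.inl h1.symm
        · exact Or.inr ⟨c, by simp [hch, h1], AE32.mem_desc.2 h2⟩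
      · rintro (h1 | ⟨c, h1, h2⟩)
        · exact Or.inl h1.symm
        · exact Or.inr ⟨c, by simpa [hch] using h1, AE32.mem_desc.1 h2⟩
    have hnv : v ∉ ch.biUnion (AE32.desc E) := by
      rw [mem_biUnion]
      rintro ⟨c, h1, h2⟩
      exact AE32.notMem_desc hE (by simpa [hch] using h1) h2
    refine ⟨F, ?_, ?_, hF3, ?_⟩
    · rw [hdesc, card_insert_of_notMem hnv, card_biUnion, hF1]
      · congr 1
        rw [Finset.sum_map_toList]
      · intro c hc d hd hcd
        exact AE32.desc_disjoint hE hin (by simpa [hch] using hc) (by simpa [hch] using hd) hcd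
    · rw [hF2, Finset.length_toList, hch]
      have h1 := hout v
      rwa [Set.ncard_eq_toFinset_card', Set.toFinset_ofPred] at h1
    · intro V R N S hS
      obtain ⟨x, A, B, hx, hxA, hxB, hAB, rfl, hA, hB⟩ := hS
      obtain rfl : B = ∅ := hB
      obtain ⟨f, q1, q2, q3, q4⟩ := hF4 ⟨x⟩ hA
      have hcase : ∀ a ∈ AE32.desc E v, a = v ∨ ∃ c ∈ ch.toList, a ∈ AE32.desc E c := by
        intro a ha
        rw [hdesc, mem_insert, mem_biUnion] at ha
        rcases ha with h1 | ⟨c, h1, h2⟩
        · exact Or.inl h1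
        · exact Or.inr ⟨c, Finset.mem_toList.2 h1, h2⟩
      have hne : ∀ c ∈ ch.toList, ∀ a ∈ AE32.desc E c, a ≠ v := by
        rintro c hc a ha rfl
        exact AE32.notMem_desc hE ((hmem c).1 hc) ha
      refine ⟨fun a => if a = v then x else f a, by simpa using hx, ?_, ?_, ?_⟩
      · intro a ha
        rcases hcase a ha with rfl | ⟨c, hc, hac⟩
        · simp
        · simp only [hne c hc a hac, if_false]
          exact mem_insert_of_mem (mem_union_left _ (q2 c hc a hac))
      · intro a ha a' ha' haa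
        rcases hcase a ha with rfl | ⟨c, hc, hac⟩
        · rcases hcase a' ha' with rfl | ⟨c', hc', hac'⟩
          · rfl
          · simp only [if_true, hne c' hc' a' hac', if_false] at haa
            exact absurd (haa ▸ q2 c' hc' a' hac') hxA
        · rcases hcase a' ha' with rfl | ⟨c', hc', hac'⟩
          · simp only [if_true, hne c hc a hac, if_false] at haa
            exact absurd (haa.symm ▸ q2 c hc a hac) hxA
          · simp only [hne c hc a hac, hne c' hc' a' hac', if_false] at haa
            exact q3 c hc a hac c' hc' a' hac' haa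
      · intro a ha a' haa
        have ha'v : a' ≠ v := by
          rintro rfl
          have h1 := AE32.rank_le hE (AE32.mem_desc.1 ha)
          have h2 := hE _ _ haa
          omega
        rcases hcase a ha with rfl | ⟨c, hc, hac⟩
        · simp only [if_true, ha'v, if_false]
          exact q1 a' ((hmem a').2 haa)
        · simp only [hne c hc a hac, ha'v, if_false]
          exact q4 c hc a hac a' haa


/-- in a tree every vertex has at most one neighbour which is closer to a fixed vertex -/
private theorem parent_unique {G : SimpleGraph τ} (hG : G.IsTree) (ρ : τ) {a b c : τ} (ha : G.Adj a c)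
    (hb : G.Adj b c) (h1 : G.dist ρ c = G.dist ρ a + 1) (h2 : G.dist ρ c = G.dist ρ b + 1) : a = b := by
  obtain ⟨p, hp⟩ := hG.connected.exists_walk_length_eq_dist ρ a
  obtain ⟨q, hq⟩ := hG.connected.exists_walk_length_eq_dist ρ b
  have hp' : (p.concat ha).IsPath := by
    apply SimpleGraph.Walk.isPath_of_length_eq_dist
    rw [SimpleGraph.Walk.length_concat, hp, h1]
  have hq' : (q.concat hb).IsPath := by
    apply SimpleGraph.Walk.isPath_of_length_eq_dist
    rw [SimpleGraph.Walk.length_concat, hq, h2]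
  have he : p.concat ha = q.concat hb := (hG.existsUnique_path ρ c).unique hp' hq'
  have h3 := congrArg (fun w => w.penultimate) he
  simpa using h3

/-- a directed path from `r` moves away from `r` -/
private theorem away {G : SimpleGraph τ} (hG : G.IsTree) (hadj : ∀ a c, E a c → G.Adj a c)
    (h4 : ∀ a c, E a c → ¬ E c a) {r v : τ} (h : ReflTransGen E r v) :
    v = r ∨ ∃ a, ReflTransGen E r a ∧ E a v ∧ G.dist r v = G.dist r a + 1 := by
  induction h with
  | refl => exact Or.inl rfl
  | @tail a c hra hac ih =>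
    refine Or.inr ⟨a, hra, hac, ?_⟩
    rcases hG.dist_eq_dist_add_one_of_adj r (hadj a c hac) with h | h
    · rcases ih with rfl | ⟨a', h1, h2, h3⟩
      · rw [SimpleGraph.dist_self] at h
        omega
      · have := parent_unique hG r (hadj _ _ h2) (hadj a c hac).symm h3 h
        subst this
        exact absurd h2 (h4 _ _ hac)
    · exact h

/-- one side -/
private theorem side {G : SimpleGraph τ} (hG : G.IsTree) (hadj : ∀ a c, E a c → G.Adj a c)
    (h4 : ∀ a c, E a c → ¬ E c a) {b : ℕ} (hout : ∀ v, {w | E v w}.ncard ≤ b) (r : τ) :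
    ∃ c : Fo, c.size + 1 = (AE32.desc E r).card ∧ c.len ≤ b ∧ c.Deg b ∧
      ∀ {V : Type} {R : V → V → Prop} {x : V} {S : Finset V}, x ∉ S → Emb R c (R x) S →
        ∃ f : τ → V, f r = x ∧ (∀ a ∈ AE32.desc E r, f a ∈ insert x S) ∧
          (∀ a ∈ AE32.desc E r, ∀ a' ∈ AE32.desc E r, f a = f a' → a = a') ∧
          ∀ a ∈ AE32.desc E r, ∀ a', E a a' → R (f a) (f a') := by
  set P : τ → τ → Prop := fun a c => E a c ∧ ReflTransGen E r a with hP
  have hE : ∀ a c, P a c → G.dist r a < G.dist r c := by
    rintro a c ⟨h1, h2⟩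
    rcases away hG hadj h4 (h2.tail h1) with rfl | ⟨a', h5, h6, h7⟩
    · -- a directed cycle through `r`
      exfalso
      rcases away hG hadj h4 h2 with rfl | ⟨a', h5, h6, h7⟩
      · exact h4 _ _ h1 h1
      · rcases hG.dist_eq_dist_add_one_of_adj c (hadj a c h1) with h | h
        · rw [SimpleGraph.dist_self] at h
          have h8 : G.dist c a = 1 := by omega
          have h9 : G.dist c a' = 0 := by omega
          rw [hG.connected.dist_eq_zero_iff] at h9
          subst h9
          exact h4 _ _ h1 h6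
        · rw [SimpleGraph.dist_self] at h
          omega
    · rcases hG.dist_eq_dist_add_one_of_adj r (hadj a c h1) with h | h
      · exfalso
        rcases away hG hadj h4 h2 with rfl | ⟨a'', h8, h9, h10⟩
        · rw [SimpleGraph.dist_self] at h
          omega
        · have := parent_unique hG r (hadj _ _ h9) (hadj a c h1).symm h10 h
          subst this
          exact h4 _ _ h1 h9
      · omega
  have hdist : ∀ a c, P a c → G.dist r c = G.dist r a + 1 := by
    intro a c hac
    have h1 := hE a c hac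
    rcases hG.dist_eq_dist_add_one_of_adj r (hadj a c hac.1) with h | h <;> omega
  have hin : ∀ a b c, P a c → P b c → a = b := fun a b c h1 h2 =>
    parent_unique hG r (hadj _ _ h1.1) (hadj _ _ h2.1) (hdist _ _ h1) (hdist _ _ h2)
  have hPout : ∀ v, {w | P v w}.ncard ≤ b := fun v =>
    (Set.ncard_le_ncard (fun w hw => hw.1) (Set.toFinite _)).trans (hout v)
  have hdesc : AE32.desc P r = AE32.desc E r := by
    ext v
    rw [AE32.mem_desc, AE32.mem_desc]
    constructor
    · intro h
      exact ReflTransGen.mono (r := P) (p := E) (fun a c hac => hac.1) _ _ h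
    · intro h
      induction h with
      | refl => exact ReflTransGen.refl
      | tail h1 h2 ih => exact ih.tail ⟨h2, h1⟩
  obtain ⟨c, hc1, hc2, hc3, hc4⟩ := codes_of hE hin hPout _ r rfl
  rw [hdesc] at hc1 hc4
  refine ⟨c, hc1, hc2, hc3, ?_⟩
  intro V R x S hxS hS
  obtain ⟨f, p1, p2, p3, p4⟩ := hc4 (V := V) (R := R) (N := fun y => y = x) (S := insert x S)
    ⟨x, S, ∅, rfl, hxS, by simp, by simp, by simp, hS, rfl⟩
  exact ⟨f, p1, p2, p3, fun a ha a' haa => p4 a ha a' ⟨haa, AE32.mem_desc.1 ha⟩⟩

end glue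

theorem glue {k b : ℕ} {E : Fin (k + 1) → Fin (k + 1) → Prop} (h4 : ∀ a c, E a c → ¬ E c a)
    (h5 : (SimpleGraph.fromRel E).IsTree) (h6 : ∀ v, {w | E v w}.ncard ≤ b) (h7 : ∀ v, {w | E w v}.ncard ≤ b)
    {r : Fin (k + 1)} (h8 : ∀ v, Relation.ReflTransGen E r v ∨ Relation.ReflTransGen E v r) :
    ∃ c₁ c₂ : Fo, c₁.size + c₂.size = k ∧ c₁.len ≤ b ∧ c₁.Deg b ∧ c₂.len ≤ b ∧ c₂.Deg b ∧
      ∀ {V : Type} {R : V → V → Prop} {x : V} {S₁ S₂ : Finset V}, Disjoint S₁ S₂ → x ∉ S₁ → x ∉ S₂ →
        Emb (rv R) c₁ (rv R x) S₁ → Emb R c₂ (R x) S₂ →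
        ∃ f : Fin (k + 1) → V, Function.Injective f ∧ ∀ a c, E a c → R (f a) (f c) := by
  set G : SimpleGraph (Fin (k + 1)) := SimpleGraph.fromRel E with hG
  set E' : Fin (k + 1) → Fin (k + 1) → Prop := fun a c => E c a with hE'
  have hadj : ∀ a c, E a c → G.Adj a c := by
    intro a c hac
    rw [hG, SimpleGraph.fromRel_adj]
    refine ⟨?_, Or.inl hac⟩
    rintro rfl
    exact h4 _ _ hac hac
  have hadj' : ∀ a c, E' a c → G.Adj a c := fun a c hac => (hadj c a hac).symm
  have h4' : ∀ a c, E' a c → ¬ E' c a := fun a c hac h => h4 _ _ hac h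
  have hswap : ∀ v, ReflTransGen E' r v ↔ ReflTransGen E v r := by
    intro v
    rw [show E' = Function.swap E from rfl, Relation.reflTransGen_swap]
  obtain ⟨c₂, a1, a2, a3, a4⟩ := side h5 hadj h4 h6 r
  obtain ⟨c₁, b1, b2, b3, b4⟩ := side h5 hadj' h4' h7 r
  set D₂ := AE32.desc E r with hD₂
  set D₁ := AE32.desc E' r with hD₁
  have hunion : D₁ ∪ D₂ = univ := by
    rw [eq_univ_iff_forall]
    intro v
    rw [mem_union, hD₁, hD₂, AE32.mem_desc, AE32.mem_desc, hswap]
    exact (h8 v).symm
  have hinter : D₁ ∩ D₂ = {r} := by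
    ext v
    rw [mem_inter, mem_singleton]
    constructor
    · rintro ⟨h1, h2⟩
      rw [hD₁, AE32.mem_desc] at h1
      rw [hD₂, AE32.mem_desc] at h2
      rcases away h5 hadj h4 h2 with h | ⟨a, h9, h10, h11⟩
      · exact h
      rcases away h5 hadj' h4' h1 with h | ⟨a', h12, h13, h14⟩
      · exact h
      have := parent_unique h5 r (hadj _ _ h10) (hadj' _ _ h13) h11 h14
      subst this
      exact absurd h10 (h4 _ _ h13)
    · rintro rfl
      exact ⟨AE32.self_mem_desc _, AE32.self_mem_desc _⟩
  have hcard : D₁.card + D₂.card = k + 2 := by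
    have h1 := card_union_add_card_inter D₁ D₂
    rw [hunion, hinter, card_univ, Fintype.card_fin, card_singleton] at h1
    omega
  refine ⟨c₁, c₂, by omega, b2, b3, a2, a3, ?_⟩
  intro V R x S₁ S₂ hd hx1 hx2 he1 he2
  obtain ⟨f₂, p1, p2, p3, p4⟩ := a4 hx2 he2
  obtain ⟨f₁, q1, q2, q3, q4⟩ := b4 hx1 he1
  have hr2 : r ∈ D₂ := AE32.self_mem_desc r
  have hr1 : r ∈ D₁ := AE32.self_mem_desc r
  have hmem2 : ∀ a ∈ D₂, a ≠ r → f₂ a ∈ S₂ := by
    intro a ha har
    have h := p2 a ha
    rw [mem_insert] at h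
    rcases h with h | h
    · exact absurd (p3 a ha r hr2 (h.trans p1.symm)) har
    · exact h
  have hmem1 : ∀ a ∈ D₁, a ≠ r → f₁ a ∈ S₁ := by
    intro a ha har
    have h := q2 a ha
    rw [mem_insert] at h
    rcases h with h | h
    · exact absurd (q3 a ha r hr1 (h.trans q1.symm)) har
    · exact h
  have hD1 : ∀ a, a ∉ D₂ → a ∈ D₁ := by
    intro a ha
    have h : a ∈ D₁ ∪ D₂ := hunion ▸ mem_univ a
    rw [mem_union] at h
    tauto
  have hboth : ∀ a ∈ D₁, a ∈ D₂ → a = r := by
    intro a h1 h2
    have h : a ∈ D₁ ∩ D₂ := mem_inter.2 ⟨h1, h2⟩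
    rwa [hinter, mem_singleton] at h
  set f : Fin (k + 1) → V := fun a => if a ∈ D₂ then f₂ a else f₁ a with hf
  have hf2 : ∀ a ∈ D₂, f a = f₂ a := fun a ha => by simp [hf, ha]
  have hf1 : ∀ a ∈ D₁, f a = f₁ a := by
    intro a ha
    by_cases h : a ∈ D₂
    · have := hboth a ha h
      subst this
      rw [hf2 _ h, p1, q1]
    · simp [hf, h]
  refine ⟨f, ?_, ?_⟩
  · intro a a' haa
    by_cases h1 : a ∈ D₂ <;> by_cases h2 : a' ∈ D₂
    · rw [hf2 a h1, hf2 a' h2] at haa
      exact p3 a h1 a' h2 haa
    · have h3 := hD1 a' h2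
      have h4 : a' ≠ r := fun h => h2 (h ▸ hr2)
      by_cases h5 : a = r
      · subst h5
        rw [hf1 _ hr1, hf1 a' h3] at haa
        exact q3 _ hr1 a' h3 haa
      · rw [hf2 a h1, hf1 a' h3] at haa
        exact absurd (haa ▸ hmem2 a h1 h5) (fun h => (Finset.disjoint_left.1 hd) (hmem1 a' h3 h4) h)
    · have h3 := hD1 a h1
      have h4 : a ≠ r := fun h => h1 (h ▸ hr2)
      by_cases h5 : a' = r
      · subst h5
        rw [hf1 _ hr1, hf1 a h3] at haa
        exact q3 a h3 _ hr1 haa
      · rw [hf2 a' h2, hf1 a h3] at haa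
        exact absurd (haa ▸ hmem1 a h3 h4) (fun h => (Finset.disjoint_left.1 hd) h (hmem2 a' h2 h5))
    · rw [hf1 a (hD1 a h1), hf1 a' (hD1 a' h2)] at haa
      exact q3 a (hD1 a h1) a' (hD1 a' h2) haa
  · intro a c hac
    by_cases h1 : a ∈ D₂
    · have h2 : c ∈ D₂ := AE32.mem_desc.2 ((AE32.mem_desc.1 h1).tail hac)
      rw [hf2 a h1, hf2 c h2]
      exact p4 a h1 c hac
    · have h3 := hD1 a h1
      have har : a ≠ r := fun h => h1 (h ▸ hr2)
      have h2 : c ∈ D₁ := by
        by_contra hc
        have hc2 : c ∈ D₂ := by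
          have h : c ∈ D₁ ∪ D₂ := hunion ▸ mem_univ c
          rw [mem_union] at h
          tauto
        have hcr : c ≠ r := fun h => hc (h ▸ hr1)
        rcases away h5 hadj h4 (AE32.mem_desc.1 hc2) with h | ⟨a', h9, h10, h11⟩
        · exact hcr h
        rcases away h5 hadj' h4' (AE32.mem_desc.1 h3) with h | ⟨c', h12, h13, h14⟩
        · exact har h
        rcases h5.dist_eq_dist_add_one_of_adj r (hadj a c hac) with h | h
        · have := parent_unique h5 r (hadj' _ _ h13) (hadj a c hac).symm h14 h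
          subst this
          exact hc (AE32.mem_desc.2 h12)
        · have := parent_unique h5 r (hadj _ _ h10) (hadj a c hac) h11 h
          subst this
          exact h1 (AE32.mem_desc.2 h9)
      rw [hf1 a h3, hf1 c h2]
      exact q4 c h2 a hac

end SPD
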