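import Pool.Agent.SPD.Defs

/-!
# Padding: from large forests of similar shape to all forests

`two_sides'_of` deduces the statement for all pairs of forests from the statement `TwoSides (b + 1)` for pairs with
`(b + 1) * (b + 2) < c₁.size ≤ c₂.size`: a directed path of constant length is added to both forests; the case
`c₂.size < c₁.size` follows by reversing all arcs.
-/

namespace SPD

open Finset AE15
open scoped Classical

/-- the conclusion of `two_sides b` -/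
def TwoSides (b : ℕ) : Prop :=
  ∃ C : ℕ, ∀ {V : Type} {R : V → V → Prop}, AE32.Tour R → ∀ c₁ c₂ : Fo,
    c₁.len ≤ b → c₁.Deg b → c₂.len ≤ b → c₂.Deg b → b * (b + 1) < c₁.size → c₁.size ≤ c₂.size →
    ∀ X : Finset V, c₁.size + c₂.size + 1 + C ≤ X.card →
      ∃ r ∈ X, ∃ S₁ ⊆ X, ∃ S₂ ⊆ X, Disjoint S₁ S₂ ∧ r ∉ S₁ ∧ r ∉ S₂ ∧ Emb (rv R) c₁ (rv R r) S₁ ∧
        Emb R c₂ (R r) S₂

/-- a path with `n` vertices -/
private def pth : ℕ → Fo
  | 0 => .nil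
  | n + 1 => .node (pth n) .nil

private theorem size_pth (n : ℕ) : (pth n).size = n := by
  induction n with
  | zero => rfl
  | succ n ih => simp [pth, Fo.size, ih]

private theorem len_pth (n : ℕ) : (pth n).len ≤ 1 := by
  cases n with
  | zero => simp [pth, Fo.len]
  | succ n => simp [pth, Fo.len]

private theorem deg_pth {b : ℕ} (hb : 1 ≤ b) (n : ℕ) : (pth n).Deg b := by
  induction n with
  | zero => trivial
  | succ n ih => exact ⟨(len_pth n).trans hb, ih, trivial⟩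

private theorem deg_mono {b b' : ℕ} (h : b ≤ b') (F : Fo) (hF : F.Deg b) : F.Deg b' := by
  induction F with
  | nil => trivial
  | node c s ihc ihs => exact ⟨hF.1.trans h, ihc hF.2.1, ihs hF.2.2⟩

private theorem emb_pad {V : Type} {R : V → V → Prop} {P c : Fo} {N : V → Prop} {S : Finset V}
    (h : Emb R (.node P c) N S) : ∃ B ⊆ S, Emb R c N B := by
  obtain ⟨x, A, B, -, -, -, -, rfl, -, hB⟩ := h
  exact ⟨B, subset_union_right.trans (subset_insert _ _), hB⟩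

theorem two_sides'_of (b : ℕ) (h : TwoSides (b + 1)) : ∃ C : ℕ, ∀ {V : Type} {R : V → V → Prop}, AE32.Tour R →
    ∀ c₁ c₂ : Fo, c₁.len ≤ b → c₁.Deg b → c₂.len ≤ b → c₂.Deg b →
    ∀ X : Finset V, c₁.size + c₂.size + 1 + C ≤ X.card →
      ∃ r ∈ X, ∃ S₁ ⊆ X, ∃ S₂ ⊆ X, Disjoint S₁ S₂ ∧ r ∉ S₁ ∧ r ∉ S₂ ∧ Emb (rv R) c₁ (rv R r) S₁ ∧
        Emb R c₂ (R r) S₂ := by
  obtain ⟨C, hC⟩ := h
  set m : ℕ := (b + 1) * (b + 1 + 1) with hm
  refine ⟨C + 2 * (m + 1), ?_⟩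
  -- the padded forests
  have key : ∀ {V : Type} {R : V → V → Prop}, AE32.Tour R →
      ∀ c₁ c₂ : Fo, c₁.len ≤ b → c₁.Deg b → c₂.len ≤ b → c₂.Deg b → c₁.size ≤ c₂.size →
      ∀ X : Finset V, c₁.size + c₂.size + 1 + (C + 2 * (m + 1)) ≤ X.card →
      ∃ r ∈ X, ∃ S₁ ⊆ X, ∃ S₂ ⊆ X, Disjoint S₁ S₂ ∧ r ∉ S₁ ∧ r ∉ S₂ ∧ Emb (rv R) c₁ (rv R r) S₁ ∧
        Emb R c₂ (R r) S₂ := by
    intro V R hT c₁ c₂ h1 h2 h3 h4 h5 X hX
    have hs : ∀ c : Fo, (Fo.node (pth m) c).size = c.size + (m + 1) := by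
      intro c
      simp only [Fo.size, size_pth]
      omega
    have hl : ∀ c : Fo, c.len ≤ b → (Fo.node (pth m) c).len ≤ b + 1 := by
      intro c hc
      simp only [Fo.len]
      omega
    have hd : ∀ c : Fo, c.Deg b → (Fo.node (pth m) c).Deg (b + 1) := fun c hc =>
      ⟨(len_pth m).trans (by omega), deg_pth (by omega) m, deg_mono (by omega) c hc⟩
    obtain ⟨r, hr, S₁, hS₁, S₂, hS₂, hdis, hr1, hr2, hE1, hE2⟩ := hC hT (.node (pth m) c₁) (.node (pth m) c₂)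
      (hl _ h1) (hd _ h2) (hl _ h3) (hd _ h4) (by rw [hs]; omega) (by rw [hs, hs]; omega) X (by rw [hs, hs]; omega)
    obtain ⟨B₁, hB₁, hE1'⟩ := emb_pad hE1
    obtain ⟨B₂, hB₂, hE2'⟩ := emb_pad hE2
    exact ⟨r, hr, B₁, hB₁.trans hS₁, B₂, hB₂.trans hS₂, disjoint_of_subset_left hB₁ (disjoint_of_subset_right hB₂ hdis),
      fun h => hr1 (hB₁ h), fun h => hr2 (hB₂ h), hE1', hE2'⟩
  intro V R hT c₁ c₂ h1 h2 h3 h4 X hX
  rcases le_total c₁.size c₂.size with h5 | h5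
  · exact key hT c₁ c₂ h1 h2 h3 h4 h5 X hX
  · obtain ⟨r, hr, S₁, hS₁, S₂, hS₂, hdis, hr1, hr2, hE1, hE2⟩ :=
      key (rv_tour hT) c₂ c₁ h3 h4 h1 h2 h5 X (by omega)
    exact ⟨r, hr, S₂, hS₂, S₁, hS₁, hdis.symm, hr2, hr1, hE2, hE1⟩

end SPD
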