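import Pool.Agent.SPD.TopTwo
import Pool.Agent.SPD.Pad
import Pool.Agent.SPD.Glue

/-!
# Trees with a vertex from which every vertex is reachable or which is reachable from it
-/

namespace SPD

open Finset AE15
open scoped Classical

theorem two_sides' (b : ℕ) : ∃ C : ℕ, ∀ {V : Type} {R : V → V → Prop}, AE32.Tour R → ∀ c₁ c₂ : Fo,
    c₁.len ≤ b → c₁.Deg b → c₂.len ≤ b → c₂.Deg b → ∀ X : Finset V, c₁.size + c₂.size + 1 + C ≤ X.card →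
      ∃ r ∈ X, ∃ S₁ ⊆ X, ∃ S₂ ⊆ X, Disjoint S₁ S₂ ∧ r ∉ S₁ ∧ r ∉ S₂ ∧ Emb (rv R) c₁ (rv R r) S₁ ∧
        Emb R c₂ (R r) S₂ := two_sides'_of b (two_sides (b + 1) (by omega))

theorem main (b : ℕ) : ∃ C : ℕ, ∀ k n : ℕ, k + C ≤ n → ∀ R : Fin n → Fin n → Prop,
    (∀ a, ¬ R a a) → (∀ a c, a ≠ c → R a c ∨ R c a) → (∀ a c, R a c → ¬ R c a) →
    ∀ E : Fin (k + 1) → Fin (k + 1) → Prop, (∀ a c, E a c → ¬ E c a) → (SimpleGraph.fromRel E).IsTree →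
      (∀ v, {w | E v w}.ncard ≤ b) → (∀ v, {w | E w v}.ncard ≤ b) →
      (∃ r, ∀ v, Relation.ReflTransGen E r v ∨ Relation.ReflTransGen E v r) →
      ∃ f : Fin (k + 1) → Fin n, Function.Injective f ∧ ∀ a c, E a c → R (f a) (f c) := by
  obtain ⟨C, hC⟩ := two_sides' b
  refine ⟨C + 1, ?_⟩
  intro k n hn R h1 h2 h3 E h4 h5 h6 h7 h8
  obtain ⟨r, hr⟩ := h8
  obtain ⟨c₁, c₂, g1, g2, g3, g4, g5, g6⟩ := glue h4 h5 h6 h7 hr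
  obtain ⟨x, _, S₁, _, S₂, _, g7, g8, g9, g10, g11⟩ := hC (R := R) ⟨h1, h2, h3⟩ c₁ c₂ g2 g3 g4 g5 univ (by
    rw [card_univ, Fintype.card_fin]; omega)
  exact g6 g7 g8 g9 g10 g11

end SPD
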