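import Pool.Agent.SPD.Defs

/-!
# The structure lemma with a prescribed size
-/

namespace SPD

open Finset AE15
open scoped Classical

variable {V : Type*} {R : V → V → Prop}

/-- **Structure lemma with a prescribed size.** -/
theorem struct_size (hT : AE32.Tour R) (X : Finset V) {κ₀ s : ℝ} (h0 : 0 < κ₀) (hκ : κ₀ ≤ 1) (hn : 0 < X.card)
    (hs : s ≤ X.card) :
    ∃ U ⊆ X, s ≤ U.card ∧ (∀ z ∈ X, z ∉ U → ((nO R U z).card : ℝ) < κ₀ * X.card) ∧
      ∀ w, 2 * κ₀ * X.card ≤ ((nO R U w).card : ℝ) → ∀ C ⊆ X, nO R X w ⊆ C → Closed R (κ₀ ^ 2 / 4) X C →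
        X \ U ⊆ C ∧ ((U \ C).card : ℝ) < s := by
  obtain ⟨n, hnd⟩ : ∃ n : ℝ, n = (X.card : ℝ) := ⟨_, rfl⟩
  rw [← hnd] at hs ⊢
  have hn0 : 0 ≤ n := by rw [hnd]; positivity
  have hnpos : 0 < n := by
    rw [hnd]; exact_mod_cast hn
  -- a minimal set
  set P : Finset V → Prop := fun U => s ≤ U.card ∧ ∀ z ∈ X, z ∉ U → ((nO R U z).card : ℝ) < κ₀ * n with hP
  have hne : (X.powerset.filter P).Nonempty := by
    refine ⟨X, ?_⟩
    simp only [mem_filter, mem_powerset]
    refine ⟨Subset.refl _, ?_, fun z hz hz' => absurd hz hz'⟩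
    rw [← hnd]; exact hs
  obtain ⟨U, hU, hmin⟩ := exists_min_image _ (fun U => U.card) hne
  simp only [mem_filter, mem_powerset] at hU hmin
  obtain ⟨hUX, hUη, hUz⟩ := hU
  have hUn : (U.card : ℝ) ≤ n := by rw [hnd]; exact_mod_cast card_le_card hUX
  refine ⟨U, hUX, hUη, hUz, ?_⟩
  intro g hg2 C hCX hCg hC
  have hκn : κ₀ ^ 2 / 4 * n ≤ κ₀ * n := by
    refine mul_le_mul_of_nonneg_right ?_ hn0
    nlinarith
  -- many vertices of `U` are in `C`
  have hUC : 2 * κ₀ * n ≤ ((U ∩ C).card : ℝ) := by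
    refine hg2.trans ?_
    have : nO R U g ⊆ U ∩ C := by
      intro w hw
      rw [mem_inter]
      exact ⟨nO_sub hw, hCg (nO_mono hUX hw)⟩
    exact_mod_cast card_le_card this
  -- `C` contains `X \ U`
  have hXU : X \ U ⊆ C := by
    intro z hz
    rw [mem_sdiff] at hz
    by_contra hzC
    have h1 := hC z hz.1 hzC
    rw [← hnd] at h1
    have h2 := hUz z hz.1 hz.2
    have h3 := card_nO_add_nI hT (X := U ∩ C) (v := z) (fun h => hz.2 (mem_inter.1 h).1)
    have h4 : ((nO R (U ∩ C) z).card : ℝ) ≤ (nO R U z).card := by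
      exact_mod_cast card_le_card (nO_mono inter_subset_left)
    have h5 : ((nI R (U ∩ C) z).card : ℝ) ≤ (nI R C z).card := by
      exact_mod_cast card_le_card (nI_mono inter_subset_right)
    have h6 : ((nO R (U ∩ C) z).card : ℝ) + (nI R (U ∩ C) z).card = (U ∩ C).card := by exact_mod_cast h3
    linarith
  refine ⟨hXU, ?_⟩
  by_contra hc
  push Not at hc
  -- the few vertices
  set F := (U ∩ C).filter (fun z => κ₀ * n / 2 ≤ ((nO R (U \ C) z).card : ℝ)) with hF
  have hF1 : (F.card : ℝ) ≤ κ₀ * n / 2 := by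
    have h1 : ∑ z ∈ F, ((nO R (U \ C) z).card : ℝ) = ∑ y ∈ U \ C, ((nI R F y).card : ℝ) := by
      exact_mod_cast sum_nO_eq_sum_nI F (U \ C)
    have h2 : (F.card : ℝ) * (κ₀ * n / 2) ≤ ∑ z ∈ F, ((nO R (U \ C) z).card : ℝ) := by
      rw [← nsmul_eq_mul]
      exact card_nsmul_le_sum _ _ _ (fun z hz => (mem_filter.1 hz).2)
    have h3 : ∑ y ∈ U \ C, ((nI R F y).card : ℝ) ≤ ∑ y ∈ U \ C, (κ₀ ^ 2 / 4 * n) := by
      refine sum_le_sum (fun y hy => ?_)
      rw [mem_sdiff] at hy
      have h4 := hC y (hUX hy.1) hy.2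
      rw [← hnd] at h4
      have h5 : ((nI R F y).card : ℝ) ≤ (nI R C y).card := by
        exact_mod_cast card_le_card (nI_mono ((filter_subset _ _).trans inter_subset_right))
      linarith
    rw [sum_const, nsmul_eq_mul] at h3
    have h4 : ((U \ C).card : ℝ) ≤ n := by
      refine le_trans ?_ hUn
      exact_mod_cast card_le_card sdiff_subset
    have h5 : (F.card : ℝ) * (κ₀ * n / 2) ≤ n * (κ₀ ^ 2 / 4 * n) := by
      refine (h2.trans (h1.le.trans h3)).trans ?_
      have : 0 ≤ κ₀ ^ 2 / 4 * n := by positivity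
      nlinarith
    have h6 : 0 < κ₀ * n := by positivity
    have h7 : (F.card : ℝ) * (κ₀ * n) ≤ (κ₀ * n / 2) * (κ₀ * n) := by nlinarith
    exact le_of_mul_le_mul_right h7 h6
  have hsub : (U \ C) ∪ F ⊆ U := by
    apply union_subset sdiff_subset
    exact (filter_subset _ _).trans inter_subset_left
  have hPU : P ((U \ C) ∪ F) := by
    constructor
    · refine hc.trans ?_
      exact_mod_cast card_le_card subset_union_left
    · intro z hz hzU
      rw [mem_union, not_or] at hzU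
      by_cases hzU' : z ∈ U
      · have hzC : z ∈ C := by
          by_contra h
          exact hzU.1 (mem_sdiff.2 ⟨hzU', h⟩)
        have h1 : ((nO R (U \ C) z).card : ℝ) < κ₀ * n / 2 := by
          by_contra h
          push Not at h
          exact hzU.2 (mem_filter.2 ⟨mem_inter.2 ⟨hzU', hzC⟩, h⟩)
        have h2 : nO R ((U \ C) ∪ F) z ⊆ nO R (U \ C) z ∪ F := by
          intro w hw
          rw [mem_nO, mem_union] at hw
          rw [mem_union, mem_nO]
          rcases hw.1 with h | h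
          · exact Or.inl ⟨h, hw.2⟩
          · exact Or.inr h
        have h3 : ((nO R ((U \ C) ∪ F) z).card : ℝ) ≤ (nO R (U \ C) z).card + F.card := by
          exact_mod_cast (card_le_card h2).trans (card_union_le _ _)
        linarith
      · have h1 := hUz z hz hzU'
        have h2 : ((nO R ((U \ C) ∪ F) z).card : ℝ) ≤ (nO R U z).card := by
          exact_mod_cast card_le_card (nO_mono hsub)
        linarith
  have h8 := hmin _ ⟨hsub.trans hUX, hPU⟩
  have h9 : U.card = (U \ C).card + (U ∩ C).card := (card_sdiff_add_card_inter U C).symm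
  have h10 : ((U \ C) ∪ F).card ≤ (U \ C).card + F.card := card_union_le _ _
  have h11 : ((U ∩ C).card : ℝ) ≤ F.card := by
    have : (U ∩ C).card ≤ F.card := by omega
    exact_mod_cast this
  have h12 : 0 < κ₀ * n := by positivity
  linarith

theorem bad_few {κ₀ : ℝ} {X U : Finset V} (h0 : 0 < κ₀) (hn : 0 < X.card)
    (hU : ∀ z ∈ X, z ∉ U → ((nO R U z).card : ℝ) < κ₀ * X.card) {u : V} (hu : u ∈ bad R κ₀ X U) :
    ((nO R U u).card : ℝ) < 2 * κ₀ * X.card := by
  rw [bad, mem_filter] at hu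
  rcases hu.2 with h | h
  · have h1 := hU u hu.1 h
    have h2 : (0 : ℝ) < κ₀ * X.card := by
      have : (0 : ℝ) < X.card := by exact_mod_cast hn
      positivity
    linarith
  · exact h

theorem bad_card (hT : AE32.Tour R) {κ₀ : ℝ} {X U : Finset V} (h0 : 0 < κ₀) (hUX : U ⊆ X) :
    ((bad R κ₀ X U).card : ℝ) ≤ X.card - U.card + 4 * κ₀ * X.card + 1 ∧
      ((bad R κ₀ X U ∩ U).card : ℝ) ≤ 4 * κ₀ * X.card + 1 := by
  have h1 : bad R κ₀ X U ∩ U ⊆ U.filter (fun v => (nO R U v).card ≤ ⌊2 * κ₀ * X.card⌋₊) := by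
    intro v hv
    rw [mem_inter, bad, mem_filter] at hv
    rw [mem_filter]
    rcases hv.1.2 with h | h
    · exact absurd hv.2 h
    · exact ⟨hv.2, Nat.le_floor h.le⟩
  have h2 := card_low hT U ⌊2 * κ₀ * X.card⌋₊
  have h3 : ((⌊2 * κ₀ * X.card⌋₊ : ℕ) : ℝ) ≤ 2 * κ₀ * X.card := Nat.floor_le (by positivity)
  have h4 : ((bad R κ₀ X U ∩ U).card : ℝ) ≤ 2 * (⌊2 * κ₀ * X.card⌋₊ : ℝ) + 1 := by
    exact_mod_cast (card_le_card h1).trans h2
  have h5 : bad R κ₀ X U ⊆ (X \ U) ∪ (bad R κ₀ X U ∩ U) := by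
    intro v hv
    rw [mem_union, mem_sdiff, mem_inter]
    by_cases hvU : v ∈ U
    · exact Or.inr ⟨hv, hvU⟩
    · exact Or.inl ⟨filter_subset _ _ hv, hvU⟩
  have h6 := (card_le_card h5).trans (card_union_le _ _)
  have h7 : (X \ U).card + U.card = X.card := by
    rw [card_sdiff_of_subset hUX]
    have := card_le_card hUX
    omega
  have h8 : ((bad R κ₀ X U).card : ℝ) + U.card ≤ X.card + (bad R κ₀ X U ∩ U).card := by
    have : (bad R κ₀ X U).card + U.card ≤ X.card + (bad R κ₀ X U ∩ U).card := by omega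
    exact_mod_cast this
  constructor
  · linarith
  · linarith

theorem rch_mono {X W : Finset V} {k k' : ℝ} {v : V} (h : Rch R X k v W) (hk : k' ≤ k) : Rch R X k' v W := by
  induction h with
  | base => exact Rch.base
  | step W z h1 h2 h3 h4 ih => exact Rch.step W z ih h2 h3 (hk.trans h4)

/-- a closed robust reach -/
theorem exists_closed_rch (R : V → V → Prop) (X : Finset V) (κ : ℝ) (w : V) :
    ∃ W ⊆ X, nO R X w ⊆ W ∧ Rch R X (κ * X.card) w W ∧ Closed R κ X W := by
  have hne : (X.powerset.filter (fun W => Rch R X (κ * X.card) w W)).Nonempty :=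
    ⟨nO R X w, by rw [mem_filter, mem_powerset]; exact ⟨nO_sub, Rch.base⟩⟩
  obtain ⟨W, hW, hmax⟩ := exists_max_image _ (fun W => W.card) hne
  rw [mem_filter, mem_powerset] at hW
  refine ⟨W, hW.1, hW.2.nO_sub, hW.2, fun z hz hzW => ?_⟩
  by_contra hc
  push Not at hc
  have h1 := hmax (insert z W) (by
    rw [mem_filter, mem_powerset]
    exact ⟨insert_subset hz hW.1, Rch.step W z hW.2 hz hzW hc⟩)
  rw [card_insert_of_notMem hzW] at h1
  omega

end SPD
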